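import Pool.Agent.Y879.PR.Unif
import Pool.Agent.Y879.GL.Prog2

set_option autoImplicit false

/-!
# The system `6 x + 5`, `6 x + 7`, `6 (K - x) + 5`, `6 (K - x) + 7`
-/

namespace Pool.Agent.Y879.PR

open Polynomial Finset Filter
open Pool.Agent.W123.RP Pool.Agent.H373R2.T7 Pool.Agent.W123.RU Pool.Agent.W123.RU.Poly
open Pool.Agent.TH464.PW Pool.Agent.TH464.PO Pool.Agent.Y879.AP Pool.Agent.Y879.GL

/-- the coefficients -/
def da : Fin 4 → ℤ := ![6, 6, -6, -6]

/-- the constant terms -/
def db (K : ℕ) : Fin 4 → ℤ := ![5, 7, 6 * K + 5, 6 * K + 7]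

/-- the four forms -/
noncomputable def df (K : ℕ) : Fin 4 → ℤ[X] := fun i => lf (da i) (db K i)

/-- one of the four numbers is divisible by `p` -/
def Q4 (K p x : ℕ) : Prop :=
  (p : ℤ) ∣ 6 * x + 5 ∨ (p : ℤ) ∣ 6 * x + 7 ∨ (p : ℤ) ∣ 6 * (K - x) + 5 ∨ (p : ℤ) ∣ 6 * (K - x) + 7

lemma df_Q (K p x : ℕ) : Q (df K) p x ↔ Q4 K p x := by
  unfold Q Q4 df
  constructor
  · rintro ⟨i, hi⟩
    rw [lf_eval] at hi
    fin_cases i
    · left
      simpa [da, db] using hi
    · right
      left
      simpa [da, db] using hi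
    · right
      right
      left
      have h : (-6 : ℤ) * x + (6 * K + 5) = 6 * (K - x) + 5 := by ring
      simp only [da, db] at hi
      rw [← h]
      simpa using hi
    · right
      right
      right
      have h : (-6 : ℤ) * x + (6 * K + 7) = 6 * (K - x) + 7 := by ring
      simp only [da, db] at hi
      rw [← h]
      simpa using hi
  · rintro (h | h | h | h)
    · refine ⟨0, ?_⟩
      rw [lf_eval]
      simpa [da, db] using h
    · refine ⟨1, ?_⟩
      rw [lf_eval]
      simpa [da, db] using h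
    · refine ⟨2, ?_⟩
      rw [lf_eval]
      have h2 : (-6 : ℤ) * x + (6 * K + 5) = 6 * (K - x) + 5 := by ring
      simp only [da, db]
      rw [← h2] at h
      simpa using h
    · refine ⟨3, ?_⟩
      rw [lf_eval]
      have h2 : (-6 : ℤ) * x + (6 * K + 7) = 6 * (K - x) + 7 := by ring
      simp only [da, db]
      rw [← h2] at h
      simpa using h

lemma df_us (K : ℕ) (hK : 1 ≤ K) (H U : ℝ) (hH : 6 * (K : ℝ) + 7 ≤ H) (hU : U < K) :
    US 4 1 H U (df K) := by
  have hKr : (1 : ℝ) ≤ K := by exact_mod_cast hK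
  apply us_lf
  · intro i
    fin_cases i <;> simp [da]
  · intro i
    have h5 : IsCoprime (6 : ℤ) 5 := ⟨1, -1, by norm_num⟩
    have h7 : IsCoprime (6 : ℤ) 7 := ⟨-1, 1, by norm_num⟩
    fin_cases i
    · exact h5
    · exact h7
    · change IsCoprime (-6 : ℤ) (6 * K + 5)
      have : IsCoprime (6 : ℤ) (5 + 6 * K) := h5.add_mul_left_right _
      rw [add_comm] at this
      exact this.neg_left
    · change IsCoprime (-6 : ℤ) (6 * K + 7)
      have : IsCoprime (6 : ℤ) (7 + 6 * K) := h7.add_mul_left_right _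
      rw [add_comm] at this
      exact this.neg_left
  · intro i
    fin_cases i
    · change |((6 : ℤ) : ℝ)| ≤ H
      rw [show |((6 : ℤ) : ℝ)| = 6 by norm_num]
      linarith
    · change |((6 : ℤ) : ℝ)| ≤ H
      rw [show |((6 : ℤ) : ℝ)| = 6 by norm_num]
      linarith
    · change |((-6 : ℤ) : ℝ)| ≤ H
      rw [show |((-6 : ℤ) : ℝ)| = 6 by norm_num]
      linarith
    · change |((-6 : ℤ) : ℝ)| ≤ H
      rw [show |((-6 : ℤ) : ℝ)| = 6 by norm_num]
      linarith
  · intro i
    fin_cases i
    · change |((5 : ℤ) : ℝ)| ≤ H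
      rw [show |((5 : ℤ) : ℝ)| = 5 by norm_num]
      linarith
    · change |((7 : ℤ) : ℝ)| ≤ H
      rw [show |((7 : ℤ) : ℝ)| = 7 by norm_num]
      linarith
    · change |((6 * K + 5 : ℤ) : ℝ)| ≤ H
      push_cast
      rw [abs_of_nonneg (by positivity)]
      linarith
    · change |((6 * K + 7 : ℤ) : ℝ)| ≤ H
      push_cast
      rw [abs_of_nonneg (by positivity)]
      linarith
  · intro p hp
    rcases Nat.lt_or_ge p 5 with h5 | h5
    · have hp6 : p ∣ 6 := by
        have := hp.two_le
        interval_cases p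
        · norm_num
        · norm_num
        · exact absurd hp (by norm_num)
      have hp6' : (p : ℤ) ∣ 6 := by exact_mod_cast hp6
      have h1 : ¬ (p : ℤ) ∣ 1 := by
        intro h
        have : p ∣ 1 := by exact_mod_cast h
        exact hp.one_lt.ne' (Nat.dvd_one.1 this)
      have key5 : ∀ x : ℤ, ¬ (p : ℤ) ∣ 6 * x + 5 := by
        intro x h
        apply h1
        have h2 : (p : ℤ) ∣ 6 * (x + 1) - (6 * x + 5) := dvd_sub (Dvd.dvd.mul_right hp6' _) h
        rwa [show 6 * (x + 1) - (6 * x + 5) = (1 : ℤ) by ring] at h2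
      have key7 : ∀ x : ℤ, ¬ (p : ℤ) ∣ 6 * x + 7 := by
        intro x h
        apply h1
        have h2 : (p : ℤ) ∣ (6 * x + 7) - 6 * (x + 1) := dvd_sub h (Dvd.dvd.mul_right hp6' _)
        rwa [show (6 * x + 7) - 6 * (x + 1) = (1 : ℤ) by ring] at h2
      refine ⟨0, ?_⟩
      intro i
      fin_cases i
      · change ¬ (p : ℤ) ∣ 6 * ((0 : ℕ) : ℤ) + 5
        exact key5 _
      · change ¬ (p : ℤ) ∣ 6 * ((0 : ℕ) : ℤ) + 7
        exact key7 _
      · change ¬ (p : ℤ) ∣ (-6) * ((0 : ℕ) : ℤ) + (6 * K + 5)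
        rw [show (-6 : ℤ) * ((0 : ℕ) : ℤ) + (6 * K + 5) = 6 * K + 5 by push_cast; ring]
        exact key5 _
      · change ¬ (p : ℤ) ∣ (-6) * ((0 : ℕ) : ℤ) + (6 * K + 7)
        rw [show (-6 : ℤ) * ((0 : ℕ) : ℤ) + (6 * K + 7) = 6 * K + 7 by push_cast; ring]
        exact key7 _
    · -- at most four classes
      have hp6 : ¬ (p : ℤ) ∣ 6 := by
        intro h
        have h2 : p ∣ 6 := by exact_mod_cast h
        have h3 := Nat.le_of_dvd (by norm_num) h2
        interval_cases p
        · omega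
        · exact absurd hp (by norm_num)
      have hpi : Prime (p : ℤ) := Nat.prime_iff_prime_int.1 hp
      have huniq : ∀ i : Fin 4, ∀ x y : ℕ, x < 5 → y < 5 → (p : ℤ) ∣ da i * x + db K i →
          (p : ℤ) ∣ da i * y + db K i → x = y := by
        intro i x y hx hy h1 h2
        have h3 : (p : ℤ) ∣ da i * ((x : ℤ) - y) := by
          have := dvd_sub h1 h2
          rwa [show da i * x + db K i - (da i * y + db K i) = da i * ((x : ℤ) - y) by ring] at this
        have h4 : ¬ (p : ℤ) ∣ da i := by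
          fin_cases i
          · exact hp6
          · exact hp6
          · change ¬ (p : ℤ) ∣ -6
            rwa [dvd_neg]
          · change ¬ (p : ℤ) ∣ -6
            rwa [dvd_neg]
        rcases hpi.dvd_or_dvd h3 with h5' | h5'
        · exact absurd h5' h4
        · have h6 := Int.eq_zero_of_abs_lt_dvd h5' (by
            rw [abs_lt]
            constructor <;> [push_cast; push_cast] <;> omega)
          omega
      by_contra hcon
      push Not at hcon
      choose g hg using hcon
      obtain ⟨x, hx, y, hy, hxy, hgxy⟩ := Finset.exists_ne_map_eq_of_card_lt_of_maps_to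
        (s := Finset.range 5) (t := (Finset.univ : Finset (Fin 4))) (f := g)
        (by simp) (fun x _ => Finset.mem_coe.2 (Finset.mem_univ _))
      have h1 := hg x
      have h2 := hg y
      rw [← hgxy] at h2
      exact hxy (huniq (g x) x y (Finset.mem_range.1 hx) (Finset.mem_range.1 hy) h1 h2)
  · intro i j t ht htU
    have htK : (t : ℤ) < K := by
      have : (t : ℝ) < K := by linarith
      exact_mod_cast this
    have ht1 : (1 : ℤ) ≤ t := by exact_mod_cast ht
    fin_cases i <;> fin_cases j <;> (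
      change ¬ (_ = _ ∧ _ = _) ∧ ¬ (_ = _ ∧ _ = _)
      simp only [da, db]
      constructor <;> rintro ⟨h1, h2⟩ <;> simp at h1 h2 <;> omega)

end Pool.Agent.Y879.PR
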