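import Pool.Agent.Y879.PR.Palm
import Pool.Agent.W123.RU.Prime

set_option autoImplicit false

/-!
# Primes `a n + b` with `n` in a sifted set: the asymptotic formula
-/

namespace Pool.Agent.Y879.PR

open Finset Filter
open Pool.Agent.W123.RP Pool.Agent.H373R2.T7 Pool.Agent.W123.RU Pool.Agent.TH464.PO

/-- the conditions at the number `m = a n + b` -/
def QL (a b : ℕ) (Q : ℕ → ℕ → Prop) (p m : ℕ) : Prop :=
  (p ∣ a ∧ ¬ m ≡ b [MOD p]) ∨ (¬ p ∣ a ∧ ∃ x : ℕ, a * x + b ≡ m [MOD p] ∧ Q p x)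

lemma QL_iff (a b : ℕ) (Q : ℕ → ℕ → Prop) (hper : ∀ p n, Q p n ↔ Q p (n % p)) (p n : ℕ)
    (hp : p.Prime) : QL a b Q p (a * n + b) ↔ ¬ p ∣ a ∧ Q p n := by
  unfold QL
  constructor
  · rintro (⟨h1, h2⟩ | ⟨h1, x, h2, h3⟩)
    · exfalso
      apply h2
      have h4 : a * n ≡ 0 [MOD p] := (Nat.modEq_zero_iff_dvd).2 (Dvd.dvd.mul_right h1 n)
      have h5 := h4.add_right b
      rwa [zero_add] at h5
    · refine ⟨h1, ?_⟩
      have h4 : a * x ≡ a * n [MOD p] := Nat.ModEq.add_right_cancel' b h2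
      have h5 : x ≡ n [MOD p] :=
        Nat.ModEq.cancel_left_of_coprime ((Nat.Prime.coprime_iff_not_dvd hp).2 h1) h4
      rw [hper p n]
      rw [hper p x, h5] at h3
      exact h3
  · rintro ⟨h1, h2⟩
    exact Or.inr ⟨h1, n, rfl, h2⟩

lemma QL_per (a b : ℕ) (Q : ℕ → ℕ → Prop) (p m : ℕ) : QL a b Q p m ↔ QL a b Q p (m % p) := by
  have h : m % p ≡ m [MOD p] := Nat.mod_modEq m p
  unfold QL
  constructor
  · rintro (⟨h1, h2⟩ | ⟨h1, x, h2, h3⟩)
    · exact Or.inl ⟨h1, fun h4 => h2 (h.symm.trans h4)⟩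
    · exact Or.inr ⟨h1, x, h2.trans h.symm, h3⟩
  · rintro (⟨h1, h2⟩ | ⟨h1, x, h2, h3⟩)
    · exact Or.inl ⟨h1, fun h4 => h2 (h.trans h4)⟩
    · exact Or.inr ⟨h1, x, h2.trans h, h3⟩

lemma exists_root (a b p : ℕ) (hp : p.Prime) (hpa : ¬ p ∣ a) : ∃ x : ℕ, p ∣ a * x + b := by
  have : Fact p.Prime := ⟨hp⟩
  have ha : (a : ZMod p) ≠ 0 := by
    intro h
    exact hpa ((ZMod.natCast_eq_zero_iff a p).1 h)
  refine ⟨((a : ZMod p)⁻¹ * (-(b : ZMod p))).val, ?_⟩
  rw [← ZMod.natCast_eq_zero_iff]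
  push_cast
  rw [ZMod.natCast_val, ZMod.cast_id]
  rw [← mul_assoc, mul_inv_cancel₀ ha, one_mul]
  ring

open Classical in
lemma card_QL (a b : ℕ) (Q : ℕ → ℕ → Prop) (hper : ∀ p n, Q p n ↔ Q p (n % p)) (p : ℕ)
    (hp : p.Prime) (hpa : ¬ p ∣ a) :
    ((range p).filter (fun m => QL a b Q p m)).card = ((range p).filter (fun x => Q p x)).card := by
  symm
  apply Finset.card_bij (fun x _ => (a * x + b) % p)
  · intro x hx
    rw [mem_filter, mem_range] at hx
    rw [mem_filter, mem_range]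
    refine ⟨Nat.mod_lt _ hp.pos, ?_⟩
    rw [← QL_per, QL_iff a b Q hper p x hp]
    exact ⟨hpa, hx.2⟩
  · intro x hx x' hx' h
    rw [mem_filter, mem_range] at hx hx'
    have h2 : a * x + b ≡ a * x' + b [MOD p] := h
    have h4 : a * x ≡ a * x' [MOD p] := Nat.ModEq.add_right_cancel' b h2
    have h5 : x ≡ x' [MOD p] :=
      Nat.ModEq.cancel_left_of_coprime ((Nat.Prime.coprime_iff_not_dvd hp).2 hpa) h4
    unfold Nat.ModEq at h5
    rwa [Nat.mod_eq_of_lt hx.1, Nat.mod_eq_of_lt hx'.1] at h5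
  · intro m hm
    rw [mem_filter, mem_range] at hm
    rcases hm.2 with ⟨h1, _⟩ | ⟨_, x, h2, h3⟩
    · exact absurd h1 hpa
    · refine ⟨x % p, ?_, ?_⟩
      · rw [mem_filter, mem_range]
        exact ⟨Nat.mod_lt _ hp.pos, (hper p x).1 h3⟩
      · have h4 : a * (x % p) + b ≡ m [MOD p] :=
          (((Nat.mod_modEq x p).mul_left a).add_right b).trans h2
        unfold Nat.ModEq at h4
        rw [h4, Nat.mod_eq_of_lt hm.1]

open Classical in
lemma rhoA_not (a b : ℕ) (Q : ℕ → ℕ → Prop) (hper : ∀ p n, Q p n ↔ Q p (n % p)) (p : ℕ)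
    (hp : p.Prime) (hpa : ¬ p ∣ a) (hbase : ∀ n, p ∣ a * n + b → Q p n) :
    nuB Q p = rhoA (QL a b Q) p + 1 := by
  have h1 := card_QL a b Q hper p hp hpa
  have h0 : QL a b Q p 0 := by
    obtain ⟨x, hx⟩ := exists_root a b p hp hpa
    exact Or.inr ⟨hpa, x, (Nat.modEq_zero_iff_dvd).2 hx, hbase x hx⟩
  have h2 : (range p).filter (fun m => QL a b Q p m) =
      insert 0 ((range p).filter (fun m => ¬ p ∣ m ∧ QL a b Q p m)) := by
    ext m
    rw [mem_filter, mem_insert, mem_filter, mem_range]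
    constructor
    · rintro ⟨h3, h4⟩
      rcases Nat.eq_zero_or_pos m with h5 | h5
      · exact Or.inl h5
      · exact Or.inr ⟨h3, Nat.not_dvd_of_pos_of_lt h5 h3, h4⟩
    · rintro (h3 | ⟨h3, _, h4⟩)
      · subst h3
        exact ⟨hp.pos, h0⟩
      · exact ⟨h3, h4⟩
  rw [h2, card_insert_of_notMem (by
    rw [mem_filter]
    rintro ⟨_, h3, _⟩
    exact h3 (dvd_zero _))] at h1
  unfold nuB rhoA
  exact h1.symm

open Classical in
lemma rhoA_dvd (a b : ℕ) (Q : ℕ → ℕ → Prop) (p : ℕ) (hp : p.Prime) (hpa : p ∣ a) (hpb : ¬ p ∣ b) :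
    rhoA (QL a b Q) p + 2 = p := by
  have h1 : (range p).filter (fun m => ¬ p ∣ m ∧ QL a b Q p m) = (range p) \ {0, b % p} := by
    ext m
    rw [mem_filter, Finset.mem_sdiff, mem_insert, mem_singleton, mem_range]
    constructor
    · rintro ⟨h3, h4, h5⟩
      refine ⟨h3, ?_⟩
      rintro (h6 | h6)
      · exact h4 (h6 ▸ dvd_zero _)
      · rcases h5 with ⟨_, h7⟩ | ⟨h7, _⟩
        · apply h7
          rw [h6]
          exact Nat.mod_modEq b p
        · exact h7 hpa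
    · rintro ⟨h3, h4⟩
      rw [not_or] at h4
      refine ⟨h3, Nat.not_dvd_of_pos_of_lt (Nat.pos_of_ne_zero h4.1) h3, Or.inl ⟨hpa, ?_⟩⟩
      intro h5
      apply h4.2
      unfold Nat.ModEq at h5
      rwa [Nat.mod_eq_of_lt h3] at h5
  have hb0 : b % p ≠ 0 := fun h => hpb (Nat.dvd_of_mod_eq_zero h)
  have h2 : ((range p) \ {0, b % p}).card = p - 2 := by
    rw [card_sdiff_of_subset, card_range, card_pair (Ne.symm hb0)]
    intro m hm
    rw [mem_insert, mem_singleton] at hm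
    rw [mem_range]
    rcases hm with h | h
    · rw [h]; exact hp.pos
    · rw [h]; exact Nat.mod_lt _ hp.pos
  have h3 : rhoA (QL a b Q) p = p - 2 := by
    unfold rhoA
    rw [h1, h2]
  have := hp.two_le
  omega

/-- the hypotheses on the conditions -/
structure Base (a b c : ℕ) (Q : ℕ → ℕ → Prop) : Prop where
  per : PerB Q c
  non : ∀ p n : ℕ, p.Prime → p ∣ a → ¬ Q p n
  base : ∀ p n : ℕ, p.Prime → ¬ p ∣ a → p ∣ a * n + b → Q p n

lemma Base.nu0 {a b c : ℕ} {Q : ℕ → ℕ → Prop} (h : Base a b c Q) (p : ℕ) (hp : p.Prime)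
    (hpa : p ∣ a) : nuB Q p = 0 := by
  classical
  unfold nuB
  rw [Finset.card_eq_zero, Finset.filter_eq_empty_iff]
  intro n _
  exact h.non p n hp hpa

lemma Base.perA {a b c : ℕ} {Q : ℕ → ℕ → Prop} (h : Base a b c Q) (ha : 0 < a)
    (hab : Nat.Coprime a b) : PerA (QL a b Q) (c + a) := by
  refine ⟨fun p m => QL_per a b Q p m, ?_⟩
  intro p hp
  by_cases hpa : p ∣ a
  · have hpb : ¬ p ∣ b := fun h2 => by
      have h3 := Nat.dvd_gcd hpa h2
      rw [hab] at h3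
      exact hp.one_lt.ne' (Nat.dvd_one.1 h3)
    have h1 := rhoA_dvd a b Q p hp hpa hpb
    have h2 := Nat.le_of_dvd ha hpa
    omega
  · have h1 := rhoA_not a b Q h.per.per p hp hpa (fun n hn => h.base p n hp hpa hn)
    have h2 := h.per.few p hp
    omega

lemma Base.factor {a b c : ℕ} {Q : ℕ → ℕ → Prop} (h : Base a b c Q)
    (hab : Nat.Coprime a b) (p : ℕ) (hp : p.Prime) :
    (1 - (rhoA (QL a b Q) p : ℝ) / (p - 1 : ℝ)) * (1 - 1 / (p : ℝ)) * (if p ∣ a then (p : ℝ) else 1) =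
      1 - (nuB Q p : ℝ) / p := by
  have h1 : (1 : ℝ) < p := by exact_mod_cast hp.one_lt
  have h0 : (p : ℝ) ≠ 0 := by linarith
  have h2 : (p : ℝ) - 1 ≠ 0 := by linarith
  by_cases hpa : p ∣ a
  · have hpb : ¬ p ∣ b := fun h2 => by
      have h3 := Nat.dvd_gcd hpa h2
      rw [hab] at h3
      exact hp.one_lt.ne' (Nat.dvd_one.1 h3)
    have h3 := rhoA_dvd a b Q p hp hpa hpb
    have h4 : (rhoA (QL a b Q) p : ℝ) = p - 2 := by
      have : ((rhoA (QL a b Q) p + 2 : ℕ) : ℝ) = p := by rw [h3]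
      push_cast at this
      linarith
    rw [if_pos hpa, h4, h.nu0 p hp hpa]
    push_cast
    field_simp
    ring
  · have h3 := rhoA_not a b Q h.per.per p hp hpa (fun n hn => h.base p n hp hpa hn)
    rw [if_neg hpa, h3]
    push_cast
    field_simp
    ring

lemma prod_ite_dvd (a y : ℕ) (ha : Squarefree a) (hy : a ≤ y) :
    ∏ p ∈ pz y, (if p ∣ a then (p : ℝ) else 1) = a := by
  have ha0 : a ≠ 0 := ha.ne_zero
  have h1 : ∏ p ∈ pz y, (if p ∣ a then (p : ℝ) else 1) = ∏ p ∈ a.primeFactors, (p : ℝ) := by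
    rw [← Finset.prod_filter]
    apply Finset.prod_congr _ (fun _ _ => rfl)
    ext p
    rw [mem_filter, mem_pz, Nat.mem_primeFactors]
    constructor
    · rintro ⟨⟨_, h2⟩, h3⟩
      exact ⟨h2, h3, ha0⟩
    · rintro ⟨h2, h3, _⟩
      exact ⟨⟨(Nat.le_of_dvd (Nat.pos_of_ne_zero ha0) h3).trans hy, h2⟩, h3⟩
  rw [h1]
  have h2 := Nat.prod_primeFactors_of_squarefree ha
  have h3 : ((∏ p ∈ a.primeFactors, p : ℕ) : ℝ) = a := by rw [h2]
  push_cast at h3
  exact h3

lemma Vz_pos (y : ℕ) : 0 < Vz y := by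
  unfold Vz
  apply Finset.prod_pos
  intro p hp
  have h1 : (1 : ℝ) < p := by exact_mod_cast (mem_pz.1 hp).2.one_lt
  have h2 : 1 / (p : ℝ) < 1 := by rw [div_lt_one (by linarith)]; exact h1
  linarith

lemma Vz_le_one (y : ℕ) : Vz y ≤ 1 := by
  unfold Vz
  apply Finset.prod_le_one
  · intro p hp
    have h1 : (1 : ℝ) < p := by exact_mod_cast (mem_pz.1 hp).2.one_lt
    have h2 : 1 / (p : ℝ) < 1 := by rw [div_lt_one (by linarith)]; exact h1
    linarith
  · intro p hp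
    have : 0 ≤ 1 / (p : ℝ) := by positivity
    linarith

lemma Base.prod {a b c : ℕ} {Q : ℕ → ℕ → Prop} (h : Base a b c Q) (ha : Squarefree a)
    (hab : Nat.Coprime a b) (y : ℕ) (hy : a ≤ y) :
    (∏ p ∈ pz y, (1 - (rhoA (QL a b Q) p : ℝ) / (p - 1 : ℝ))) * a = Vq Q y / Vz y := by
  rw [eq_div_iff (Vz_pos y).ne', ← prod_ite_dvd a y ha hy]
  unfold Vz Vq
  rw [← Finset.prod_mul_distrib, ← Finset.prod_mul_distrib]
  apply Finset.prod_congr rfl
  intro p hp
  rw [← h.factor hab p (mem_pz.1 hp).2]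
  ring

open Classical in
/-- the primes -/
noncomputable def Om (a b : ℕ) (Q : ℕ → ℕ → Prop) (y u Y : ℕ) : Finset ℕ :=
  (Ioc u (u + Y)).filter (fun n => (a * n + b).Prime ∧ Sf Q y n)

open Classical in
lemma sum_diff {a b c : ℕ} {Q : ℕ → ℕ → Prop} (h : Base a b c Q) (ha : Squarefree a) (y u Y : ℕ)
    (hy : a ≤ y) (f : ℕ → ℝ) :
    ∑ m ∈ (Icc 1 (a * (u + Y) + b)).filter (fun m : ℕ => ∀ p ∈ pz y, ¬ QL a b Q p m), f m -
      ∑ m ∈ (Icc 1 (a * u + b)).filter (fun m : ℕ => ∀ p ∈ pz y, ¬ QL a b Q p m), f m =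
    ∑ n ∈ (Ioc u (u + Y)).filter (fun n => Sf Q y n), f (a * n + b) := by
  have ha0 : 0 < a := Nat.pos_of_ne_zero ha.ne_zero
  have h1 : (Icc 1 (a * (u + Y) + b)).filter (fun m : ℕ => ∀ p ∈ pz y, ¬ QL a b Q p m) =
      (Icc 1 (a * u + b)).filter (fun m : ℕ => ∀ p ∈ pz y, ¬ QL a b Q p m) ∪
      (Ioc (a * u + b) (a * (u + Y) + b)).filter (fun m : ℕ => ∀ p ∈ pz y, ¬ QL a b Q p m) := by
    rw [← Finset.filter_union]
    congr 1
    ext m
    rw [mem_union, mem_Icc, mem_Icc, mem_Ioc]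
    have : a * u ≤ a * (u + Y) := Nat.mul_le_mul_left a (by omega)
    omega
  rw [h1, Finset.sum_union]
  · rw [add_sub_cancel_left]
    symm
    apply Finset.sum_bij (fun n _ => a * n + b)
    · intro n hn
      rw [mem_filter, mem_Ioc] at hn
      rw [mem_filter, mem_Ioc]
      refine ⟨⟨?_, ?_⟩, ?_⟩
      · have := Nat.mul_lt_mul_of_pos_left hn.1.1 ha0
        omega
      · have := Nat.mul_le_mul_left a hn.1.2
        omega
      · intro p hp hq
        rw [QL_iff a b Q h.per.per p n (mem_pz.1 hp).2] at hq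
        exact hn.2 p hp hq.2
    · intro n _ n' _ hnn
      exact Nat.eq_of_mul_eq_mul_left ha0 (by omega)
    · intro m hm
      rw [mem_filter, mem_Ioc] at hm
      obtain ⟨⟨hm1, hm2⟩, hm3⟩ := hm
      have hbm : b ≤ m := by omega
      have hdvd : a ∣ m - b := by
        rw [← Nat.prod_primeFactors_of_squarefree ha]
        apply Finset.prod_primes_dvd
        · intro p hp
          exact (Nat.prime_of_mem_primeFactors hp).prime
        · intro p hp
          have hpp := Nat.prime_of_mem_primeFactors hp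
          have hpa := Nat.dvd_of_mem_primeFactors hp
          have hpy : p ∈ pz y := mem_pz.2 ⟨(Nat.le_of_dvd ha0 hpa).trans hy, hpp⟩
          have h2 := hm3 p hpy
          have h3 : m ≡ b [MOD p] := by
            by_contra hcon
            exact h2 (Or.inl ⟨hpa, hcon⟩)
          exact (Nat.modEq_iff_dvd' hbm).1 h3.symm
      obtain ⟨n, hn⟩ := hdvd
      have hmn : m = a * n + b := by omega
      refine ⟨n, ?_, hmn.symm⟩
      rw [mem_filter, mem_Ioc]
      refine ⟨⟨?_, ?_⟩, ?_⟩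
      · by_contra hcon
        push Not at hcon
        have := Nat.mul_le_mul_left a hcon
        omega
      · by_contra hcon
        push Not at hcon
        have := Nat.mul_lt_mul_of_pos_left hcon ha0
        omega
      · intro p hp hq
        have hpp := (mem_pz.1 hp).2
        by_cases hpa : p ∣ a
        · exact h.non p n hpp hpa hq
        · apply hm3 p hp
          rw [hmn, QL_iff a b Q h.per.per p n hpp]
          exact ⟨hpa, hq⟩
    · intro n _
      rfl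
  · rw [Finset.disjoint_left]
    intro m hm hm'
    rw [mem_filter, mem_Icc] at hm
    rw [mem_filter, mem_Ioc] at hm'
    omega

end Pool.Agent.Y879.PR
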