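import Pool.Agent.Y879.PR.Inst
import Pool.Agent.H381R2.HR.Main

set_option autoImplicit false

/-!
# Windows with the maximal number of almost primes
-/

namespace Pool.Agent.Y879.PR

open Finset Filter

/-- no prime `q` divides, for every `a`, some `a + s` with `s ∈ S` -/
def Adm (S : Finset ℕ) : Prop := ∀ q : ℕ, q.Prime → ∃ a : ℕ, ∀ s ∈ S, ¬ q ∣ a + s

open Classical in
/-- the largest number of elements of an admissible subset of `[0, y)` -/
noncomputable def Rh (y : ℕ) : ℕ := ((range y).powerset.filter Adm).sup Finset.card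

lemma adm_le {y : ℕ} {S : Finset ℕ} (hS : S ⊆ range y) (hA : Adm S) : S.card ≤ Rh y := by
  classical
  unfold Rh
  exact Finset.le_sup (f := Finset.card) (mem_filter.2 ⟨mem_powerset.2 hS, hA⟩)

lemma rh_low {α : ℝ} (hα : α < 1 / 2) : ∃ y0 : ℕ, ∀ y : ℕ, y0 ≤ y →
    (Nat.primeCounting y : ℝ) + α * (y * Real.log (Real.log (Real.log y)) / Real.log y ^ 2) ≤ Rh y := by
  classical
  obtain ⟨x0, h⟩ := Pool.Agent.H381R2.HR.final hα
  refine ⟨⌈x0⌉₊, ?_⟩
  intro y hy
  obtain ⟨S, h0, hS, hadm, hc⟩ := h (y : ℝ) ((Nat.le_ceil _).trans (by exact_mod_cast hy))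
  rw [Nat.floor_natCast] at hc
  refine hc.trans ?_
  have hinj : Set.InjOn Int.toNat (S : Set ℤ) := by
    intro a ha b hb hab
    have h1 := (hS a ha).1
    have h2 := (hS b hb).1
    have h3 := Int.toNat_of_nonneg h1
    have h4 := Int.toNat_of_nonneg h2
    omega
  have hcard : (S.image Int.toNat).card = S.card := Finset.card_image_of_injOn hinj
  rw [← hcard]
  have hle : (S.image Int.toNat).card ≤ Rh y := by
    apply adm_le
    · intro m hm
      obtain ⟨s, hs, rfl⟩ := mem_image.1 hm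
      obtain ⟨h1, h2⟩ := hS s hs
      have h3 : s < (y : ℤ) := by exact_mod_cast h2
      rw [mem_range]
      omega
    · intro q hq
      obtain ⟨r, hr⟩ := hadm q hq
      have hq0 : (0 : ℤ) < q := by exact_mod_cast hq.pos
      refine ⟨((-r) % (q : ℤ)).toNat, ?_⟩
      intro m hm hd
      obtain ⟨s, hs, rfl⟩ := mem_image.1 hm
      have h1 := (hS s hs).1
      apply hr s hs
      have h2 : ((((-r) % (q : ℤ)).toNat + s.toNat : ℕ) : ℤ) = (-r) % (q : ℤ) + s := by
        push_cast
        rw [Int.toNat_of_nonneg (Int.emod_nonneg _ hq0.ne'), Int.toNat_of_nonneg h1]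
      have h3 : (q : ℤ) ∣ (-r) % (q : ℤ) + s := by
        rw [← h2]
        exact_mod_cast hd
      have h4 : (q : ℤ) ∣ (-r) - (-r) % (q : ℤ) := Int.dvd_self_sub_emod
      have h5 := dvd_add h3 h4
      have h6 : (-r) % (q : ℤ) + s + (-r - (-r) % (q : ℤ)) = s - r := by ring
      rwa [h6] at h5
  exact_mod_cast hle

/-- few elements leave a free class -/
lemma free_class (q : ℕ) (S : Finset ℕ) (h : S.card < q) : ∃ a : ℕ, ∀ s ∈ S, ¬ q ∣ a + s := by
  classical
  by_contra hcon
  push Not at hcon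
  choose g hg hg2 using hcon
  obtain ⟨x, hx, y, hy, hxy, hgxy⟩ := Finset.exists_ne_map_eq_of_card_lt_of_maps_to
    (s := Finset.range q) (t := S) (f := g) (by simpa using h) (fun x _ => Finset.mem_coe.2 (hg x))
  have h1 := hg2 x
  have h2 := hg2 y
  rw [← hgxy] at h2
  apply hxy
  have h3 : x + g x ≡ y + g x [MOD q] :=
    ((Nat.modEq_zero_iff_dvd).2 h1).trans ((Nat.modEq_zero_iff_dvd).2 h2).symm
  exact Nat.ModEq.eq_of_lt_of_lt (Nat.ModEq.add_right_cancel' _ h3) (Finset.mem_range.1 hx)
    (Finset.mem_range.1 hy)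

open Classical in
/-- a window of `y` integers contains at most `Rh y` integers without prime factors `≤ z`, if `y ≤ z` -/
lemma win_le (y n : ℕ) (z : ℝ) (hz : (y : ℝ) ≤ z) :
    ((Ico n (n + y)).filter (fun m => ∀ p : ℕ, p.Prime → (p : ℝ) ≤ z → ¬ p ∣ m)).card ≤ Rh y := by
  obtain ⟨S, hS⟩ : ∃ S, S = (range y).filter (fun s => ∀ p : ℕ, p.Prime → (p : ℝ) ≤ z → ¬ p ∣ n + s) :=
    ⟨_, rfl⟩
  have e : ((Ico n (n + y)).filter (fun m => ∀ p : ℕ, p.Prime → (p : ℝ) ≤ z → ¬ p ∣ m)).card = S.card := by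
    rw [hS]
    symm
    refine Finset.card_bij (fun s _ => n + s) ?_ ?_ ?_
    · intro s hs
      obtain ⟨h1, h2⟩ := mem_filter.1 hs
      rw [mem_range] at h1
      exact mem_filter.2 ⟨mem_Ico.2 ⟨by omega, by omega⟩, h2⟩
    · intro a _ b _ hab
      omega
    · intro m hm
      obtain ⟨h1, h2⟩ := mem_filter.1 hm
      rw [mem_Ico] at h1
      refine ⟨m - n, mem_filter.2 ⟨mem_range.2 (by omega), ?_⟩, by omega⟩
      have : n + (m - n) = m := by omega
      rw [this]
      exact h2
  rw [e]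
  apply adm_le
  · rw [hS]
    exact filter_subset _ _
  · intro q hq
    by_cases hqz : (q : ℝ) ≤ z
    · refine ⟨n, fun s hs => ?_⟩
      rw [hS] at hs
      exact (mem_filter.1 hs).2 q hq hqz
    · rw [not_le] at hqz
      apply free_class
      have h1 : S.card ≤ y := by
        rw [hS]
        exact (card_filter_le _ _).trans (by simp)
      have h2 : (y : ℝ) < q := hz.trans_lt hqz
      have h3 : y < q := by exact_mod_cast h2
      omega

lemma dvd_pri {p y : ℕ} (hp : p.Prime) (h : p ≤ y) : p ∣ primorial y := by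
  unfold primorial
  exact dvd_prod_of_mem _ (by simp [hp]; omega)

lemma le_of_dvd_pri {p y : ℕ} (hp : p.Prime) (hd : p ∣ primorial y) : p ≤ y := by
  unfold primorial at hd
  obtain ⟨r, hr, hpr⟩ := (hp.prime.dvd_finsetProd_iff _).1 hd
  simp only [mem_filter, mem_range] at hr
  have := (Nat.prime_dvd_prime_iff_eq hp hr.2).1 hpr
  omega

lemma sq_pri (y : ℕ) : Squarefree (primorial y) := by
  unfold primorial
  refine Finset.squarefree_prod_of_pairwise_isCoprime ?_ ?_
  · intro a ha b hb hab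
    simp only [coe_filter, mem_range, Set.mem_ofPred_eq] at ha hb
    exact (Nat.coprime_iff_isRelPrime.1 ((Nat.coprime_primes ha.2 hb.2).2 hab))
  · intro p hp
    simp only [mem_filter, mem_range] at hp
    exact hp.2.prime.squarefree

lemma le_pri (y : ℕ) (hy : 3 ≤ y) : y ≤ primorial y := by
  obtain ⟨p, hp, h1, h2⟩ := Nat.exists_prime_lt_and_le_two_mul (y / 2) (by omega)
  have hpos : 0 < primorial y := primorial_pos y
  by_cases hp2 : p = 2
  · have h3 : 3 ∣ primorial y := dvd_pri Nat.prime_three hy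
    have := Nat.le_of_dvd hpos h3
    omega
  · have h3 : 2 * p ∣ primorial y :=
      Nat.Coprime.mul_dvd_of_dvd_of_dvd ((Nat.coprime_primes Nat.prime_two hp).2 (Ne.symm hp2))
        (dvd_pri Nat.prime_two (by omega)) (dvd_pri hp (by omega))
    have := Nat.le_of_dvd hpos h3
    omega

open Classical in
/-- the admissible classes -/
noncomputable def Cl {k : ℕ} (y : ℕ) (h : Fin k → ℕ) : Finset ℕ :=
  (range (primorial y)).filter (fun c => ∀ i, Nat.Coprime (primorial y) (c + h i))

lemma cl_ne {k y : ℕ} {h : Fin k → ℕ} (hadm : ∀ q : ℕ, q.Prime → ∃ a : ℕ, ∀ i, ¬ q ∣ a + h i) :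
    (Cl y h).Nonempty := by
  classical
  choose! a ha using hadm
  have hpos : 0 < primorial y := primorial_pos y
  obtain ⟨c, hc⟩ := Nat.chineseRemainderOfFinset a id ((range (y + 1)).filter Nat.Prime)
    (fun i hi => (mem_filter.1 hi).2.ne_zero)
    (by
      intro p hp q hq hpq
      exact (Nat.coprime_primes (mem_filter.1 hp).2 (mem_filter.1 hq).2).2 hpq)
  refine ⟨c % primorial y, mem_filter.2 ⟨mem_range.2 (Nat.mod_lt _ hpos), ?_⟩⟩
  intro i
  apply Nat.Coprime.symm
  apply Nat.coprime_of_dvd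
  intro p hp hpc hpM
  have hpy := le_of_dvd_pri hp hpM
  have h1 : c % primorial y ≡ c [MOD p] := (Nat.mod_modEq c _).of_dvd hpM
  have h2 : c ≡ a p [MOD p] := hc p (mem_filter.2 ⟨mem_range.2 (by omega), hp⟩)
  have h3 : c % primorial y + h i ≡ a p + h i [MOD p] := (h1.trans h2).add_right _
  exact ha p hp i ((Nat.modEq_zero_iff_dvd).1 (h3.symm.trans ((Nat.modEq_zero_iff_dvd).2 hpc)))

lemma pat_adm {k y : ℕ} {h : Fin k → ℕ} (hk : 2 ≤ k) (hy3 : 3 ≤ y) (hinj : Function.Injective h)
    (hy : ∀ i, h i < y) (h0 : ∃ i, h i = 0) : Pat2 (primorial y) h (Cl y h) := by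
  classical
  have hpos : 0 < primorial y := primorial_pos y
  have hky : k ≤ y := by
    have h1 := Finset.card_le_card_of_injOn (s := (univ : Finset (Fin k))) (t := range y) h
      (fun i _ => Finset.mem_coe.2 (mem_range.2 (hy i))) hinj.injOn
    simpa using h1
  have hcop : ∀ c ∈ Cl y h, ∀ i, Nat.Coprime (primorial y) (c + h i) := fun c hc => (mem_filter.1 hc).2
  refine ⟨?_, ?_, ?_, ?_, ?_, h0, hpos⟩
  · intro c hc
    refine ⟨sq_pri y, hcop c hc, ?_, ?_, ?_, by omega⟩
    · intro p hp hpk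
      exact dvd_pri hp (hpk.trans hky)
    · intro i j hij
      apply hinj
      have : c + h i = c + h j := hij
      omega
    · intro i j
      have h1 := hy i
      have h2 := le_pri y hy3
      change c + h i < c + h j + primorial y
      omega
  · intro c hc
    by_contra hcon
    have h2y : 2 ∣ primorial y := dvd_pri Nat.prime_two (by omega)
    obtain ⟨i0, hi0⟩ := h0
    have hc0 : c ≠ 0 := by
      intro hc0
      have h1 := hcop c hc i0
      rw [hi0, hc0] at h1
      rw [Nat.coprime_zero_right] at h1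
      rw [h1] at h2y
      omega
    have hc1 : c = 1 := by omega
    -- an element different from 0
    obtain ⟨j, hj⟩ : ∃ j, j ≠ i0 := by
      haveI : Nontrivial (Fin k) := Fin.nontrivial_iff_two_le.2 hk
      exact exists_ne i0
    have hhj : h j ≠ 0 := fun he => hj (hinj (he.trans hi0.symm))
    have h1 := hcop c hc j
    rw [hc1] at h1
    obtain ⟨p, hp, hpd⟩ := Nat.exists_prime_and_dvd (n := 1 + h j) (by omega)
    have h3 : p ≤ y := (Nat.le_of_dvd (by omega) hpd).trans (by have := hy j; omega)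
    have h4 := Nat.dvd_gcd (dvd_pri hp h3) hpd
    rw [h1] at h4
    exact hp.one_lt.ne' (Nat.dvd_one.1 h4)
  · intro c hc
    exact mem_range.1 (mem_filter.1 hc).1
  · intro m hm
    refine mem_filter.2 ⟨mem_range.2 (Nat.mod_lt _ hpos), ?_⟩
    intro i
    apply Nat.Coprime.symm
    apply Nat.coprime_of_dvd
    intro p hp hpc hpM
    have h1 : m % primorial y ≡ m [MOD p] := (Nat.mod_modEq m _).of_dvd hpM
    exact hm p hp hpM i ((Nat.modEq_zero_iff_dvd).1 ((h1.add_right (h i)).symm.trans
      ((Nat.modEq_zero_iff_dvd).2 hpc)))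
  · intro p hp hpM i j hij hd
    have hpy : y < p := by
      by_contra hcon
      exact hpM (dvd_pri hp (by omega))
    have h1 := hy i
    have h2 := hy j
    have h3 : (h i : ℤ) - h j ≠ 0 := by
      intro h4
      exact hij (hinj (by omega))
    have h4 := Int.le_of_dvd (abs_pos.2 h3) ((dvd_abs _ _).2 hd)
    have h5 : |(h i : ℤ) - h j| < y := by
      rw [abs_lt]
      omega
    omega

end Pool.Agent.Y879.PR
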