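import Pool.Agent.Y879.PR.Fund

set_option autoImplicit false

/-!
# The number of primes `a n + b` with `n` in a sifted set
-/

namespace Pool.Agent.Y879.PR

open Finset Filter
open Pool.Agent.W123.RP Pool.Agent.H373R2.T7 Pool.Agent.W123.RU Pool.Agent.TH464.PO

lemma ev_sqrt (M : ℝ) (U : ℕ) : ∀ᶠ X : ℕ in atTop,
    M * √(X : ℝ) * Real.log X ^ (U + 1) ≤ X := by
  have h := ((isLittleO_log_rpow_rpow_atTop ((U + 1 : ℕ) : ℝ) (by norm_num : (0 : ℝ) < 1 / 2)).comp_tendsto
    tendsto_natCast_atTop_atTop).bound (show (0 : ℝ) < 1 / (|M| + 1) by positivity)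
  filter_upwards [h, eventually_ge_atTop 1] with X h2 hX1
  have hX1' : (1 : ℝ) ≤ X := by exact_mod_cast hX1
  have hlog : 0 ≤ Real.log (X : ℝ) := Real.log_nonneg hX1'
  simp only [Function.comp_def] at h2
  rw [Real.norm_of_nonneg (by positivity), Real.norm_of_nonneg (by positivity),
    Real.rpow_natCast, ← Real.sqrt_eq_rpow] at h2
  have hs : 0 ≤ √(X : ℝ) := Real.sqrt_nonneg _
  have hM : M ≤ |M| + 1 := by linarith [le_abs_self M]
  have hM0 : 0 < |M| + 1 := by positivity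
  calc M * √(X : ℝ) * Real.log X ^ (U + 1) ≤ (|M| + 1) * √(X : ℝ) * Real.log X ^ (U + 1) := by gcongr
    _ ≤ (|M| + 1) * √(X : ℝ) * (1 / (|M| + 1) * √(X : ℝ)) := by gcongr
    _ = √(X : ℝ) * √(X : ℝ) := by field_simp
    _ = X := Real.mul_self_sqrt (by linarith)

/-- from the sums with logarithms to the numbers -/
lemma log_to_card (Om : Finset ℕ) (g : ℕ → ℝ) (l C ε : ℝ) (hC : 0 ≤ C) (hε : 0 < ε) (hε1 : ε ≤ 1)
    (hl : 2 * C + 1 ≤ ε * l) (h : ∀ n ∈ Om, l - C ≤ g n ∧ g n ≤ l + C) :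
    |(Om.card : ℝ) * l - ∑ n ∈ Om, g n| ≤ ε * ∑ n ∈ Om, g n := by
  have hl0 : 0 < l := by
    by_contra hcon
    push Not at hcon
    nlinarith
  have hl1 : 2 * C ≤ l := by nlinarith
  have h1 : (Om.card : ℝ) * (l - C) ≤ ∑ n ∈ Om, g n := by
    rw [← nsmul_eq_mul]
    exact Finset.card_nsmul_le_sum _ _ _ (fun n hn => (h n hn).1)
  have h2 : ∑ n ∈ Om, g n ≤ (Om.card : ℝ) * (l + C) := by
    rw [← nsmul_eq_mul]
    exact Finset.sum_le_card_nsmul _ _ _ (fun n hn => (h n hn).2)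
  have hc : (0 : ℝ) ≤ Om.card := Nat.cast_nonneg _
  have h3 : (Om.card : ℝ) * C ≤ ε * ∑ n ∈ Om, g n := by
    have h4 : ε * ((Om.card : ℝ) * (l - C)) ≤ ε * ∑ n ∈ Om, g n := mul_le_mul_of_nonneg_left h1 hε.le
    refine le_trans ?_ h4
    have h5 : C ≤ ε * (l - C) := by nlinarith
    calc (Om.card : ℝ) * C ≤ Om.card * (ε * (l - C)) := mul_le_mul_of_nonneg_left h5 hc
      _ = _ := by ring
  rw [abs_le]
  constructor
  · nlinarith
  · nlinarith

open Classical in
/-- **The asymptotic formula.** -/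
theorem prime_count (a c : ℕ) (ha : Squarefree a) (ε δ : ℝ) (hε : 0 < ε) (hε1 : ε ≤ 1)
    (hδ : 0 < δ) (hδ1 : δ ≤ 1) :
    ∃ K : ℕ, 1 ≤ K ∧ ∀ U : ℕ, ∃ x0 : ℕ, ∀ X y : ℕ, x0 ≤ y → y ^ K ≤ X → ∀ b : ℕ, b ≤ X →
      Nat.Coprime a b → ∀ Q : ℕ → ℕ → Prop, Base a b c Q → ∀ u Y : ℕ, δ * X ≤ u → δ * X ≤ Y →
      u + Y ≤ X →
      |((Om a b Q y u Y).card : ℝ) * Real.log X - Y * (Vq Q y / Vz y)| ≤
        ε * (Y * (Vq Q y / Vz y)) + X / Real.log X ^ U := by
  have ha0 : 0 < a := Nat.pos_of_ne_zero ha.ne_zero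
  have har : (1 : ℝ) ≤ a := by exact_mod_cast ha0
  obtain ⟨ε1, hε1def⟩ : ∃ ε1 : ℝ, ε1 = ε * δ / 16 := ⟨_, rfl⟩
  have hε10 : 0 < ε1 := by rw [hε1def]; positivity
  obtain ⟨K, hK, hfund⟩ := lam_fund (c + a) (by omega) ε1 hε10
  refine ⟨K, hK, ?_⟩
  intro U
  obtain ⟨x1, hx1⟩ := hfund (U + 1)
  obtain ⟨C, hC⟩ : ∃ C : ℝ, C = max (-Real.log δ) (Real.log (a + 1)) := ⟨_, rfl⟩
  have hC1 : -Real.log δ ≤ C := by rw [hC]; exact le_max_left _ _
  have hC2 : Real.log (a + 1) ≤ C := by rw [hC]; exact le_max_right _ _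
  have hC0 : 0 ≤ C := (Real.log_nonneg (by linarith)).trans hC2
  have hlogX : Tendsto (fun X : ℕ => Real.log (X : ℝ)) atTop atTop :=
    Real.tendsto_log_atTop.comp tendsto_natCast_atTop_atTop
  have hev := (((ev_sqrt (32 * (a + 1)) U).and (hlogX.eventually_ge_atTop ((2 * C + 1) / (ε / 8)))).and
    (hlogX.eventually_ge_atTop (8 * (a + 1)))).and (hlogX.eventually_ge_atTop (Real.log (a + 1)))
  obtain ⟨X1, hX1⟩ := eventually_atTop.1 hev
  refine ⟨max x1 (max X1 (a + 3)), ?_⟩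
  intro X y hy hyX b hbX hab Q hQ u Y hu hY huY
  have hyx1 : x1 ≤ y := (le_max_left _ _).trans hy
  have hyX1 : X1 ≤ y := ((le_max_left _ _).trans (le_max_right _ _)).trans hy
  have hya : a + 3 ≤ y := ((le_max_right _ _).trans (le_max_right _ _)).trans hy
  have hyX' : y ≤ X := (Nat.le_self_pow (by omega) y).trans hyX
  obtain ⟨⟨⟨e1, e2⟩, e3⟩, e4⟩ := hX1 X (hyX1.trans hyX')
  have hX3 : (3 : ℝ) ≤ X := by exact_mod_cast (by omega : 3 ≤ X)
  have hX0 : (0 : ℝ) < X := by linarith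
  have hl0 : 0 < Real.log X := Real.log_pos (by linarith)
  obtain ⟨l, hl⟩ : ∃ l, l = Real.log X := ⟨_, rfl⟩
  rw [← hl] at e1 e2 e3 e4 hl0 ⊢
  obtain ⟨x, hx⟩ : ∃ x : ℕ, x = (a + 1) * X := ⟨_, rfl⟩
  have hXx : X ≤ x := by rw [hx]; nlinarith
  have hxr : (x : ℝ) = (a + 1) * X := by rw [hx]; push_cast; ring
  have hlx : l ≤ Real.log x := by
    rw [hl]
    exact Real.log_le_log hX0 (by exact_mod_cast hXx)
  have hlxe : Real.log x = Real.log (a + 1) + l := by
    rw [hxr, Real.log_mul (by positivity) hX0.ne', hl]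
  have hyKx : y ^ K ≤ x := hyX.trans hXx
  obtain ⟨P, hP⟩ : ∃ P, P = ∏ p ∈ pz y, (1 - (rhoA (QL a b Q) p : ℝ) / (p - 1 : ℝ)) := ⟨_, rfl⟩
  have hPa := hQ.prod ha hab y (by omega)
  rw [← hP] at hPa
  have hVz := Vz_pos y
  have hV0 : 0 ≤ Vq Q y / Vz y := div_nonneg (Vq_nonneg Q y) hVz.le
  obtain ⟨W, hW⟩ : ∃ W, W = Vq Q y / Vz y := ⟨_, rfl⟩
  rw [← hW] at hPa hV0 ⊢
  have hP0 : 0 ≤ P := by
    by_contra hcon
    push Not at hcon
    nlinarith
  have hM2x : a * (u + Y) + b ≤ x := by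
    rw [hx]
    have : a * (u + Y) ≤ a * X := Nat.mul_le_mul_left a huY
    have h2 : (a + 1) * X = a * X + X := by ring
    omega
  have hM1x : a * u + b ≤ x := by
    refine le_trans ?_ hM2x
    have : a * u ≤ a * (u + Y) := Nat.mul_le_mul_left a (by omega)
    omega
  have hA := hQ.perA ha0 hab
  have f2 := hx1 x y hyx1 hyKx (QL a b Q) hA (a * (u + Y) + b) hM2x
  have f1 := hx1 x y hyx1 hyKx (QL a b Q) hA (a * u + b) hM1x
  rw [← hP] at f1 f2
  have hsd := sum_diff hQ ha y u Y (by omega) (fun n => ArithmeticFunction.vonMangoldt n)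
  obtain ⟨S, hS⟩ : ∃ S, S = ∑ n ∈ (Ioc u (u + Y)).filter (fun n => Sf Q y n),
    ArithmeticFunction.vonMangoldt (a * n + b) := ⟨_, rfl⟩
  rw [← hS] at hsd
  -- error terms
  have hE : (x : ℝ) / Real.log x ^ (U + 1) ≤ X / l ^ U / 8 := by
    calc (x : ℝ) / Real.log x ^ (U + 1) ≤ x / l ^ (U + 1) := by
          gcongr
      _ = (a + 1) * X / l ^ (U + 1) := by rw [hxr]
      _ ≤ X / l ^ U / 8 := by
          rw [pow_succ, div_div, div_le_div_iff₀ (by positivity) (by positivity)]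
          have : (X : ℝ) * l ^ U * (8 * (a + 1)) ≤ X * l ^ U * l := by gcongr
          calc ((a : ℝ) + 1) * X * (l ^ U * 8) = X * l ^ U * (8 * (a + 1)) := by ring
            _ ≤ X * l ^ U * l := this
            _ = _ := by ring
  have hxP : ε1 * (x * P) ≤ ε / 8 * (Y * W) := by
    have h1 : (x : ℝ) * P ≤ 2 * (X * W) := by
      rw [hxr, ← hPa]
      have : ((a : ℝ) + 1) * X * P ≤ (a + a) * X * P := by gcongr
      calc ((a : ℝ) + 1) * X * P ≤ (a + a) * X * P := this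
        _ = _ := by ring
    calc ε1 * (x * P) ≤ ε1 * (2 * (X * W)) := mul_le_mul_of_nonneg_left h1 hε10.le
      _ = ε / 8 * (δ * X * W) := by rw [hε1def]; ring
      _ ≤ ε / 8 * (Y * W) := by
        apply mul_le_mul_of_nonneg_left _ (by positivity)
        exact mul_le_mul_of_nonneg_right hY hV0
  have hSmain : |S - Y * W| ≤ ε / 4 * (Y * W) + X / l ^ U / 4 := by
    have g2 : ((a * (u + Y) + b : ℕ) : ℝ) * P ≤ x * P :=
      mul_le_mul_of_nonneg_right (by exact_mod_cast hM2x) hP0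
    have g1 : ((a * u + b : ℕ) : ℝ) * P ≤ x * P :=
      mul_le_mul_of_nonneg_right (by exact_mod_cast hM1x) hP0
    have g3 : ((a * (u + Y) + b : ℕ) : ℝ) * P - ((a * u + b : ℕ) : ℝ) * P = Y * W := by
      rw [← hPa]
      push_cast
      ring
    have g2' := mul_le_mul_of_nonneg_left g2 hε10.le
    have g1' := mul_le_mul_of_nonneg_left g1 hε10.le
    have f2a := abs_le.1 f2
    have f1a := abs_le.1 f1
    rw [abs_le]
    constructor <;> linarith [f2a.1, f2a.2, f1a.1, f1a.2]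
  -- primes
  obtain ⟨Sp, hSp⟩ : ∃ Sp, Sp = ∑ n ∈ Om a b Q y u Y, Real.log ((a * n + b : ℕ) : ℝ) := ⟨_, rfl⟩
  have hsplit : S = Sp + ∑ n ∈ (Ioc u (u + Y)).filter (fun n => Sf Q y n ∧ ¬ (a * n + b).Prime),
      ArithmeticFunction.vonMangoldt (a * n + b) := by
    have h1 : (Ioc u (u + Y)).filter (fun n => Sf Q y n) = Om a b Q y u Y ∪
        (Ioc u (u + Y)).filter (fun n => Sf Q y n ∧ ¬ (a * n + b).Prime) := by
      ext n
      unfold Om
      rw [mem_union, mem_filter, mem_filter, mem_filter]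
      by_cases hn : (a * n + b).Prime <;> tauto
    rw [hS, h1, Finset.sum_union]
    · congr 1
      rw [hSp]
      apply Finset.sum_congr rfl
      intro n hn
      unfold Om at hn
      rw [mem_filter] at hn
      rw [ArithmeticFunction.vonMangoldt_apply_prime hn.2.1]
    · rw [Finset.disjoint_left]
      intro n hn hn'
      unfold Om at hn
      rw [mem_filter] at hn hn'
      exact hn'.2.2 hn.2.1
  have hnp : ∑ n ∈ (Ioc u (u + Y)).filter (fun n => Sf Q y n ∧ ¬ (a * n + b).Prime),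
      ArithmeticFunction.vonMangoldt (a * n + b) ≤ X / l ^ U / 4 := by
    have h1 : ∑ n ∈ (Ioc u (u + Y)).filter (fun n => Sf Q y n ∧ ¬ (a * n + b).Prime),
        ArithmeticFunction.vonMangoldt (a * n + b) ≤
        ∑ m ∈ (Ioc 0 x).filter (fun m => ¬ m.Prime), ArithmeticFunction.vonMangoldt m := by
      have h2 : ∑ n ∈ (Ioc u (u + Y)).filter (fun n => Sf Q y n ∧ ¬ (a * n + b).Prime),
          ArithmeticFunction.vonMangoldt (a * n + b) =
          ∑ m ∈ ((Ioc u (u + Y)).filter (fun n => Sf Q y n ∧ ¬ (a * n + b).Prime)).image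
            (fun n => a * n + b), ArithmeticFunction.vonMangoldt m := by
        rw [Finset.sum_image]
        intro n _ n' _ hnn
        exact Nat.eq_of_mul_eq_mul_left ha0 (by
          have h3 : a * n + b = a * n' + b := hnn
          omega)
      rw [h2]
      apply Finset.sum_le_sum_of_subset_of_nonneg
      · intro m hm
        obtain ⟨n, hn, rfl⟩ := Finset.mem_image.1 hm
        rw [mem_filter, mem_Ioc] at hn
        rw [mem_filter, mem_Ioc]
        refine ⟨⟨?_, ?_⟩, hn.2.2⟩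
        · have := Nat.mul_pos ha0 (by omega : 0 < n)
          omega
        · have := Nat.mul_le_mul_left a hn.1.2
          omega
      · intro m _ _
        exact ArithmeticFunction.vonMangoldt_nonneg
    have h2 := Chebyshev.psi_sub_theta_eq_sum_not_prime (x : ℝ)
    have h3 := Chebyshev.psi_sub_theta_le (x := (x : ℝ)) (by exact_mod_cast (by omega : 1 ≤ x))
    rw [h2, Nat.floor_natCast] at h3
    refine (h1.trans h3).trans ?_
    have hs : √(x : ℝ) ≤ (a + 1) * √(X : ℝ) := by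
      rw [hxr]
      calc √((a + 1) * (X : ℝ)) ≤ √((a + 1) ^ 2 * (X : ℝ)) := by
            apply Real.sqrt_le_sqrt
            apply mul_le_mul_of_nonneg_right _ hX0.le
            nlinarith
        _ = (a + 1) * √(X : ℝ) := by
            rw [Real.sqrt_mul (by positivity), Real.sqrt_sq (by positivity)]
    have hlx2 : Real.log x ≤ 2 * l := by linarith
    rw [div_div, le_div_iff₀ (by positivity)]
    calc 2 * √(x : ℝ) * Real.log x * (l ^ U * 4) ≤ 2 * ((a + 1) * √(X : ℝ)) * (2 * l) * (l ^ U * 4) := by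
          have := Real.sqrt_nonneg (X : ℝ)
          have hlx0 : 0 ≤ Real.log x := hl0.le.trans hlx
          gcongr
      _ = 16 * (a + 1) * √(X : ℝ) * l ^ (U + 1) := by rw [pow_succ]; ring
      _ ≤ 32 * (a + 1) * √(X : ℝ) * l ^ (U + 1) := by
          have := Real.sqrt_nonneg (X : ℝ)
          gcongr
          norm_num
      _ ≤ X := e1
  have hnp0 : 0 ≤ ∑ n ∈ (Ioc u (u + Y)).filter (fun n => Sf Q y n ∧ ¬ (a * n + b).Prime),
      ArithmeticFunction.vonMangoldt (a * n + b) :=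
    Finset.sum_nonneg fun _ _ => ArithmeticFunction.vonMangoldt_nonneg
  -- from logarithms to numbers
  have hcard := log_to_card (Om a b Q y u Y) (fun n => Real.log ((a * n + b : ℕ) : ℝ)) l C (ε / 8) hC0
    (by positivity) (by linarith) (by
      rw [div_le_iff₀ (by positivity)] at e2
      linarith) (by
      intro n hn
      unfold Om at hn
      rw [mem_filter, mem_Ioc] at hn
      have hnu : (u : ℝ) ≤ n := by exact_mod_cast hn.1.1.le
      have h1 : δ * X ≤ ((a * n + b : ℕ) : ℝ) := by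
        push_cast
        have hn0 : (0 : ℝ) ≤ n := Nat.cast_nonneg n
        have hb0 : (0 : ℝ) ≤ b := Nat.cast_nonneg b
        nlinarith
      have h2 : ((a * n + b : ℕ) : ℝ) ≤ x := by
        have := Nat.mul_le_mul_left a hn.1.2
        exact_mod_cast (by omega : a * n + b ≤ x)
      have h3 := Real.log_le_log (by positivity) h1
      have h4 := Real.log_le_log (lt_of_lt_of_le (by positivity) h1) h2
      rw [Real.log_mul hδ.ne' hX0.ne', ← hl] at h3
      rw [hlxe] at h4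
      constructor <;> linarith)
  rw [← hSp] at hcard
  have hYW : 0 ≤ (Y : ℝ) * W := mul_nonneg (Nat.cast_nonneg _) hV0
  have hXU : 0 ≤ (X : ℝ) / l ^ U := by positivity
  have hSa := abs_le.1 hSmain
  have hSp0 : Sp ≤ 2 * (Y * W) + X / l ^ U := by nlinarith
  have hca := abs_le.1 hcard
  have h5 : ε / 8 * Sp ≤ ε / 4 * (Y * W) + X / l ^ U / 8 := by
    have h6 := mul_le_mul_of_nonneg_left hSp0 (show 0 ≤ ε / 8 by positivity)
    have h7 : ε / 8 * (X / l ^ U) ≤ X / l ^ U / 8 := by nlinarith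
    nlinarith
  rw [abs_le]
  have hεYW : 0 ≤ ε * (Y * W) := mul_nonneg hε.le hYW
  constructor
  · linarith
  · linarith

end Pool.Agent.Y879.PR
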