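import Pool.Agent.Y879.PR.Unif
import Pool.Agent.Y879.GL.Assoc

set_option autoImplicit false

/-!
# The law after primes in windows starting anywhere
-/

namespace Pool.Agent.Y879.PR

open Polynomial Finset Filter
open Pool.Agent.W123.RP Pool.Agent.H373R2.T7 Pool.Agent.W123.RU Pool.Agent.W123.RU.Poly
open Pool.Agent.TH464.PW Pool.Agent.TH464.PO Pool.Agent.Y879.GL

open Classical in
lemma om_split (a b : ℕ) (Q : ℕ → ℕ → Prop) (y u w Y : ℕ) :
    Om a b Q y u (w + Y) = Om a b Q y u w ∪ Om a b Q y (u + w) Y ∧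
      Disjoint (Om a b Q y u w) (Om a b Q y (u + w) Y) := by
  constructor
  · ext n
    simp only [Om, Finset.mem_union, Finset.mem_filter, Finset.mem_Ioc]
    constructor
    · rintro ⟨⟨h1, h2⟩, h3⟩
      by_cases h : n ≤ u + w
      · exact Or.inl ⟨⟨h1, h⟩, h3⟩
      · exact Or.inr ⟨⟨by omega, by omega⟩, h3⟩
    · rintro (⟨⟨h1, h2⟩, h3⟩ | ⟨⟨h1, h2⟩, h3⟩)
      · exact ⟨⟨h1, by omega⟩, h3⟩
      · exact ⟨⟨by omega, by omega⟩, h3⟩
  · rw [Finset.disjoint_left]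
    intro n h1 h2
    simp only [Om, Finset.mem_filter, Finset.mem_Ioc] at h1 h2
    omega

lemma om_card_split (a b : ℕ) (Q : ℕ → ℕ → Prop) (y u w Y : ℕ) :
    (Om a b Q y u (w + Y)).card = (Om a b Q y u w).card + (Om a b Q y (u + w) Y).card := by
  classical
  obtain ⟨h1, h2⟩ := om_split a b Q y u w Y
  rw [h1, Finset.card_union_of_disjoint h2]

lemma om_card_le (a b : ℕ) (Q : ℕ → ℕ → Prop) (y u Y : ℕ) : (Om a b Q y u Y).card ≤ Y := by
  classical
  unfold Om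
  refine (Finset.card_filter_le _ _).trans ?_
  rw [Nat.card_Ioc]
  omega

/-- dyadic induction -/
lemma dyadic (g : ℕ → ℝ) (z G A : ℝ) (M : ℕ) (hA : 0 ≤ A) (hz : 0 ≤ z)
    (hg : ∀ m : ℕ, (m : ℝ) ≤ z → g m ≤ G)
    (hs : ∀ m : ℕ, z < m → m ≤ M → g m ≤ g (m / 2) + A * m) (m : ℕ) (hm : m ≤ M) :
    g m ≤ G + 2 * A * m := by
  induction m using Nat.strong_induction_on with
  | _ m ih =>
    have hm0 : (0 : ℝ) ≤ m := Nat.cast_nonneg _
    by_cases h : (m : ℝ) ≤ z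
    · have := hg m h
      have h2 : 0 ≤ 2 * A * m := by positivity
      linarith
    · rw [not_le] at h
      have hmpos : 0 < m := by
        have : (0 : ℝ) < m := lt_of_le_of_lt hz h
        exact_mod_cast this
      have h1 := hs m h hm
      have h2 := ih (m / 2) (Nat.div_lt_self hmpos (by norm_num)) ((Nat.div_le_self _ _).trans hm)
      have h3 : ((m / 2 : ℕ) : ℝ) ≤ m / 2 := Nat.cast_div_le
      have h4 : 2 * A * ((m / 2 : ℕ) : ℝ) ≤ 2 * A * (m / 2) := mul_le_mul_of_nonneg_left h3 (by positivity)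
      linarith

lemma poi_le_one (x : ℝ) (hx : 0 ≤ x) (B : Finset ℕ) :
    0 ≤ ∑ j ∈ B, Real.exp (-x) * x ^ j / j.factorial ∧
      ∑ j ∈ B, Real.exp (-x) * x ^ j / j.factorial ≤ 1 := by
  constructor
  · exact Finset.sum_nonneg fun j _ => by positivity
  · have h1 : ∑ j ∈ B, x ^ j / (j.factorial : ℝ) ≤ Real.exp x := by
      have hs : HasSum (fun n : ℕ => x ^ n / (n.factorial : ℝ)) (Real.exp x) := by
        rw [Real.exp_eq_exp_ℝ]
        exact NormedSpace.expSeries_div_hasSum_exp x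
      exact sum_le_hasSum B (fun j _ => by positivity) hs
    have h2 : ∑ j ∈ B, Real.exp (-x) * x ^ j / j.factorial =
        Real.exp (-x) * ∑ j ∈ B, x ^ j / (j.factorial : ℝ) := by
      rw [Finset.mul_sum]
      apply Finset.sum_congr rfl
      intro j _
      ring
    rw [h2]
    calc Real.exp (-x) * ∑ j ∈ B, x ^ j / (j.factorial : ℝ) ≤ Real.exp (-x) * Real.exp x :=
          mul_le_mul_of_nonneg_left h1 (Real.exp_pos _).le
      _ = 1 := by rw [← Real.exp_add, neg_add_cancel, Real.exp_zero]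

lemma ev_small (c : ℕ) (v κ θ : ℝ) (hv : 0 < v) (hκ : 0 < κ) (hθ : 0 < θ) : ∀ᶠ X : ℕ in atTop,
    (X : ℝ) ^ (1 / 4 : ℝ) * Real.log X * (Real.log X / θ) ^ c ≤ κ * v * X := by
  have h1 : ∀ᶠ X : ℝ in atTop, Real.log X ^ ((c : ℝ) + 1) ≤ X ^ (1 / 2 : ℝ) := by
    have := isLittleO_log_rpow_rpow_atTop ((c : ℝ) + 1) (show (0 : ℝ) < 1 / 2 by norm_num)
    have h2 := this.def one_pos
    filter_upwards [h2, eventually_ge_atTop 1] with X hX hX1
    rw [one_mul, Real.norm_of_nonneg (by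
      apply Real.rpow_nonneg
      exact Real.log_nonneg hX1), Real.norm_of_nonneg (by positivity)] at hX
    exact hX
  have h3 : ∀ᶠ X : ℝ in atTop, (1 / θ) ^ c / (κ * v) ≤ X ^ (1 / 4 : ℝ) :=
    (tendsto_rpow_atTop (by norm_num)).eventually_ge_atTop _
  have h4 := (h1.and (h3.and (eventually_ge_atTop 1)))
  filter_upwards [tendsto_natCast_atTop_atTop.eventually h4] with X hX
  obtain ⟨a1, a2, a3⟩ := hX
  have hX0 : (0 : ℝ) < X := by linarith
  have hl : 0 ≤ Real.log X := Real.log_nonneg a3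
  have e1 : Real.log X ^ ((c : ℝ) + 1) = Real.log X ^ (c + 1) := by
    rw [← Real.rpow_natCast]
    push_cast
    rfl
  rw [e1] at a1
  rw [div_le_iff₀ (by positivity)] at a2
  calc (X : ℝ) ^ (1 / 4 : ℝ) * Real.log X * (Real.log X / θ) ^ c =
        (X : ℝ) ^ (1 / 4 : ℝ) * Real.log X ^ (c + 1) * (1 / θ) ^ c := by
        rw [div_eq_mul_one_div (Real.log X), mul_pow, pow_succ]
        ring
    _ ≤ (X : ℝ) ^ (1 / 4 : ℝ) * (X : ℝ) ^ (1 / 2 : ℝ) * ((X : ℝ) ^ (1 / 4 : ℝ) * (κ * v)) := by gcongr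
    _ = κ * v * ((X : ℝ) ^ (1 / 4 : ℝ) * (X : ℝ) ^ (1 / 2 : ℝ) * (X : ℝ) ^ (1 / 4 : ℝ)) := by ring
    _ = κ * v * X := by
        rw [← Real.rpow_add hX0, ← Real.rpow_add hX0]
        norm_num

lemma aux1 (ε x c : ℝ) (hε1 : ε ≤ 1) (hx : 0 ≤ x) (h : c - x ≤ ε / 16 * x) : c ≤ 2 * x := by
  nlinarith

lemma aux_count (ε YW Y'W wW a1 a2 : ℝ) (hε : 0 < ε) (h : YW = wW + Y'W) (h1 : 0 ≤ a1)
    (h2 : a1 ≤ ε / 100 * YW) (h3 : wW ≤ ε / 100 * YW) (h0 : 0 ≤ wW) (h4 : |a2 - Y'W| ≤ ε / 16 * Y'W)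
    (h5 : Y'W ≤ YW) (hY : 0 ≤ YW) : |a1 + a2 - YW| ≤ ε * YW := by
  obtain ⟨c1, c2⟩ := abs_le.1 h4
  have h6 : ε / 16 * Y'W ≤ ε / 16 * YW := mul_le_mul_of_nonneg_left h5 (by positivity)
  have h7 : 0 ≤ ε * YW := by positivity
  rw [abs_le]
  constructor <;> linarith

lemma aux_n12 (ε YW Y'W n1 n2 l : ℝ) (hε : 0 < ε) (hε1 : ε ≤ 1) (hl : 0 < l)
    (h2 : n1 * l ≤ ε / 100 * YW) (h4 : |n2 * l - Y'W| ≤ ε / 16 * Y'W)
    (h5 : 9 / 10 * YW ≤ Y'W) (h6 : Y'W ≤ YW) (hY : 0 ≤ YW) : n1 ≤ ε / 2 * n2 := by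
  obtain ⟨c1, c2⟩ := abs_le.1 h4
  have h7 : ε / 16 * Y'W ≤ 1 / 16 * YW := by
    apply mul_le_mul _ h6 _ (by norm_num)
    · linarith
    · linarith
  have h8 : YW ≤ 2 * (n2 * l) := by linarith
  have h9 : ε / 100 * YW ≤ ε / 100 * (2 * (n2 * l)) := mul_le_mul_of_nonneg_left h8 (by positivity)
  have h11 : 0 ≤ n2 * l := by linarith
  have h12 : 0 ≤ ε * (n2 * l) := by positivity
  have h10 : n1 * l ≤ ε / 2 * n2 * l := by
    have : ε / 2 * n2 * l = ε / 2 * (n2 * l) := by ring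
    rw [this]
    linarith
  exact le_of_mul_le_mul_right h10 hl

lemma aux_law (ε n1 n2 F1 F2 P : ℝ) (hε : 0 < ε) (hn1 : 0 ≤ n1) (hn2 : 0 ≤ n2) (h12 : n1 ≤ ε / 2 * n2)
    (hF10 : 0 ≤ F1) (hF1 : F1 ≤ n1) (p0 : 0 ≤ P) (p1 : P ≤ 1) (h : |F2 - n2 * P| ≤ ε / 16 * n2) :
    |F1 + F2 - (n1 + n2) * P| ≤ ε * (n1 + n2) := by
  obtain ⟨c1, c2⟩ := abs_le.1 h
  have h1 : 0 ≤ n1 * P := mul_nonneg hn1 p0
  have h2 : n1 * P ≤ n1 * 1 := mul_le_mul_of_nonneg_left p1 hn1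
  have h3 : 0 ≤ ε * n1 := by positivity
  have h4 : 0 ≤ ε * n2 := by positivity
  rw [abs_le, add_mul, mul_add]
  constructor <;> linarith

open Classical in
/-- **The law after primes in windows starting anywhere.** -/
theorem prime_full (a k D : ℕ) (ha : Squarefree a) (E δ' θ δ : ℝ) (hE : 0 < E) (hδ' : 0 < δ')
    (hθ : 0 < θ) (hδ : 0 < δ) (hδ1 : δ ≤ 1) (x0 ε : ℝ) (hε : 0 < ε) (hε1 : ε ≤ 1) :
    ∃ r0 : ℕ, 2 ≤ r0 ∧ ∀ r : ℕ, r0 ≤ r → ∀ Cv : ℝ, ∀ᶠ N : ℕ in atTop,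
      ∀ (f : Fin k → ℤ[X]) (b : ℕ), US k D ((N : ℝ) ^ E) ((N : ℝ) ^ δ') f → Nat.Coprime a b →
      (∀ p n : ℕ, p.Prime → p ∣ a → ¬ Q f p n) →
      (∃ i, ∀ n : ℕ, (f i).eval (n : ℤ) = a * n + b) →
      Vq (Q f) ⌊(N : ℝ) ^ (1 / (r : ℝ))⌋₊ ≤ Cv / Real.log N → (b : ℝ) ≤ (N : ℝ) ^ (θ / 4) →
      ∀ X : ℕ, (N : ℝ) ^ θ ≤ X → ∀ u Y : ℕ, δ * X ≤ Y → u + Y ≤ X →
      |((Om a b (Q f) ⌊(N : ℝ) ^ (1 / (r : ℝ))⌋₊ u Y).card : ℝ) * Real.log X -
        Y * (Vq (Q f) ⌊(N : ℝ) ^ (1 / (r : ℝ))⌋₊ / Vz ⌊(N : ℝ) ^ (1 / (r : ℝ))⌋₊)| ≤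
        ε * (Y * (Vq (Q f) ⌊(N : ℝ) ^ (1 / (r : ℝ))⌋₊ / Vz ⌊(N : ℝ) ^ (1 / (r : ℝ))⌋₊)) ∧
      ∀ T : ℕ, T * Vq (Q f) ⌊(N : ℝ) ^ (1 / (r : ℝ))⌋₊ ≤ x0 → ∀ B : Finset ℕ,
      |(((Om a b (Q f) ⌊(N : ℝ) ^ (1 / (r : ℝ))⌋₊ u Y).filter
          (fun n => Wc (Sf (Q f) ⌊(N : ℝ) ^ (1 / (r : ℝ))⌋₊) n T ∈ B)).card : ℝ) -
        (Om a b (Q f) ⌊(N : ℝ) ^ (1 / (r : ℝ))⌋₊ u Y).card *
          ∑ j ∈ B, Real.exp (-(T * Vq (Q f) ⌊(N : ℝ) ^ (1 / (r : ℝ))⌋₊)) *
            (T * Vq (Q f) ⌊(N : ℝ) ^ (1 / (r : ℝ))⌋₊) ^ j / j.factorial| ≤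
        ε * (Om a b (Q f) ⌊(N : ℝ) ^ (1 / (r : ℝ))⌋₊ u Y).card := by
  obtain ⟨lam, hlam⟩ : ∃ lam : ℝ, lam = ε * δ / 4096 := ⟨_, rfl⟩
  have hlam0 : 0 < lam := by rw [hlam]; positivity
  have hεδ : ε * δ ≤ 1 := mul_le_one₀ hε1 hδ.le hδ1
  have hlam1 : lam ≤ 1 / 4096 := by rw [hlam]; linarith
  have hlamδ : 4096 * lam ≤ δ := by
    rw [hlam]
    have : ε * δ ≤ 1 * δ := mul_le_mul_of_nonneg_right hε1 hδ.le
    linarith
  obtain ⟨r0, hr0, hlaw⟩ := prime_polys a k D ha E δ' (θ / 4) lam hE hδ' (by positivity) hlam0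
    (by linarith) x0 (ε / 16) (by positivity) (by linarith)
  obtain ⟨v, hv, hV⟩ := V_lower_unif (k * D + 1)
  refine ⟨r0, hr0, ?_⟩
  intro r hr Cv
  have hr2 : 2 ≤ r := hr0.trans hr
  have hsm := ev_small (k * D + 1) v lam θ hv hlam0 hθ
  obtain ⟨X1, hX1⟩ := eventually_atTop.1 hsm
  have hNθ : ∀ᶠ N : ℕ in atTop, max (X1 : ℝ) (16 / lam) ≤ (N : ℝ) ^ θ :=
    ((tendsto_rpow_atTop hθ).comp tendsto_natCast_atTop_atTop).eventually_ge_atTop _
  have hNθ2 : ∀ᶠ N : ℕ in atTop, (16 : ℝ) ≤ (N : ℝ) ^ (θ / 4) :=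
    ((tendsto_rpow_atTop (by positivity)).comp tendsto_natCast_atTop_atTop).eventually_ge_atTop _
  filter_upwards [hlaw r hr Cv, Pool.Agent.Y879.GL.level_ok r hr2, hNθ, hNθ2, eventually_ge_atTop 16]
    with N hN hlev hNX hN16 hNbig
  intro f b hf hab hnon hbase hVup hb X hX u Y hY huY
  have hlaw' := hN f b hf hab hnon hbase hVup
  obtain ⟨l1, l2, l3, l4, l5⟩ := hlev
  obtain ⟨y, hy⟩ : ∃ y, y = ⌊(N : ℝ) ^ (1 / (r : ℝ))⌋₊ := ⟨_, rfl⟩
  rw [← hy] at hlaw' l1 l2 l3 l4 ⊢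
  have hNr : (16 : ℝ) ≤ N := by exact_mod_cast hNbig
  have hN0 : (0 : ℝ) < N := by linarith
  have hN1 : (1 : ℝ) ≤ N := by linarith
  have hXbig : max (X1 : ℝ) (16 / lam) ≤ X := hNX.trans hX
  have hXX1 : X1 ≤ X := by
    have : (X1 : ℝ) ≤ X := (le_max_left _ _).trans hXbig
    exact_mod_cast this
  have hXlam : 16 ≤ lam * X := by
    have : 16 / lam ≤ X := (le_max_right _ _).trans hXbig
    rw [div_le_iff₀ hlam0] at this
    linarith
  have hX0 : (0 : ℝ) < X := by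
    have : (0 : ℝ) < (N : ℝ) ^ θ := Real.rpow_pos_of_pos hN0 _
    linarith
  have hX16 : (16 : ℝ) ≤ X := by
    have : lam * X ≤ 1 * X := mul_le_mul_of_nonneg_right (by linarith) hX0.le
    linarith
  have hX1' : (1 : ℝ) ≤ X := by linarith
  have hlX : 0 ≤ Real.log X := Real.log_nonneg hX1'
  obtain ⟨V, hVd⟩ : ∃ V, V = Vq (Q f) y := ⟨_, rfl⟩
  obtain ⟨W, hW⟩ : ∃ W, W = V / Vz y := ⟨_, rfl⟩
  have hVz := Vz_pos y
  have hVz1 := Vz_le_one y
  have hVlow : v / Real.log N ^ (k * D + 1) ≤ V := by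
    have h1 := hV (Q f) (us_perB hf) (us_adm hf) y (by omega)
    rw [hVd]
    refine le_trans ?_ h1
    apply div_le_div_of_nonneg_left hv.le
    · have : 0 < Real.log y := by linarith
      positivity
    · exact pow_le_pow_left₀ (by linarith) l3 _
  have hlN0 : 0 < Real.log N := by linarith
  have hV0 : 0 < V := lt_of_lt_of_le (by positivity) hVlow
  have hW0 : 0 < W := by rw [hW]; positivity
  have hWV : V ≤ W := by
    rw [hW, le_div_iff₀ hVz]
    exact mul_le_of_le_one_right hV0.le hVz1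
  have hlogNX : Real.log N ≤ Real.log X / θ := by
    rw [le_div_iff₀ hθ, mul_comm, ← Real.log_rpow hN0]
    exact Real.log_le_log (by positivity) hX
  -- the small part
  have hXq : (X : ℝ) ^ (1 / 4 : ℝ) * Real.log X ≤ lam * X * W := by
    have h1 := hX1 X hXX1
    have h2 : v ≤ V * (Real.log X / θ) ^ (k * D + 1) := by
      rw [div_le_iff₀ (by positivity)] at hVlow
      refine hVlow.trans ?_
      apply mul_le_mul_of_nonneg_left _ hV0.le
      exact pow_le_pow_left₀ hlN0.le hlogNX _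
    have h3 : 0 < (Real.log X / θ) ^ (k * D + 1) := by
      have : 0 < Real.log X / θ := lt_of_lt_of_le hlN0 hlogNX
      positivity
    have h4 : (X : ℝ) ^ (1 / 4 : ℝ) * Real.log X * (Real.log X / θ) ^ (k * D + 1) ≤
        lam * X * V * (Real.log X / θ) ^ (k * D + 1) := by
      refine h1.trans ?_
      calc lam * v * X = (lam * X) * v := by ring
        _ ≤ (lam * X) * (V * (Real.log X / θ) ^ (k * D + 1)) :=
          mul_le_mul_of_nonneg_left h2 (by positivity)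
        _ = _ := by ring
    have h5 := le_of_mul_le_mul_right h4 h3
    refine h5.trans ?_
    apply mul_le_mul_of_nonneg_left hWV (by positivity)
  have hz : (N : ℝ) ^ (θ / 4) ≤ (X : ℝ) ^ (1 / 4 : ℝ) := by
    calc (N : ℝ) ^ (θ / 4) = ((N : ℝ) ^ θ) ^ (1 / 4 : ℝ) := by
          rw [← Real.rpow_mul hN0.le]
          congr 1
          ring
      _ ≤ (X : ℝ) ^ (1 / 4 : ℝ) := Real.rpow_le_rpow (by positivity) hX (by norm_num)
  have hlaw1 := fun (X' : ℕ) (h1 : (N : ℝ) ^ (θ / 4) ≤ X') (h2 : b ≤ X') (u Y : ℕ)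
    (h3 : lam * X' ≤ u) (h4 : lam * X' ≤ Y) (h5 : u + Y ≤ X') => hlaw' X' h1 h2 u Y h3 h4 h5
  rw [← hVd, ← hW] at hlaw1 ⊢
  have hsmall : ∀ m : ℕ, m ≤ X → ((Om a b (Q f) y 0 m).card : ℝ) * Real.log X ≤
      lam * X * W + 16 * W * m := by
    intro m hm
    have hd := dyadic (fun m => ((Om a b (Q f) y 0 m).card : ℝ) * Real.log X)
      ((X : ℝ) ^ (1 / 4 : ℝ)) ((X : ℝ) ^ (1 / 4 : ℝ) * Real.log X) (8 * W) X (by positivity)
      (by positivity) (by
        intro m' hm'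
        have h1 : ((Om a b (Q f) y 0 m').card : ℝ) ≤ m' := by exact_mod_cast om_card_le _ _ _ _ _ _
        exact mul_le_mul_of_nonneg_right (h1.trans hm') hlX) (by
        intro m' hm' hmX
        have e1 : m' = m' / 2 + (m' - m' / 2) := by omega
        have h1 := om_card_split a b (Q f) y 0 (m' / 2) (m' - m' / 2)
        rw [← e1, zero_add] at h1
        have hmN : (N : ℝ) ^ (θ / 4) ≤ m' := hz.trans hm'.le
        have hm16 : (16 : ℝ) ≤ m' := hN16.trans hmN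
        have hbm : b ≤ m' := by
          have : (b : ℝ) ≤ m' := hb.trans hmN
          exact_mod_cast this
        have h16 : 16 ≤ m' := by exact_mod_cast hm16
        have hq1 : (m' : ℝ) / 4 ≤ ((m' / 2 : ℕ) : ℝ) := by
          have : m' ≤ 4 * (m' / 2) := by omega
          have : (m' : ℝ) ≤ 4 * ((m' / 2 : ℕ) : ℝ) := by exact_mod_cast this
          linarith
        have hq2 : (m' : ℝ) / 4 ≤ ((m' - m' / 2 : ℕ) : ℝ) := by
          have : m' ≤ 4 * (m' - m' / 2) := by omega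
          have : (m' : ℝ) ≤ 4 * ((m' - m' / 2 : ℕ) : ℝ) := by exact_mod_cast this
          linarith
        have hq3 : ((m' - m' / 2 : ℕ) : ℝ) ≤ m' := by exact_mod_cast Nat.sub_le _ _
        have hlm : lam * m' ≤ m' / 4 := by
          have : lam * m' ≤ 1 / 4096 * m' := mul_le_mul_of_nonneg_right hlam1 (by linarith)
          linarith
        have h2 := (hlaw1 m' hmN hbm (m' / 2) (m' - m' / 2) (by linarith) (by linarith)
          (by omega)).1
        have h3 := (abs_le.1 h2).2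
        obtain ⟨cc, hcc⟩ : ∃ cc : ℝ, cc = ((Om a b (Q f) y (m' / 2) (m' - m' / 2)).card : ℝ) := ⟨_, rfl⟩
        rw [← hcc] at h3
        have hcc0 : 0 ≤ cc := by rw [hcc]; exact Nat.cast_nonneg _
        have h4 : ((Om a b (Q f) y 0 m').card : ℝ) = ((Om a b (Q f) y 0 (m' / 2)).card : ℝ) + cc := by
          rw [h1, hcc]
          push_cast
          rfl
        rw [h4, add_mul]
        have hlog4 : Real.log X ≤ 4 * Real.log m' := by
          have e2 : Real.log X = 4 * Real.log ((X : ℝ) ^ (1 / 4 : ℝ)) := by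
            rw [Real.log_rpow hX0]
            ring
          rw [e2]
          apply mul_le_mul_of_nonneg_left _ (by norm_num)
          exact Real.log_le_log (by positivity) hm'.le
        have hYW : ((m' - m' / 2 : ℕ) : ℝ) * W ≤ m' * W := mul_le_mul_of_nonneg_right hq3 hW0.le
        have h5 : cc * Real.log m' ≤ 2 * (m' * W) := by
          have h0 : 0 ≤ ((m' - m' / 2 : ℕ) : ℝ) * W := by positivity
          exact (aux1 ε _ _ hε1 h0 h3).trans (by linarith)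
        have h6 : cc * Real.log X ≤ cc * (4 * Real.log m') := mul_le_mul_of_nonneg_left hlog4 hcc0
        linarith) m hm
    linarith
  by_cases hu : lam * X ≤ u
  · have h1 := hlaw1 X (hz.trans (by
      calc (X : ℝ) ^ (1 / 4 : ℝ) ≤ (X : ℝ) ^ (1 : ℝ) :=
            Real.rpow_le_rpow_of_exponent_le hX1' (by norm_num)
        _ = X := Real.rpow_one _)) (by
        have : (b : ℝ) ≤ X := hb.trans (hz.trans (by
          calc (X : ℝ) ^ (1 / 4 : ℝ) ≤ (X : ℝ) ^ (1 : ℝ) :=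
                Real.rpow_le_rpow_of_exponent_le hX1' (by norm_num)
            _ = X := Real.rpow_one _))
        exact_mod_cast this) u Y hu ((mul_le_mul_of_nonneg_right (by linarith) hX0.le).trans hY) huY
    refine ⟨h1.1.trans ?_, ?_⟩
    · exact mul_le_mul_of_nonneg_right (by linarith) (by positivity)
    · intro T hT B
      refine (h1.2 T hT B).trans ?_
      exact mul_le_mul_of_nonneg_right (by linarith) (Nat.cast_nonneg _)
  · rw [not_le] at hu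
    obtain ⟨v', hv'⟩ : ∃ v' : ℕ, v' = ⌈lam * X⌉₊ := ⟨_, rfl⟩
    have hv1 : lam * X ≤ v' := by rw [hv']; exact Nat.le_ceil _
    have hv2 : (v' : ℝ) ≤ 2 * (lam * X) := by
      have := Nat.ceil_lt_add_one (show 0 ≤ lam * X by positivity)
      rw [← hv'] at this
      linarith
    have huv : u ≤ v' := by
      have : (u : ℝ) ≤ v' := by linarith
      exact_mod_cast this
    obtain ⟨w, hw⟩ : ∃ w, v' = u + w := ⟨v' - u, by omega⟩
    have hwv : (w : ℝ) ≤ 2 * (lam * X) := by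
      have : w ≤ v' := by omega
      have : (w : ℝ) ≤ v' := by exact_mod_cast this
      linarith
    have hlamY : 4096 * (lam * X) ≤ ε * Y := by
      rw [hlam]
      calc 4096 * (ε * δ / 4096 * X) = ε * (δ * X) := by ring
        _ ≤ ε * Y := mul_le_mul_of_nonneg_left hY hε.le
    have hYpos : (0 : ℝ) < Y := lt_of_lt_of_le (by positivity) hY
    have hlamY2 : 4096 * (lam * X) ≤ Y := hlamY.trans (by
      calc ε * Y ≤ 1 * Y := mul_le_mul_of_nonneg_right hε1 hYpos.le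
        _ = Y := one_mul _)
    have hwY : w ≤ Y := by
      have : (w : ℝ) ≤ Y := by linarith
      exact_mod_cast this
    obtain ⟨Y', hY'⟩ : ∃ Y', Y = w + Y' := ⟨Y - w, by omega⟩
    have hYr : (Y : ℝ) = w + Y' := by
      rw [hY']
      push_cast
      ring
    have hw0 : (0 : ℝ) ≤ w := Nat.cast_nonneg _
    have hY'1 : (Y' : ℝ) ≤ Y := by linarith
    have hY'2 : (9 / 10 : ℝ) * Y ≤ Y' := by linarith
    have h1 := hlaw1 X (hz.trans (by
      calc (X : ℝ) ^ (1 / 4 : ℝ) ≤ (X : ℝ) ^ (1 : ℝ) :=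
            Real.rpow_le_rpow_of_exponent_le hX1' (by norm_num)
        _ = X := Real.rpow_one _)) (by
        have : (b : ℝ) ≤ X := hb.trans (hz.trans (by
          calc (X : ℝ) ^ (1 / 4 : ℝ) ≤ (X : ℝ) ^ (1 : ℝ) :=
                Real.rpow_le_rpow_of_exponent_le hX1' (by norm_num)
            _ = X := Real.rpow_one _))
        exact_mod_cast this) v' Y' hv1 (by linarith) (by omega)
    obtain ⟨sA, sB⟩ := om_split a b (Q f) y u w Y'
    rw [← hw, ← hY'] at sA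
    rw [← hw] at sB
    obtain ⟨n1, hn1⟩ : ∃ n1 : ℝ, n1 = ((Om a b (Q f) y u w).card : ℝ) := ⟨_, rfl⟩
    obtain ⟨n2, hn2⟩ : ∃ n2 : ℝ, n2 = ((Om a b (Q f) y v' Y').card : ℝ) := ⟨_, rfl⟩
    have hn10 : 0 ≤ n1 := by rw [hn1]; exact Nat.cast_nonneg _
    have hn20 : 0 ≤ n2 := by rw [hn2]; exact Nat.cast_nonneg _
    have hcard : ((Om a b (Q f) y u Y).card : ℝ) = n1 + n2 := by
      rw [sA, Finset.card_union_of_disjoint sB, hn1, hn2]
      push_cast
      rfl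
    have hS1 : n1 * Real.log X ≤ 33 * (lam * X * W) := by
      have h2 := hsmall v' (by omega)
      have h3 := om_card_split a b (Q f) y 0 u w
      rw [zero_add, ← hw] at h3
      have h4 : n1 ≤ ((Om a b (Q f) y 0 v').card : ℝ) := by
        rw [hn1, h3]
        push_cast
        have : (0 : ℝ) ≤ ((Om a b (Q f) y 0 u).card : ℝ) := Nat.cast_nonneg _
        linarith
      have h5 := mul_le_mul_of_nonneg_right h4 hlX
      have h6 : 16 * W * (v' : ℝ) ≤ 16 * W * (2 * (lam * X)) :=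
        mul_le_mul_of_nonneg_left hv2 (by positivity)
      linarith
    have hYW : 0 < Y * W := by positivity
    have hS1' : n1 * Real.log X ≤ ε / 100 * (Y * W) := by
      have h2 : 4096 * (lam * X) * W ≤ ε * Y * W := mul_le_mul_of_nonneg_right hlamY hW0.le
      have h3 : 0 ≤ lam * X * W := by positivity
      have e1 : 4096 * (lam * X) * W = 4096 * (lam * X * W) := by ring
      have e2 : ε * Y * W = ε * (Y * W) := by ring
      rw [e1, e2] at h2
      linarith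
    obtain ⟨c1, c2⟩ := h1
    rw [← hn2] at c1 c2
    have hY'W : (Y' : ℝ) * W ≤ Y * W := mul_le_mul_of_nonneg_right hY'1 hW0.le
    have hY'W2 : (9 / 10 : ℝ) * (Y * W) ≤ Y' * W := by
      rw [← mul_assoc]
      exact mul_le_mul_of_nonneg_right hY'2 hW0.le
    have hwW : (w : ℝ) * W ≤ ε / 100 * (Y * W) := by
      have h2 : 4096 * (lam * X) * W ≤ ε * Y * W := mul_le_mul_of_nonneg_right hlamY hW0.le
      have h3 : (w : ℝ) * W ≤ 2 * (lam * X) * W := mul_le_mul_of_nonneg_right hwv hW0.le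
      have h4 : 0 ≤ lam * X * W := by positivity
      have e1 : 4096 * (lam * X) * W = 4096 * (lam * X * W) := by ring
      have e2 : ε * Y * W = ε * (Y * W) := by ring
      have e3 : 2 * (lam * X) * W = 2 * (lam * X * W) := by ring
      rw [e1, e2] at h2
      rw [e3] at h3
      linarith
    have hYWe : Y * W = w * W + Y' * W := by rw [hYr]; ring
    have hn1l : 0 ≤ n1 * Real.log X := mul_nonneg hn10 hlX
    have hwW0 : 0 ≤ (w : ℝ) * W := by positivity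
    refine ⟨?_, ?_⟩
    · rw [hcard, add_mul]
      exact aux_count ε (Y * W) (Y' * W) (w * W) _ _ hε hYWe hn1l hS1' hwW hwW0 c1 hY'W hYW.le
    · intro T hT B
      have c3 := c2 T hT B
      rw [hcard, sA, Finset.filter_union, Finset.card_union_of_disjoint
        (Finset.disjoint_filter_filter sB)]
      obtain ⟨F1, hF1⟩ : ∃ F1 : ℝ, F1 = (((Om a b (Q f) y u w).filter
        (fun n => Wc (Sf (Q f) y) n T ∈ B)).card : ℝ) := ⟨_, rfl⟩
      obtain ⟨F2, hF2⟩ : ∃ F2 : ℝ, F2 = (((Om a b (Q f) y v' Y').filter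
        (fun n => Wc (Sf (Q f) y) n T ∈ B)).card : ℝ) := ⟨_, rfl⟩
      push_cast
      rw [← hF1, ← hF2]
      rw [← hF2] at c3
      obtain ⟨P, hP⟩ : ∃ P : ℝ, P = ∑ j ∈ B, Real.exp (-(T * V)) * (T * V) ^ j / j.factorial := ⟨_, rfl⟩
      rw [← hP] at c3 ⊢
      have hP01 := poi_le_one (T * V) (by positivity) B
      rw [← hP] at hP01
      have hF10 : 0 ≤ F1 := by rw [hF1]; exact Nat.cast_nonneg _
      have hF1n : F1 ≤ n1 := by
        rw [hF1, hn1]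
        exact_mod_cast Finset.card_filter_le _ _
      have hlX0 : 0 < Real.log X := Real.log_pos (by linarith)
      have h12 := aux_n12 ε (Y * W) (Y' * W) n1 n2 (Real.log X) hε hε1 hlX0 hS1' c1 hY'W2 hY'W hYW.le
      exact aux_law ε n1 n2 F1 F2 P hε hn10 hn20 h12 hF10 hF1n hP01.1 hP01.2 c3

end Pool.Agent.Y879.PR
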