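import Pool.Agent.Y879.PR.Unif
import Pool.Agent.Y879.GL.QuadU
import Pool.Agent.Y879.GL.Prog2

set_option autoImplicit false

/-!
# The density of a sifted set which has at least one class for every prime not dividing `a`
-/

namespace Pool.Agent.Y879.PR

open Polynomial Finset Filter
open Pool.Agent.W123.RP Pool.Agent.H373R2.T7 Pool.Agent.W123.RU Pool.Agent.W123.RU.Poly
open Pool.Agent.TH464.PW Pool.Agent.TH464.PO Pool.Agent.Y879.AP Pool.Agent.Y879.GL

lemma nuB_le_self (Q : ℕ → ℕ → Prop) (p : ℕ) : nuB Q p ≤ p := by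
  classical
  unfold nuB
  exact (Finset.card_filter_le _ _).trans (by simp)

lemma Vq_le_Vz (Q : ℕ → ℕ → Prop) (a : ℕ) (ha : 0 < a)
    (h : ∀ p : ℕ, p.Prime → ¬ p ∣ a → 1 ≤ nuB Q p) (y : ℕ) :
    Vq Q y ≤ 2 ^ a.primeFactors.card * Vz y := by
  have h1 : Vq Q y ≤ ∏ p ∈ pz y, (if p ∣ a then (2 : ℝ) else 1) * (1 - 1 / (p : ℝ)) := by
    unfold Vq
    apply Finset.prod_le_prod
    · intro p hp
      have hpp := (mem_pz.1 hp).2
      have h2 : (nuB Q p : ℝ) ≤ p := by exact_mod_cast nuB_le_self Q p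
      have h3 : (0 : ℝ) < p := by exact_mod_cast hpp.pos
      rw [sub_nonneg, div_le_one h3]
      exact h2
    · intro p hp
      have hpp := (mem_pz.1 hp).2
      have h3 : (2 : ℝ) ≤ p := by exact_mod_cast hpp.two_le
      have h4 : 1 / (p : ℝ) ≤ 1 / 2 := one_div_le_one_div_of_le (by norm_num) h3
      by_cases hpa : p ∣ a
      · rw [if_pos hpa]
        have h5 : (0 : ℝ) ≤ (nuB Q p : ℝ) / p := by positivity
        linarith
      · rw [if_neg hpa, one_mul]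
        have h5 : (1 : ℝ) ≤ (nuB Q p : ℝ) := by exact_mod_cast h p hpp hpa
        have h6 : 1 / (p : ℝ) ≤ (nuB Q p : ℝ) / p := by
          apply div_le_div_of_nonneg_right h5
          linarith
        linarith
  refine h1.trans ?_
  rw [Finset.prod_mul_distrib]
  apply mul_le_mul_of_nonneg_right _ (Pool.Agent.Y879.PR.Vz_pos y).le
  rw [← Finset.prod_filter, Finset.prod_const]
  apply pow_le_pow_right₀ (by norm_num)
  apply Finset.card_le_card
  intro p hp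
  rw [Finset.mem_filter] at hp
  rw [Nat.mem_primeFactors]
  exact ⟨(mem_pz.1 hp.1).2, hp.2, ha.ne'⟩

lemma V_up_base (a : ℕ) (ha : 0 < a) (r : ℕ) (hr : 2 ≤ r) : ∃ C : ℝ, 0 < C ∧ ∀ᶠ X : ℕ in atTop,
    ∀ Q : ℕ → ℕ → Prop, (∀ p : ℕ, p.Prime → ¬ p ∣ a → 1 ≤ nuB Q p) →
      Vq Q ⌊(X : ℝ) ^ (1 / (r : ℝ))⌋₊ ≤ C / Real.log X := by
  obtain ⟨C, hC, hV⟩ := Vz_up r hr
  refine ⟨2 ^ a.primeFactors.card * C, by positivity, ?_⟩
  filter_upwards [hV] with X hX Q hQ
  refine (Vq_le_Vz Q a ha hQ _).trans ?_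
  rw [mul_div_assoc]
  exact mul_le_mul_of_nonneg_left hX.2 (by positivity)

lemma nuB_pos_of (Q : ℕ → ℕ → Prop) (p : ℕ) (hp : p.Prime) (x : ℕ)
    (hper : ∀ n, Q p n ↔ Q p (n % p)) (hx : Q p x) : 1 ≤ nuB Q p := by
  classical
  have h1 : nuB Q p = ((range p).filter (fun r => Q p r)).card := by
    unfold nuB
    exact card_iff _ _ (fun r _ => Iff.rfl)
  rw [h1, Nat.one_le_iff_ne_zero, ← Nat.pos_iff_ne_zero, Finset.card_pos]
  exact ⟨x % p, Finset.mem_filter.2 ⟨Finset.mem_range.2 (Nat.mod_lt _ hp.pos), (hper x).1 hx⟩⟩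

end Pool.Agent.Y879.PR
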