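import Pool.Agent.Y879.PR.Full
import Pool.Agent.Y879.PR.VBase

set_option autoImplicit false

/-!
# Tuples `M x + B i` in one residue class
-/

namespace Pool.Agent.Y879.PR

open Polynomial Finset Filter
open Pool.Agent.W123.RP Pool.Agent.H373R2.T7 Pool.Agent.W123.RU Pool.Agent.W123.RU.Poly
open Pool.Agent.TH464.PW Pool.Agent.TH464.PO Pool.Agent.Y879.AP Pool.Agent.Y879.GL

variable {k : ℕ}

/-- the forms `M x + B i` -/
noncomputable def tf (M : ℕ) (B : Fin k → ℕ) : Fin k → ℤ[X] := fun i => lf (M : ℤ) (B i : ℤ)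

lemma tf_Q (M : ℕ) (B : Fin k → ℕ) (p x : ℕ) : Q (tf M B) p x ↔ ∃ i, p ∣ M * x + B i := by
  unfold Q tf
  constructor
  · rintro ⟨i, hi⟩
    refine ⟨i, ?_⟩
    rw [lf_eval] at hi
    exact_mod_cast hi
  · rintro ⟨i, hi⟩
    refine ⟨i, ?_⟩
    rw [lf_eval]
    exact_mod_cast hi

/-- an admissible tuple in one class -/
structure Tup (M : ℕ) (B : Fin k → ℕ) : Prop where
  sq : Squarefree M
  cop : ∀ i, Nat.Coprime M (B i)
  pr : ∀ p : ℕ, p.Prime → p ≤ k → p ∣ M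
  inj : Function.Injective B
  spr : ∀ i j, B i < B j + M
  pos : 0 < k

variable {M : ℕ} {B : Fin k → ℕ}

lemma Tup.mpos (h : Tup M B) : 0 < M := Nat.pos_of_ne_zero h.sq.ne_zero

lemma Tup.none (h : Tup M B) (p x : ℕ) (hp : p.Prime) (hpM : p ∣ M) : ¬ Q (tf M B) p x := by
  rw [tf_Q]
  rintro ⟨i, hi⟩
  have h1 : p ∣ B i := (Nat.dvd_add_right (Dvd.dvd.mul_right hpM x)).1 hi
  have h2 := Nat.dvd_gcd hpM h1
  rw [h.cop i] at h2
  exact hp.one_lt.ne' (Nat.dvd_one.1 h2)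

lemma Tup.us (h : Tup M B) (H U : ℝ) (hH : (M : ℝ) ≤ H) (hB : ∀ i, (B i : ℝ) ≤ H) :
    US k 1 H U (tf M B) := by
  have hM := h.mpos
  have hMz : (M : ℤ) ≠ 0 := by exact_mod_cast hM.ne'
  apply us_lf
  · intro i
    exact hMz
  · intro i
    exact Nat.isCoprime_iff_coprime.2 (h.cop i)
  · intro i
    push_cast
    rw [abs_of_nonneg (Nat.cast_nonneg _)]
    exact hH
  · intro i
    push_cast
    rw [abs_of_nonneg (Nat.cast_nonneg _)]
    exact hB i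
  · intro p hp
    by_cases hpM : p ∣ M
    · refine ⟨0, fun i hi => h.none p 0 hp hpM ?_⟩
      rw [tf_Q]
      exact ⟨i, by exact_mod_cast hi⟩
    · have hkp : k < p := by
        by_contra hcon
        rw [not_lt] at hcon
        exact hpM (h.pr p hp hcon)
      have hcopM : Nat.Coprime p M := (Nat.Prime.coprime_iff_not_dvd hp).2 hpM
      have huniq : ∀ i : Fin k, ∀ x y : ℕ, x < p → y < p → p ∣ M * x + B i → p ∣ M * y + B i → x = y := by
        intro i x y hx hy h1 h2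
        have h3 : M * x + B i ≡ M * y + B i [MOD p] :=
          ((Nat.modEq_zero_iff_dvd).2 h1).trans ((Nat.modEq_zero_iff_dvd).2 h2).symm
        have h4 : M * x ≡ M * y [MOD p] := Nat.ModEq.add_right_cancel' _ h3
        have h5 : x ≡ y [MOD p] := Nat.ModEq.cancel_left_of_coprime hcopM h4
        exact Nat.ModEq.eq_of_lt_of_lt h5 hx hy
      by_contra hcon
      push Not at hcon
      choose g hg using hcon
      obtain ⟨x, hx, y, hy, hxy, hgxy⟩ := Finset.exists_ne_map_eq_of_card_lt_of_maps_to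
        (s := Finset.range p) (t := (Finset.univ : Finset (Fin k))) (f := g)
        (by simpa using hkp) (fun x _ => Finset.mem_coe.2 (Finset.mem_univ _))
      have h1 : p ∣ M * x + B (g x) := by exact_mod_cast hg x
      have h2 : p ∣ M * y + B (g y) := by exact_mod_cast hg y
      rw [← hgxy] at h2
      exact hxy (huniq (g x) x y (Finset.mem_range.1 hx) (Finset.mem_range.1 hy) h1 h2)
  · intro i j t ht htU
    have hs := h.spr i j
    have ht1 : (1 : ℤ) ≤ t := by exact_mod_cast ht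
    have hMp : (0 : ℤ) < M := by exact_mod_cast hM
    have hsz : (B i : ℤ) < B j + M := by exact_mod_cast hs
    constructor
    · rintro ⟨_, h2⟩
      nlinarith
    · rintro ⟨h1, _⟩
      omega

lemma Tup.nu (h : Tup M B) (p : ℕ) (hp : p.Prime) (hpM : ¬ p ∣ M) : 1 ≤ nuB (Q (tf M B)) p := by
  obtain ⟨x, hx⟩ := exists_root M (B ⟨0, h.pos⟩) p hp hpM
  refine nuB_pos_of _ p hp x (fun n => per (tf M B) p n) ?_
  rw [tf_Q]
  exact ⟨_, hx⟩

open Classical in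
/-- **The law after primes for tuples in one class.** -/
theorem tup_prime (h : Tup M B) (θ δ : ℝ) (hθ : 0 < θ) (hδ : 0 < δ) (hδ1 : δ ≤ 1) (x0 ε : ℝ)
    (hε : 0 < ε) (hε1 : ε ≤ 1) :
    ∃ r0 : ℕ, 2 ≤ r0 ∧ ∀ r : ℕ, r0 ≤ r → ∀ᶠ N : ℕ in atTop,
      0 < Vq (Q (tf M B)) ⌊(N : ℝ) ^ (1 / (r : ℝ))⌋₊ ∧
      ∀ i : Fin k, ∀ X : ℕ, (N : ℝ) ^ θ ≤ X → ∀ u Y : ℕ, δ * X ≤ Y → u + Y ≤ X →
      |((Om M (B i) (Q (tf M B)) ⌊(N : ℝ) ^ (1 / (r : ℝ))⌋₊ u Y).card : ℝ) * Real.log X -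
        Y * (Vq (Q (tf M B)) ⌊(N : ℝ) ^ (1 / (r : ℝ))⌋₊ / Vz ⌊(N : ℝ) ^ (1 / (r : ℝ))⌋₊)| ≤
        ε * (Y * (Vq (Q (tf M B)) ⌊(N : ℝ) ^ (1 / (r : ℝ))⌋₊ / Vz ⌊(N : ℝ) ^ (1 / (r : ℝ))⌋₊)) ∧
      ∀ T : ℕ, T * Vq (Q (tf M B)) ⌊(N : ℝ) ^ (1 / (r : ℝ))⌋₊ ≤ x0 → ∀ A : Finset ℕ,
      |(((Om M (B i) (Q (tf M B)) ⌊(N : ℝ) ^ (1 / (r : ℝ))⌋₊ u Y).filter
          (fun n => Wc (Sf (Q (tf M B)) ⌊(N : ℝ) ^ (1 / (r : ℝ))⌋₊) n T ∈ A)).card : ℝ) -
        (Om M (B i) (Q (tf M B)) ⌊(N : ℝ) ^ (1 / (r : ℝ))⌋₊ u Y).card *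
          ∑ j ∈ A, Real.exp (-(T * Vq (Q (tf M B)) ⌊(N : ℝ) ^ (1 / (r : ℝ))⌋₊)) *
            (T * Vq (Q (tf M B)) ⌊(N : ℝ) ^ (1 / (r : ℝ))⌋₊) ^ j / j.factorial| ≤
        ε * (Om M (B i) (Q (tf M B)) ⌊(N : ℝ) ^ (1 / (r : ℝ))⌋₊ u Y).card := by
  obtain ⟨r0, hr0, hlaw⟩ := prime_full M k 1 h.sq 1 1 θ δ one_pos one_pos hθ hδ hδ1 x0 ε hε hε1
  refine ⟨r0, hr0, ?_⟩
  intro r hr
  obtain ⟨C, hC, hV⟩ := V_up_base M h.mpos r (hr0.trans hr)
  have hb : ∀ᶠ N : ℕ in atTop, ((∑ i, B i : ℕ) : ℝ) ≤ (N : ℝ) ^ (θ / 4) :=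
    ((tendsto_rpow_atTop (by positivity)).comp tendsto_natCast_atTop_atTop).eventually_ge_atTop _
  filter_upwards [hlaw r hr C, hV, hb, eventually_ge_atTop (M + ∑ i, B i)] with N hN hVN hbN hNM
  have hle : ∀ i, B i ≤ ∑ i, B i := fun i => Finset.single_le_sum (fun _ _ => Nat.zero_le _) (mem_univ i)
  have hus : US k 1 ((N : ℝ) ^ (1 : ℝ)) ((N : ℝ) ^ (1 : ℝ)) (tf M B) := by
    apply h.us
    · rw [Real.rpow_one]
      exact_mod_cast (by omega : M ≤ N)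
    · intro i
      rw [Real.rpow_one]
      have := hle i
      exact_mod_cast (by omega : B i ≤ N)
  refine ⟨Vq_pos _ (us_adm hus) _, ?_⟩
  intro i X hX u Y hY huY
  refine hN (tf M B) (B i) hus (h.cop i) (fun p n hp hpM => h.none p n hp hpM) ⟨i, fun n => ?_⟩
    (hVN _ (fun p hp hpM => h.nu p hp hpM)) ?_ X hX u Y hY huY
  · unfold tf
    rw [lf_eval]
  · refine le_trans ?_ hbN
    exact_mod_cast hle i

lemma Tup.nu_eq (h : Tup M B) (p : ℕ) (hp : p.Prime) (hpM : ¬ p ∣ M)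
    (hd : ∀ i j, i ≠ j → ¬ (p : ℤ) ∣ (B i : ℤ) - B j) : nuB (Q (tf M B)) p = k := by
  classical
  have hcopM : Nat.Coprime p M := (Nat.Prime.coprime_iff_not_dvd hp).2 hpM
  have h1 : nuB (Q (tf M B)) p = ((range p).filter (fun x => ∃ i, p ∣ M * x + B i)).card := by
    unfold nuB
    exact card_iff _ _ (fun r _ => tf_Q M B p r)
  have hroot : ∀ i, ∃ x, x < p ∧ p ∣ M * x + B i := by
    intro i
    obtain ⟨x, hx⟩ := exists_root M (B i) p hp hpM
    refine ⟨x % p, Nat.mod_lt _ hp.pos, ?_⟩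
    have h2 : M * (x % p) + B i ≡ M * x + B i [MOD p] :=
      Nat.ModEq.add_right _ (Nat.ModEq.mul_left _ (Nat.mod_modEq x p))
    exact (Nat.modEq_zero_iff_dvd).1 (h2.trans ((Nat.modEq_zero_iff_dvd).2 hx))
  choose g hg1 hg2 using hroot
  have hinj : Function.Injective g := by
    intro i j hij
    by_contra hne
    apply hd i j hne
    have h3 : p ∣ M * g i + B i := hg2 i
    have h4 : p ∣ M * g i + B j := by
      rw [hij]
      exact hg2 j
    have h5 : (p : ℤ) ∣ (M * g i + B i : ℤ) := by exact_mod_cast h3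
    have h6 : (p : ℤ) ∣ (M * g i + B j : ℤ) := by exact_mod_cast h4
    have h7 := dvd_sub h5 h6
    rwa [show ((M : ℤ) * g i + B i) - (M * g i + B j) = (B i : ℤ) - B j by ring] at h7
  have himg : (range p).filter (fun x => ∃ i, p ∣ M * x + B i) = Finset.univ.image g := by
    ext x
    rw [mem_filter, mem_image, mem_range]
    constructor
    · rintro ⟨hx, i, hi⟩
      refine ⟨i, mem_univ _, ?_⟩
      have h3 : M * g i + B i ≡ M * x + B i [MOD p] :=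
        ((Nat.modEq_zero_iff_dvd).2 (hg2 i)).trans ((Nat.modEq_zero_iff_dvd).2 hi).symm
      have h4 : M * g i ≡ M * x [MOD p] := Nat.ModEq.add_right_cancel' _ h3
      have h5 : g i ≡ x [MOD p] := Nat.ModEq.cancel_left_of_coprime hcopM h4
      exact Nat.ModEq.eq_of_lt_of_lt h5 (hg1 i) hx
    · rintro ⟨i, _, rfl⟩
      exact ⟨hg1 i, i, hg2 i⟩
  rw [h1, himg, Finset.card_image_of_injective _ hinj, Finset.card_univ, Fintype.card_fin]

lemma Tup.nu_zero (h : Tup M B) (p : ℕ) (hp : p.Prime) (hpM : p ∣ M) : nuB (Q (tf M B)) p = 0 := by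
  classical
  have h1 : nuB (Q (tf M B)) p = ((range p).filter (fun x => Q (tf M B) p x)).card := by
    unfold nuB
    exact card_iff _ _ (fun r _ => Iff.rfl)
  rw [h1, Finset.card_eq_zero, Finset.filter_eq_empty_iff]
  intro x _
  exact h.none p x hp hpM

/-- conversion of an asymptotic formula -/
lemma conv (c L L' Y Y' W ε : ℝ) (hε : 0 < ε) (hε1 : ε ≤ 1) (hc : 0 ≤ c) (hL' : 0 ≤ L') (hY' : 0 ≤ Y')
    (hW : 0 ≤ W) (h1 : |c * L - Y * W| ≤ ε / 4 * (Y * W)) (h2 : |L - L'| ≤ ε / 16 * L')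
    (h3 : |Y - Y'| ≤ ε / 16 * Y') : |c * L' - Y' * W| ≤ ε * (Y' * W) := by
  obtain ⟨a1, a2⟩ := abs_le.1 h1
  obtain ⟨b1, b2⟩ := abs_le.1 h2
  obtain ⟨d1, d2⟩ := abs_le.1 h3
  obtain ⟨m, hm⟩ : ∃ m, m = Y' * W := ⟨_, rfl⟩
  have hm0 : 0 ≤ m := by rw [hm]; positivity
  have e1 : Y * W ≤ (1 + ε / 16) * m := by
    rw [hm]
    calc Y * W ≤ ((1 + ε / 16) * Y') * W := mul_le_mul_of_nonneg_right (by linarith) hW
      _ = _ := by ring
  have e2 : (1 - ε / 16) * m ≤ Y * W := by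
    rw [hm]
    calc (1 - ε / 16) * (Y' * W) = ((1 - ε / 16) * Y') * W := by ring
      _ ≤ Y * W := mul_le_mul_of_nonneg_right (by linarith) hW
  have hYW0 : 0 ≤ Y * W := by
    refine le_trans ?_ e2
    exact mul_nonneg (by linarith) hm0
  have f1 : c * L ≤ (1 + ε / 4) * ((1 + ε / 16) * m) := by
    calc c * L ≤ (1 + ε / 4) * (Y * W) := by linarith
      _ ≤ _ := mul_le_mul_of_nonneg_left e1 (by linarith)
  have f2 : (1 - ε / 4) * ((1 - ε / 16) * m) ≤ c * L := by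
    calc (1 - ε / 4) * ((1 - ε / 16) * m) ≤ (1 - ε / 4) * (Y * W) :=
          mul_le_mul_of_nonneg_left e2 (by linarith)
      _ ≤ c * L := by linarith
  have g1 : c * (L' * (1 - ε / 16)) ≤ c * L := mul_le_mul_of_nonneg_left (by linarith) hc
  have g2 : c * L ≤ c * (L' * (1 + ε / 16)) := mul_le_mul_of_nonneg_left (by linarith) hc
  have hcL' : 0 ≤ c * L' := mul_nonneg hc hL'
  rw [← hm]
  have hεm : 0 ≤ ε * m := by positivity
  have hε2m : 0 ≤ ε * (ε * m) := by positivity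
  have hε2m' : ε * (ε * m) ≤ ε * m := by
    calc ε * (ε * m) ≤ 1 * (ε * m) := mul_le_mul_of_nonneg_right hε1 hεm
      _ = ε * m := one_mul _
  have hεc : 0 ≤ ε * (c * L') := by positivity
  have hup : c * L' * (1 - ε / 16) ≤ (1 + ε / 4) * ((1 + ε / 16) * m) := by linarith
  have hlo : (1 - ε / 4) * ((1 - ε / 16) * m) ≤ c * L' * (1 + ε / 16) := by linarith
  -- a first bound for `c L'`
  have hfirst : c * L' ≤ 2 * m := by
    have h5 : c * L' * (15 / 16) ≤ c * L' * (1 - ε / 16) := mul_le_mul_of_nonneg_left (by linarith) hcL'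
    have h6 : (1 + ε / 4) * ((1 + ε / 16) * m) ≤ (1 + 1 / 4) * ((1 + 1 / 16) * m) := by
      apply mul_le_mul (by linarith) _ (by positivity) (by norm_num)
      exact mul_le_mul_of_nonneg_right (by linarith) hm0
    linarith
  have hεfirst : ε * (c * L') ≤ ε * (2 * m) := mul_le_mul_of_nonneg_left hfirst hε.le
  rw [abs_le]
  constructor
  · have e3 : (1 - ε / 4) * ((1 - ε / 16) * m) = m - 5 / 16 * (ε * m) + (ε * (ε * m)) / 64 := by ring
    have e4 : c * L' * (1 + ε / 16) = c * L' + ε * (c * L') / 16 := by ring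
    rw [e3, e4] at hlo
    linarith
  · have e3 : (1 + ε / 4) * ((1 + ε / 16) * m) = m + 5 / 16 * (ε * m) + (ε * (ε * m)) / 64 := by ring
    have e4 : c * L' * (1 - ε / 16) = c * L' - ε * (c * L') / 16 := by ring
    rw [e3, e4] at hup
    linarith

end Pool.Agent.Y879.PR
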