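import Pool.Agent.Y879.PR.Full
import Pool.Agent.Y879.PR.VBase
import Pool.Agent.Y879.PR.Tup
import Pool.Agent.Y879.GL.Pattern

set_option autoImplicit false

/-!
# Goldbach: the primes `p` in `(u, u + Y]` with `N - p` almost prime, for every even `N`
-/

namespace Pool.Agent.Y879.PR

open Polynomial Finset Filter
open Pool.Agent.W123.RP Pool.Agent.H373R2.T7 Pool.Agent.W123.RU Pool.Agent.W123.RU.Poly
open Pool.Agent.TH464.PW Pool.Agent.TH464.PO Pool.Agent.Y879.AP Pool.Agent.Y879.GL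

/-- neither `n` nor `N - n` has a prime factor `p ≤ N ^ (1 / r)` -/
def GGood (N r n : ℕ) : Prop :=
  ∀ p : ℕ, p.Prime → (p : ℝ) ≤ (N : ℝ) ^ (1 / (r : ℝ)) → ¬ (p : ℤ) ∣ (n : ℤ) ∧ ¬ (p : ℤ) ∣ (N : ℤ) - n

/-- the number of the residue classes `0` and `N` modulo `p` -/
def gnu (N p : ℕ) : ℕ := if p ∣ N then 1 else 2

/-- the density of the good numbers -/
noncomputable def GV (N r : ℕ) : ℝ :=
  ∏ p ∈ (Icc 1 ⌊(N : ℝ) ^ (1 / (r : ℝ))⌋₊).filter Nat.Prime, (1 - (gnu N p : ℝ) / p)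

/-- the density of the good numbers among the primes -/
noncomputable def GW (N r : ℕ) : ℝ :=
  ∏ p ∈ (Icc 1 ⌊(N : ℝ) ^ (1 / (r : ℝ))⌋₊).filter Nat.Prime, (1 - (gnu N p : ℝ) / p) / (1 - 1 / (p : ℝ))

lemma g_he : (-1 : ℤ) * (-1) = 1 := by norm_num

lemma ggood_iff (N r n : ℕ) : GGood N r n ↔ Sf (Q (pf (-1) (N : ℤ) 1 0)) ⌊(N : ℝ) ^ (1 / (r : ℝ))⌋₊ n := by
  have key : ∀ p : ℕ, p.Prime → (¬ Q (pf (-1) (N : ℤ) 1 0) p n ↔
      ¬ (p : ℤ) ∣ (n : ℤ) ∧ ¬ (p : ℤ) ∣ (N : ℤ) - n) := by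
    intro p hp
    have hpi : Prime (p : ℤ) := Nat.prime_iff_prime_int.1 hp
    rw [pf_Q _ _ 1 0 p n hp]
    unfold Q2
    rw [hpi.dvd_mul, not_or]
    push_cast
    rw [show (-1 : ℤ) * (1 * n + 0) + N = (N : ℤ) - n by ring, show (1 : ℤ) * n + 0 = n by ring]
  unfold GGood Sf
  constructor
  · intro h p hp
    obtain ⟨hp1, hp2⟩ := mem_pz.1 hp
    exact (key p hp2).2 (h p hp2 ((Nat.le_floor_iff (by positivity)).1 hp1))
  · intro h p hp hpr
    exact (key p hp).1 (h p (mem_pz.2 ⟨Nat.le_floor hpr, hp⟩))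

lemma gnu_eq (N p : ℕ) (hp : p.Prime) : nuB (Qn (Q2 (-1) (N : ℤ)) 1) p = gnu N p := by
  have h : ¬ p ∣ 1 := fun h => hp.one_lt.ne' (Nat.dvd_one.1 h)
  rw [nuB_Qn_not _ _ _ h, nuB_Q2 _ _ g_he p hp]
  unfold gnu nu2
  by_cases h2 : p ∣ N
  · rw [if_pos h2, if_pos (Int.natCast_dvd_natCast.2 h2)]
  · rw [if_neg h2, if_neg (fun h3 => h2 (Int.natCast_dvd_natCast.1 h3))]

lemma g_cop (N : ℕ) : IsCoprime ((1 : ℕ) : ℤ) ((-1) * ((0 : ℕ) : ℤ) + (N : ℤ)) := by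
  push_cast
  exact isCoprime_one_left

lemma GV_eq (N r : ℕ) : GV N r = Vq (Q (pf (-1) (N : ℤ) 1 0)) ⌊(N : ℝ) ^ (1 / (r : ℝ))⌋₊ := by
  rw [pf_Vq _ _ g_he 1 0 _ (by norm_num) (g_cop N)]
  unfold GV Vq
  apply Finset.prod_congr rfl
  intro p hp
  rw [gnu_eq N p (mem_pz.1 hp).2]

lemma GW_eq (N r : ℕ) : GW N r = GV N r / Vz ⌊(N : ℝ) ^ (1 / (r : ℝ))⌋₊ := by
  unfold GW GV Vz
  rw [Finset.prod_div_distrib]
  rfl

lemma GW_pos (N r : ℕ) (hev : Even N) : 0 < GW N r := by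
  rw [GW_eq]
  refine div_pos ?_ (Pool.Agent.Y879.PR.Vz_pos _)
  unfold GV
  apply Finset.prod_pos
  intro p hp
  have hpp := (Finset.mem_filter.1 hp).2
  have hlt := adm_Qn _ (adm_Q2 (-1) (N : ℤ) g_he (by exact_mod_cast hev)) 1 p hpp
  rw [gnu_eq N p hpp] at hlt
  have h5 : (gnu N p : ℝ) < p := by exact_mod_cast hlt
  have h6 : (0 : ℝ) < p := by exact_mod_cast hpp.pos
  rw [sub_pos, div_lt_one h6]
  exact h5

open Classical in
/-- the law -/
theorem gold_full (θ δ x₀ ε : ℝ) (hθ : 0 < θ) (hδ : 0 < δ) (hδ1 : δ ≤ 1) (hε : 0 < ε) (hε1 : ε ≤ 1) :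
    ∃ r₀ : ℕ, 2 ≤ r₀ ∧ ∀ r : ℕ, r₀ ≤ r → ∀ᶠ N : ℕ in atTop, Even N →
      ∀ X u Y : ℕ, (N : ℝ) ^ θ ≤ X → δ * X ≤ Y → u + Y ≤ X →
        |(((Ioc u (u + Y)).filter (fun p => p.Prime ∧ GGood N r p)).card : ℝ) * Real.log X - Y * GW N r| ≤
          ε * (Y * GW N r) ∧
        ∀ T : ℕ, T * GV N r ≤ x₀ → ∀ B : Finset ℕ,
          |((((Ioc u (u + Y)).filter (fun p => p.Prime ∧ GGood N r p)).filter
              (fun p => ((Ioc p (p + T)).filter (GGood N r)).card ∈ B)).card : ℝ) -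
            ((Ioc u (u + Y)).filter (fun p => p.Prime ∧ GGood N r p)).card *
              ∑ j ∈ B, Real.exp (-(T * GV N r)) * (T * GV N r) ^ j / j.factorial| ≤
            ε * ((Ioc u (u + Y)).filter (fun p => p.Prime ∧ GGood N r p)).card := by
  obtain ⟨r0, hr0, h⟩ := prime_full 1 2 1 squarefree_one 2 (1 / 2) θ δ (by norm_num) (by norm_num) hθ hδ
    hδ1 x₀ ε hε hε1
  refine ⟨r0, hr0, ?_⟩
  intro r hr
  have hr2 : 2 ≤ r := hr0.trans hr
  obtain ⟨M, hM, hV⟩ := pf_Vup 1 one_pos r hr2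
  filter_upwards [h r hr M, hV, eventually_ge_atTop 4] with N hN hVN hN4 hev X u Y hX hY huY
  have hN4r : (4 : ℝ) ≤ N := by exact_mod_cast hN4
  have hN0 : (0 : ℝ) < N := by linarith
  have hN1 : (1 : ℝ) < N := by linarith
  have hevZ : Even (N : ℤ) := by exact_mod_cast hev
  have hus := pf_us (-1) (N : ℤ) g_he hevZ 1 0 le_rfl (by norm_num) (g_cop N) ((N : ℝ) ^ (2 : ℝ))
    (by
      push_cast
      exact Real.one_le_rpow hN1.le (by norm_num))
    (by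
      push_cast
      rw [abs_of_pos hN0, zero_add]
      calc (N : ℝ) = (N : ℝ) ^ (1 : ℝ) := (Real.rpow_one _).symm
        _ ≤ (N : ℝ) ^ (2 : ℝ) := Real.rpow_le_rpow_of_exponent_le hN1.le (by norm_num))
  have hno := pf_noas (-1) (N : ℤ) g_he 1 0 le_rfl ∅ ((N : ℝ) ^ ((1 : ℝ) / 2)) (by
    intro t ht htN _ h7
    have h5 : (t : ℝ) < N := by
      refine htN.trans_lt ?_
      calc (N : ℝ) ^ ((1 : ℝ) / 2) < (N : ℝ) ^ (1 : ℝ) :=
            Real.rpow_lt_rpow_of_exponent_lt hN1 (by norm_num)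
        _ = N := Real.rpow_one _
    have h6 : t < N := by exact_mod_cast h5
    have h8 : (t : ℤ) < N := by exact_mod_cast h6
    have h9 : (0 : ℤ) ≤ t := by positivity
    push_cast at h7
    nlinarith)
  have hus2 : US 2 1 ((N : ℝ) ^ (2 : ℝ)) ((N : ℝ) ^ ((1 : ℝ) / 2)) (pf (-1) (N : ℤ) 1 0) :=
    { irr := hus.irr, deg := hus.deg, degD := hus.degD, hgt := hus.hgt, adm := hus.adm
      tr := fun i j t ht htU => hno i j t ht htU (by simp) }
  have h1 := hN (pf (-1) (N : ℤ) 1 0) 0 hus2 (by norm_num)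
    (fun p n hp hp1 => absurd (Nat.dvd_one.1 hp1) hp.one_lt.ne')
    ⟨0, fun n => by
      unfold pf
      rw [lf_eval]
      simp [ca, cb]⟩
    (by
      rw [pf_Vq _ _ g_he 1 0 _ (by norm_num) (g_cop N)]
      exact hVN (-1) (N : ℤ) 1 g_he hevZ (by exact_mod_cast (by omega : N ≠ 0))
        (by
          rw [Real.rpow_one]
          push_cast
          rw [abs_of_pos hN0]) le_rfl
        (by
          rw [Real.rpow_one]
          push_cast
          exact hN1.le))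
    (by
      push_cast
      positivity)
    X hX u Y hY huY
  have hgf : GGood N r = Sf (Q (pf (-1) (N : ℤ) 1 0)) ⌊(N : ℝ) ^ (1 / (r : ℝ))⌋₊ :=
    funext fun m => propext (ggood_iff N r m)
  have hpr : (Ioc u (u + Y)).filter (fun p => p.Prime ∧ GGood N r p) =
      Om 1 0 (Q (pf (-1) (N : ℤ) 1 0)) ⌊(N : ℝ) ^ (1 / (r : ℝ))⌋₊ u Y := by
    unfold Om
    ext n
    simp only [Finset.mem_filter, one_mul, add_zero, ggood_iff]
  rw [← hpr, ← GV_eq, ← GW_eq] at h1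
  refine ⟨h1.1, ?_⟩
  intro T hT B
  have h2 := h1.2 T hT B
  unfold Wc at h2
  rw [← hgf] at h2
  exact h2

/-- good numbers have few prime factors -/
lemma ggood_few (N r : ℕ) (hr : r ≠ 0) (hN : 0 < N) (hz : (1 : ℝ) < (N : ℝ) ^ (1 / (r : ℝ))) (n : ℕ)
    (hn : 0 < n) (hnN : n < N) (hg : GGood N r n) :
    n.primeFactorsList.length ≤ r ∧ (N - n).primeFactorsList.length ≤ r := by
  have hrr : (r : ℝ) ≠ 0 := by exact_mod_cast hr
  have hpow : ((N : ℝ) ^ (1 / (r : ℝ))) ^ r = N := by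
    rw [← Real.rpow_natCast, ← Real.rpow_mul (Nat.cast_nonneg _), one_div, inv_mul_cancel₀ hrr,
      Real.rpow_one]
  constructor
  · refine few_of_rough ((N : ℝ) ^ (1 / (r : ℝ))) hz n r (by omega) ?_ ?_
    · rw [hpow]
      exact_mod_cast hnN.le
    · intro p hp hpn
      by_contra hcon
      rw [not_lt] at hcon
      exact (hg p hp hcon).1 (Int.natCast_dvd_natCast.2 hpn)
  · refine few_of_rough ((N : ℝ) ^ (1 / (r : ℝ))) hz (N - n) r (by omega) ?_ ?_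
    · rw [hpow]
      exact_mod_cast Nat.sub_le _ _
    · intro p hp hpn
      by_contra hcon
      rw [not_lt] at hcon
      refine (hg p hp hcon).2 ?_
      have h5 := Int.natCast_dvd_natCast.2 hpn
      rw [Nat.cast_sub hnN.le] at h5
      exact h5

/-- large prime pairs are good -/
lemma ggood_prime (N r n : ℕ) (hp1 : n.Prime) (hp2 : (N - n).Prime) (hb1 : (N : ℝ) ^ (1 / (r : ℝ)) < (n : ℝ))
    (hb2 : (N : ℝ) ^ (1 / (r : ℝ)) < ((N - n : ℕ) : ℝ)) : GGood N r n := by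
  intro p hp hpr
  constructor
  · intro hd
    rw [(Nat.prime_dvd_prime_iff_eq hp hp1).1 (Int.natCast_dvd_natCast.1 hd)] at hpr
    linarith
  · intro hd
    have hlt : n < N := by
      by_contra hcon
      rw [not_lt] at hcon
      rw [Nat.sub_eq_zero_of_le hcon] at hp2
      exact Nat.not_prime_zero hp2
    have h4 : p ∣ N - n := by
      apply Int.natCast_dvd_natCast.1
      rw [Nat.cast_sub hlt.le]
      exact hd
    rw [(Nat.prime_dvd_prime_iff_eq hp hp2).1 h4] at hpr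
    linarith

end Pool.Agent.Y879.PR
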