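import Pool.Agent.Y879.PR.Tup
import Pool.Agent.Y879.GL.Pattern

set_option autoImplicit false

/-!
# The gap laws for tuples `M x + B i` in all intervals
-/

namespace Pool.Agent.Y879.PR

open Polynomial Finset Filter
open Pool.Agent.W123.RP Pool.Agent.H373R2.T7 Pool.Agent.W123.RU Pool.Agent.W123.RU.Poly
open Pool.Agent.TH464.PW Pool.Agent.TH464.PO Pool.Agent.Y879.AP Pool.Agent.Y879.GL

variable {k M : ℕ} {B : Fin k → ℕ}

/-- no `M x + B i` has a prime factor `p ≤ N ^ (1 / r)` -/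
def TG (M : ℕ) (B : Fin k → ℕ) (N r x : ℕ) : Prop :=
  ∀ p : ℕ, p.Prime → (p : ℝ) ≤ (N : ℝ) ^ (1 / (r : ℝ)) → ∀ i, ¬ p ∣ M * x + B i

open Classical in
/-- the good `x` in `(u, u + Y]` with fewer than `j` good numbers in `[x - T, x)` -/
noncomputable def TNear (M : ℕ) (B : Fin k → ℕ) (N r j T u Y : ℕ) : ℕ :=
  ((Ioc u (u + Y)).filter (fun x => TG M B N r x ∧ ((Ico (x - T) x).filter (TG M B N r)).card < j)).card

lemma tg_iff (N r x : ℕ) : TG M B N r x ↔ Sf (Q (tf M B)) ⌊(N : ℝ) ^ (1 / (r : ℝ))⌋₊ x := by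
  have key : ∀ p : ℕ, (¬ Q (tf M B) p x ↔ ∀ i, ¬ p ∣ M * x + B i) := by
    intro p
    rw [tf_Q]
    push Not
    rfl
  unfold TG Sf
  constructor
  · intro h p hp
    obtain ⟨hp1, hp2⟩ := mem_pz.1 hp
    exact (key p).2 (h p hp2 ((Nat.le_floor_iff (by positivity)).1 hp1))
  · intro h p hp hpr
    exact (key p).1 (h p (mem_pz.2 ⟨Nat.le_floor hpr, hp⟩))

/-- **The gap laws of a tuple, in all intervals of length at least `N ^ θ`.** -/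
theorem tup_gap (h : Tup M B) (θ ε x0 : ℝ) (k0 : ℕ) (hθ : 0 < θ) (hε : 0 < ε) :
    ∃ r0 : ℕ, 2 ≤ r0 ∧ ∀ r : ℕ, r0 ≤ r → ∃ v : ℝ, 0 < v ∧ ∀ᶠ N : ℕ in atTop,
      v / Real.log N ^ (k + 1) ≤ Vq (Q (tf M B)) ⌊(N : ℝ) ^ (1 / (r : ℝ))⌋₊ ∧
      (40 : ℝ) < (N : ℝ) ^ (1 / (r : ℝ)) ∧
      ∀ u Y j T : ℕ, (N : ℝ) ^ θ ≤ Y → (j ≤ k0 ∨ T * Vq (Q (tf M B)) ⌊(N : ℝ) ^ (1 / (r : ℝ))⌋₊ ≤ x0) →
        |(TNear M B N r j T u Y : ℝ) - Y * Vq (Q (tf M B)) ⌊(N : ℝ) ^ (1 / (r : ℝ))⌋₊ *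
          ∑ i ∈ range j, Real.exp (-(T * Vq (Q (tf M B)) ⌊(N : ℝ) ^ (1 / (r : ℝ))⌋₊)) *
            (T * Vq (Q (tf M B)) ⌊(N : ℝ) ^ (1 / (r : ℝ))⌋₊) ^ i / i.factorial| ≤
          ε * (Y * Vq (Q (tf M B)) ⌊(N : ℝ) ^ (1 / (r : ℝ))⌋₊) := by
  obtain ⟨r1, h1⟩ := gap_polys k 1 1 1 θ one_pos one_pos hθ k0 x0 ε hε
  refine ⟨max r1 2, le_max_right _ _, ?_⟩
  intro r hr
  have hr2 : 2 ≤ r := (le_max_right _ _).trans hr
  have hrr : (2 : ℝ) ≤ r := by exact_mod_cast hr2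
  obtain ⟨v, hv, hVlow⟩ := V_low_log (k * 1 + 1) r hr2
  obtain ⟨C, hC, hV⟩ := V_up_base M h.mpos r hr2
  refine ⟨v, hv, ?_⟩
  have hz : ∀ᶠ N : ℕ in atTop, (40 : ℝ) < (N : ℝ) ^ (1 / (r : ℝ)) :=
    ((tendsto_rpow_atTop (by positivity)).comp tendsto_natCast_atTop_atTop).eventually_gt_atTop _
  filter_upwards [h1 r ((le_max_left _ _).trans hr) C, hV, hVlow, hz, eventually_ge_atTop (M + ∑ i, B i)]
    with N hN hVN hlow hzN hNM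
  have hle : ∀ i, B i ≤ ∑ i, B i := fun i => Finset.single_le_sum (fun _ _ => Nat.zero_le _) (mem_univ i)
  have hus : US k 1 ((N : ℝ) ^ (1 : ℝ)) ((N : ℝ) ^ (1 : ℝ)) (tf M B) := by
    apply h.us
    · rw [Real.rpow_one]
      exact_mod_cast (by omega : M ≤ N)
    · intro i
      rw [Real.rpow_one]
      have := hle i
      exact_mod_cast (by omega : B i ≤ N)
  refine ⟨?_, hzN, ?_⟩
  · have h2 := hlow (Q (tf M B)) (us_perB hus) (us_adm hus)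
    simpa using h2
  · intro u Y j T hY hj
    have h4 := hN (tf M B) hus (hVN _ (fun p hp hpM => h.nu p hp hpM)) u Y hY j T hj
    have e : (TNear M B N r j T u Y) = Pk (Sf (Q (tf M B)) ⌊(N : ℝ) ^ (1 / (r : ℝ))⌋₊) j T u Y := by
      have e1 : Sf (Q (tf M B)) ⌊(N : ℝ) ^ (1 / (r : ℝ))⌋₊ = TG M B N r :=
        funext fun n => propext (tg_iff N r n).symm
      rw [e1]
      rfl
    rw [e]
    exact h4

end Pool.Agent.Y879.PR
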