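import Pool.Agent.Y879.PR.HLc
import Pool.Agent.Y879.PR.TupGap

set_option autoImplicit false

/-!
# The densities in terms of the Hardy-Littlewood constants
-/

namespace Pool.Agent.Y879.PR

open Polynomial Finset Filter
open Pool.Agent.W123.RP Pool.Agent.H373R2.T7 Pool.Agent.W123.RU Pool.Agent.W123.RU.Poly
open Pool.Agent.TH464.PW Pool.Agent.TH464.PO Pool.Agent.Y879.AP Pool.Agent.Y879.GL

lemma fl_tendsto (r : ℕ) (hr : 2 ≤ r) :
    Tendsto (fun q : ℕ => ⌊(q : ℝ) ^ (1 / (r : ℝ))⌋₊) atTop atTop := by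
  have hrr : (2 : ℝ) ≤ r := by exact_mod_cast hr
  exact tendsto_nat_floor_atTop.comp
    ((tendsto_rpow_atTop (by positivity)).comp tendsto_natCast_atTop_atTop)

/-- `PV` in terms of the constant -/
lemma PV_lim (k : ℕ) (hk : k = 3 ∨ k = 4) (S : ℝ) (hS : Tendsto (HF k) atTop (nhds S)) (r : ℕ) (hr : 2 ≤ r) :
    Tendsto (fun N : ℕ => PV 30 k N r * Real.log N ^ k) atTop
      (nhds (3 ^ k * (5 / (5 - k)) * S * (r * Real.exp (-Real.eulerMascheroniConstant)) ^ k)) := by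
  have hfl := fl_tendsto r hr
  have h1 : Tendsto (fun N : ℕ => 3 ^ k * (5 / (5 - k)) * HF k (⌊(N : ℝ) ^ (1 / (r : ℝ))⌋₊ + 1)) atTop
      (nhds (3 ^ k * (5 / (5 - k)) * S)) :=
    ((hS.comp ((tendsto_add_atTop_nat 1).comp hfl)).const_mul _)
  have h2 := (Vz_asym r hr).pow k
  refine (h1.mul h2).congr' ?_
  filter_upwards [hfl.eventually_ge_atTop 5] with N hN
  rw [← full_prod k _ hk hN, mul_pow, ← mul_assoc]
  congr 1
  unfold PV
  have hVz : Vz ⌊(N : ℝ) ^ (1 / (r : ℝ))⌋₊ = ∏ p ∈ pz ⌊(N : ℝ) ^ (1 / (r : ℝ))⌋₊, (1 - 1 / (p : ℝ)) := rfl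
  rw [hVz, ← Finset.prod_pow, ← Finset.prod_mul_distrib]
  apply Finset.prod_congr rfl
  intro p hp
  have h2 : (2 : ℝ) ≤ p := by exact_mod_cast (mem_pz.1 hp).2.two_le
  have h3 : 1 - 1 / (p : ℝ) ≠ 0 := by
    have : 1 / (p : ℝ) ≤ 1 / 2 := by gcongr
    linarith
  generalize 1 - 1 / (p : ℝ) = t at h3 ⊢
  field_simp

/-! ## Pairs modulo 6 -/

/-- the product of `(1 - 2 / p) / (1 - 1 / p) ^ 2` over the primes `3 ≤ p < N` -/
noncomputable def H2 (N : ℕ) : ℝ :=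
  ∏ p ∈ (range N).filter (fun p => p.Prime ∧ 2 < p), (1 - 2 / (p : ℝ)) / (1 - 1 / (p : ℝ)) ^ 2

/-- the product converges to a positive limit -/
theorem H2_lim : ∃ S : ℝ, 0 < S ∧ Tendsto H2 atTop (nhds S) := by
  classical
  obtain ⟨g, hg⟩ : ∃ g : ℕ → ℝ, g = fun n : ℕ => if n.Prime ∧ 2 < n then
    (1 - 2 / (n : ℝ)) / (1 - 1 / (n : ℝ)) ^ 2 - 1 else 0 := ⟨_, rfl⟩
  have hgpos : ∀ n, 0 < 1 + g n := by
    intro n
    rw [hg]
    simp only
    split_ifs with h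
    · have h5 : (3 : ℝ) ≤ n := by exact_mod_cast h.2
      have h6 : 0 < 1 - 2 / (n : ℝ) := by
        rw [sub_pos, div_lt_one (by linarith)]
        linarith
      have h7 : 0 < 1 - 1 / (n : ℝ) := by
        rw [sub_pos, div_lt_one (by linarith)]
        linarith
      rw [add_sub_cancel]
      positivity
    · norm_num
  have hgsum : Summable g := by
    have h1 : Summable (fun n : ℕ => 4 / (n : ℝ) ^ 2) := by
      have := (Real.summable_one_div_nat_pow (p := 2)).2 (by norm_num)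
      simpa [div_eq_mul_inv] using this.mul_left 4
    refine Summable.of_norm_bounded h1 ?_
    intro n
    rw [hg]
    simp only
    split_ifs with h
    · have h5 : (3 : ℝ) ≤ n := by exact_mod_cast h.2
      obtain ⟨x, hx⟩ : ∃ x : ℝ, x = 1 / n := ⟨_, rfl⟩
      have hx0 : 0 < x := by rw [hx]; positivity
      have hx5 : x ≤ 1 / 3 := by
        rw [hx]
        exact one_div_le_one_div_of_le (by norm_num) h5
      have e1 : 2 / (n : ℝ) = 2 * x := by rw [hx]; ring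
      have e2 : 4 / (n : ℝ) ^ 2 = 4 * x ^ 2 := by rw [hx]; field_simp
      rw [e1, e2, ← hx, Real.norm_eq_abs]
      have hd0 : 0 < (1 - x) ^ 2 := pow_pos (by linarith) _
      have hd1 : (1 / 2 : ℝ) ^ 2 ≤ (1 - x) ^ 2 := pow_le_pow_left₀ (by norm_num) (by linarith) 2
      have hne : (1 - x) ^ 2 ≠ 0 := hd0.ne'
      rw [show (1 - 2 * x) / (1 - x) ^ 2 - 1 = -(x ^ 2) / (1 - x) ^ 2 by
        rw [div_sub_one hne]; congr 1; ring, abs_div,
        abs_of_pos hd0, abs_neg, abs_of_pos (by positivity : 0 < x ^ 2), div_le_iff₀ hd0]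
      have : 4 * x ^ 2 * ((1 / 2 : ℝ) ^ 2) ≤ 4 * x ^ 2 * (1 - x) ^ 2 :=
        mul_le_mul_of_nonneg_left hd1 (by positivity)
      norm_num at this
      linarith
    · simp
      positivity
  have hlog : Summable (fun n => Real.log (1 + g n)) := Real.summable_log_one_add_of_summable hgsum
  refine ⟨Real.exp (∑' n, Real.log (1 + g n)), Real.exp_pos _, ?_⟩
  have h2 := (Real.continuous_exp.tendsto _).comp hlog.hasSum.tendsto_sum_nat
  refine h2.congr ?_
  intro N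
  simp only [Function.comp]
  rw [Real.exp_sum]
  unfold H2
  rw [Finset.prod_filter]
  apply Finset.prod_congr rfl
  intro n _
  rw [Real.exp_log (hgpos n), hg]
  simp only
  split_ifs with h <;> ring

/-- `0` for `2` and `3`, otherwise `2` -/
def nu6 (p : ℕ) : ℕ := if p ∣ 6 then 0 else 2

lemma full6 (z : ℕ) (hz : 3 ≤ z) :
    ∏ p ∈ pz z, (1 - (nu6 p : ℝ) / p) / (1 - 1 / (p : ℝ)) ^ 2 = 12 * H2 (z + 1) := by
  have hsplit : pz z = insert 2 ((range (z + 1)).filter (fun p => p.Prime ∧ 2 < p)) := by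
    ext p
    simp only [mem_pz, Finset.mem_insert, Finset.mem_filter, Finset.mem_range]
    constructor
    · rintro ⟨h1, h2⟩
      by_cases h3 : 2 < p
      · exact Or.inr ⟨by omega, h2, h3⟩
      · have := h2.two_le
        omega
    · rintro (rfl | ⟨h1, h2, h3⟩)
      · exact ⟨by omega, Nat.prime_two⟩
      · exact ⟨by omega, h2⟩
  rw [hsplit, Finset.prod_insert (by simp)]
  have h3 : 3 ∈ (range (z + 1)).filter (fun p => p.Prime ∧ 2 < p) := by
    simp only [Finset.mem_filter, Finset.mem_range]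
    exact ⟨by omega, Nat.prime_three, by norm_num⟩
  unfold H2
  rw [← Finset.mul_prod_erase _ _ h3,
    ← Finset.mul_prod_erase _ (fun p : ℕ => (1 - 2 / (p : ℝ)) / (1 - 1 / (p : ℝ)) ^ 2) h3]
  have hrest : ∏ p ∈ ((range (z + 1)).filter (fun p => p.Prime ∧ 2 < p)).erase 3,
      (1 - (nu6 p : ℝ) / p) / (1 - 1 / (p : ℝ)) ^ 2 =
      ∏ p ∈ ((range (z + 1)).filter (fun p => p.Prime ∧ 2 < p)).erase 3,
        (1 - 2 / (p : ℝ)) / (1 - 1 / (p : ℝ)) ^ 2 := by
    apply Finset.prod_congr rfl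
    intro p hp
    simp only [Finset.mem_erase, Finset.mem_filter, Finset.mem_range] at hp
    obtain ⟨h1, h2, h4, h5⟩ := hp
    have hnd : ¬ p ∣ 6 := by
      intro hd
      have h6 : p ∣ 2 * 3 := by norm_num; exact hd
      rcases (h4.dvd_mul).1 h6 with h7 | h7
      · have := Nat.le_of_dvd (by norm_num) h7
        omega
      · exact h1 ((Nat.prime_dvd_prime_iff_eq h4 Nat.prime_three).1 h7)
    unfold nu6
    rw [if_neg hnd, Nat.cast_ofNat]
  rw [hrest]
  unfold nu6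
  rw [if_pos (by norm_num), if_pos (by norm_num)]
  norm_num
  ring

/-- the density of the pairs in terms of the constant -/
lemma V6_lim (S : ℝ) (hS : Tendsto H2 atTop (nhds S)) (r : ℕ) (hr : 2 ≤ r) :
    Tendsto (fun N : ℕ => (∏ p ∈ pz ⌊(N : ℝ) ^ (1 / (r : ℝ))⌋₊, (1 - (nu6 p : ℝ) / p)) * Real.log N ^ 2) atTop
      (nhds (12 * S * (r * Real.exp (-Real.eulerMascheroniConstant)) ^ 2)) := by
  have hfl := fl_tendsto r hr
  have h1 : Tendsto (fun N : ℕ => 12 * H2 (⌊(N : ℝ) ^ (1 / (r : ℝ))⌋₊ + 1)) atTop (nhds (12 * S)) :=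
    ((hS.comp ((tendsto_add_atTop_nat 1).comp hfl)).const_mul _)
  have h2 := (Vz_asym r hr).pow 2
  refine (h1.mul h2).congr' ?_
  filter_upwards [hfl.eventually_ge_atTop 3] with N hN
  rw [← full6 _ hN, mul_pow, ← mul_assoc]
  congr 1
  have hVz : Vz ⌊(N : ℝ) ^ (1 / (r : ℝ))⌋₊ = ∏ p ∈ pz ⌊(N : ℝ) ^ (1 / (r : ℝ))⌋₊, (1 - 1 / (p : ℝ)) := rfl
  rw [hVz, ← Finset.prod_pow, ← Finset.prod_mul_distrib]
  apply Finset.prod_congr rfl
  intro p hp
  have h2 : (2 : ℝ) ≤ p := by exact_mod_cast (mem_pz.1 hp).2.two_le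
  have h3 : 1 - 1 / (p : ℝ) ≠ 0 := by
    have : 1 / (p : ℝ) ≤ 1 / 2 := by gcongr
    linarith
  generalize 1 - 1 / (p : ℝ) = t at h3 ⊢
  field_simp

end Pool.Agent.Y879.PR
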