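import Pool.Agent.Y879.PR.Gold
import Pool.Agent.Y879.PR.HLd
import Pool.Agent.Y879.AP.Phi

set_option autoImplicit false

/-!
# The density of the Goldbach primes in terms of the singular series, uniformly in even `N`
-/

namespace Pool.Agent.Y879.PR

open Polynomial Finset Filter
open Pool.Agent.W123.RP Pool.Agent.H373R2.T7 Pool.Agent.W123.RU Pool.Agent.W123.RU.Poly
open Pool.Agent.TH464.PW Pool.Agent.TH464.PO Pool.Agent.Y879.AP Pool.Agent.Y879.GL

/-- the product of `(p - 1) / (p - 2)` over the primes `p > 2` dividing `N` -/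
noncomputable def SF (N : ℕ) : ℝ :=
  ∏ p ∈ N.primeFactors.filter (fun p => 2 < p), ((p : ℝ) - 1) / ((p : ℝ) - 2)

lemma one_le_pr (s : Finset ℕ) (f : ℕ → ℝ) (h : ∀ p ∈ s, 1 ≤ f p) : 1 ≤ ∏ p ∈ s, f p :=
  Finset.prod_induction f (fun x => 1 ≤ x) (fun _ _ ha hb => one_le_mul_of_one_le_of_one_le ha hb) le_rfl h

lemma SF_ge (N : ℕ) : 1 ≤ SF N := by
  unfold SF
  apply one_le_pr
  intro p hp
  have h2 : (2 : ℝ) < p := by exact_mod_cast (Finset.mem_filter.1 hp).2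
  rw [le_div_iff₀ (by linarith)]
  linarith

lemma GW_prod (N r : ℕ) (hev : Even N) (hN : N ≠ 0) (h3 : 3 ≤ ⌊(N : ℝ) ^ (1 / (r : ℝ))⌋₊) :
    GW N r * ∏ p ∈ (N.primeFactors.filter (fun p => 2 < p)).filter (fun p => ⌊(N : ℝ) ^ (1 / (r : ℝ))⌋₊ < p),
      ((p : ℝ) - 1) / ((p : ℝ) - 2) =
    2 * H2 (⌊(N : ℝ) ^ (1 / (r : ℝ))⌋₊ + 1) * Vz ⌊(N : ℝ) ^ (1 / (r : ℝ))⌋₊ * SF N := by
  obtain ⟨z, hz⟩ : ∃ z, z = ⌊(N : ℝ) ^ (1 / (r : ℝ))⌋₊ := ⟨_, rfl⟩
  have hGW : GW N r = ∏ p ∈ pz z, (1 - (gnu N p : ℝ) / p) / (1 - 1 / (p : ℝ)) := by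
    rw [hz]
    rfl
  rw [← hz] at h3 ⊢
  have hsplit : pz z = insert 2 ((range (z + 1)).filter (fun p => p.Prime ∧ 2 < p)) := by
    ext p
    simp only [mem_pz, Finset.mem_insert, Finset.mem_filter, Finset.mem_range]
    constructor
    · rintro ⟨h1, h2⟩
      by_cases h3 : 2 < p
      · exact Or.inr ⟨by omega, h2, h3⟩
      · have := h2.two_le
        omega
    · rintro (rfl | ⟨h1, h2, h3⟩)
      · exact ⟨by omega, Nat.prime_two⟩
      · exact ⟨by omega, h2⟩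
  have h2N : 2 ∣ N := hev.two_dvd
  have hVz : Vz z = 1 / 2 * ∏ p ∈ (range (z + 1)).filter (fun p => p.Prime ∧ 2 < p), (1 - 1 / (p : ℝ)) := by
    unfold Vz
    rw [hsplit, Finset.prod_insert (by simp)]
    norm_num
  have hSF : SF N = (∏ p ∈ (N.primeFactors.filter (fun p => 2 < p)).filter (fun p => z < p),
      ((p : ℝ) - 1) / ((p : ℝ) - 2)) * ∏ p ∈ (N.primeFactors.filter (fun p => 2 < p)).filter (fun p => ¬ z < p),
      ((p : ℝ) - 1) / ((p : ℝ) - 2) := by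
    unfold SF
    rw [Finset.prod_filter_mul_prod_filter_not]
  have hset : (N.primeFactors.filter (fun p => 2 < p)).filter (fun p => ¬ z < p) =
      ((range (z + 1)).filter (fun p => p.Prime ∧ 2 < p)).filter (fun p => p ∣ N) := by
    ext p
    simp only [Finset.mem_filter, Nat.mem_primeFactors, Finset.mem_range]
    constructor
    · rintro ⟨⟨⟨h4, h5, _⟩, h6⟩, h7⟩
      exact ⟨⟨by omega, h4, h6⟩, h5⟩
    · rintro ⟨⟨h4, h5, h6⟩, h7⟩
      exact ⟨⟨⟨h5, h7, hN⟩, h6⟩, by omega⟩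
  rw [hGW, hSF, hset, hVz, hsplit, Finset.prod_insert (by simp)]
  have hg2 : gnu N 2 = 1 := if_pos h2N
  have hmain : ∏ p ∈ (range (z + 1)).filter (fun p => p.Prime ∧ 2 < p),
      (1 - (gnu N p : ℝ) / p) / (1 - 1 / (p : ℝ)) =
      H2 (z + 1) * (∏ p ∈ (range (z + 1)).filter (fun p => p.Prime ∧ 2 < p), (1 - 1 / (p : ℝ))) *
      ∏ p ∈ ((range (z + 1)).filter (fun p => p.Prime ∧ 2 < p)).filter (fun p => p ∣ N),
        ((p : ℝ) - 1) / ((p : ℝ) - 2) := by
    unfold H2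
    rw [Finset.prod_filter (fun p => p ∣ N), ← Finset.prod_mul_distrib, ← Finset.prod_mul_distrib]
    apply Finset.prod_congr rfl
    intro p hp
    have h2 : (2 : ℝ) < p := by exact_mod_cast (Finset.mem_filter.1 hp).2.2
    have hp0 : (p : ℝ) ≠ 0 := by positivity
    have hp1 : (p : ℝ) - 1 ≠ 0 := by linarith
    have hp2 : (p : ℝ) - 2 ≠ 0 := by linarith
    unfold gnu
    split_ifs with h4
    · rw [Nat.cast_one]
      field_simp
    · rw [Nat.cast_ofNat]
      field_simp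
  rw [hmain, hg2]
  norm_num
  ring

lemma step (a w R F ε K : ℝ) (hK : 0 < K) (hF : 0 < F) (hε : 0 < ε) (hε1 : ε ≤ 1) (hR1 : 1 ≤ R)
    (hR2 : R ≤ 1 + ε / 4) (ha : |a - K| ≤ ε / 4 * K) (hw : w * R = a * F) :
    |w - K * F| ≤ ε * (K * F) := by
  obtain ⟨a1, a2⟩ := abs_le.1 ha
  have hR0 : 0 < R := by linarith
  have hKF : 0 < K * F := by positivity
  have hw' : w = a * F / R := by field_simp; exact hw
  have ha0 : 0 ≤ a := by
    have : ε / 4 * K ≤ 1 / 4 * K := mul_le_mul_of_nonneg_right (by linarith) hK.le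
    linarith
  have up : a * F / R ≤ (1 + ε / 4) * (K * F) := by
    rw [div_le_iff₀ hR0]
    have h1 : a * F ≤ ((1 + ε / 4) * K) * F := mul_le_mul_of_nonneg_right (by linarith) hF.le
    have h2 : (1 + ε / 4) * (K * F) * 1 ≤ (1 + ε / 4) * (K * F) * R :=
      mul_le_mul_of_nonneg_left hR1 (by positivity)
    linarith
  have lo : (1 - ε) * (K * F) ≤ a * F / R := by
    rw [le_div_iff₀ hR0]
    have h1 : ((1 - ε / 4) * K) * F ≤ a * F := mul_le_mul_of_nonneg_right (by linarith) hF.le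
    have h2 : (1 - ε) * (K * F) * R ≤ (1 - ε) * (K * F) * (1 + ε / 4) :=
      mul_le_mul_of_nonneg_left hR2 (mul_nonneg (by linarith) hKF.le)
    have h3 : 0 ≤ ε * (ε * (K * F)) := by positivity
    have h4 : 0 ≤ ε * (K * F) := by positivity
    have e : (1 - ε) * (K * F) * (1 + ε / 4) = K * F - 3 / 4 * (ε * (K * F)) - 1 / 4 * (ε * (ε * (K * F))) := by
      ring
    have e2 : ((1 - ε / 4) * K) * F = K * F - 1 / 4 * (ε * (K * F)) := by ring
    linarith
  rw [hw', abs_le]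
  constructor
  · linarith
  · have : 0 ≤ ε * (K * F) := by positivity
    linarith

/-- **The density of the Goldbach primes is the singular series, uniformly.** -/
theorem GW_sing (S : ℝ) (hS0 : 0 < S) (hS : Tendsto H2 atTop (nhds S)) (r : ℕ) (hr : 2 ≤ r) (ε : ℝ) (hε : 0 < ε)
    (hε1 : ε ≤ 1) : ∀ᶠ N : ℕ in atTop, Even N →
      |GW N r * Real.log N - 2 * S * (r * Real.exp (-Real.eulerMascheroniConstant)) * SF N| ≤
        ε * (2 * S * (r * Real.exp (-Real.eulerMascheroniConstant)) * SF N) := by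
  have hrr : (2 : ℝ) ≤ r := by exact_mod_cast hr
  obtain ⟨c, hc⟩ : ∃ c, c = (r : ℝ) * Real.exp (-Real.eulerMascheroniConstant) := ⟨_, rfl⟩
  have hc0 : 0 < c := by
    rw [hc]
    have := Real.exp_pos (-Real.eulerMascheroniConstant)
    positivity
  have hV := Vz_asym r hr
  rw [← hc] at hV ⊢
  have hfl := fl_tendsto r hr
  have h1 : Tendsto (fun N : ℕ => 2 * H2 (⌊(N : ℝ) ^ (1 / (r : ℝ))⌋₊ + 1) *
      (Vz ⌊(N : ℝ) ^ (1 / (r : ℝ))⌋₊ * Real.log N)) atTop (nhds (2 * S * c)) :=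
    ((hS.comp ((tendsto_add_atTop_nat 1).comp hfl)).const_mul _).mul hV
  have h2 := (Metric.tendsto_nhds.1 h1) (ε / 4 * (2 * S * c)) (by positivity)
  filter_upwards [h2, hfl.eventually_ge_atTop 3, large_part r hr (ε / 16) (by positivity),
    eventually_ge_atTop 1] with N h3 h4 h5 h6
  intro hev
  rw [Real.dist_eq] at h3
  obtain ⟨z, hz⟩ : ∃ z, z = ⌊(N : ℝ) ^ (1 / (r : ℝ))⌋₊ := ⟨_, rfl⟩
  have h7 := GW_prod N r hev (by omega) h4
  rw [← hz] at h3 h4 h5 h7
  obtain ⟨E, hE⟩ : ∃ E, E = ∏ p ∈ N.primeFactors.filter (fun p => z < p), (1 - 1 / (p : ℝ)) := ⟨_, rfl⟩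
  obtain ⟨R, hR⟩ : ∃ R, R = ∏ p ∈ (N.primeFactors.filter (fun p => 2 < p)).filter (fun p => z < p),
      ((p : ℝ) - 1) / ((p : ℝ) - 2) := ⟨_, rfl⟩
  rw [← hE] at h5
  rw [← hR] at h7
  have hset : (N.primeFactors.filter (fun p => 2 < p)).filter (fun p => z < p) =
      N.primeFactors.filter (fun p => z < p) := by
    ext p
    simp only [Finset.mem_filter]
    constructor
    · rintro ⟨⟨a1, _⟩, a3⟩
      exact ⟨a1, a3⟩
    · rintro ⟨a1, a3⟩
      exact ⟨⟨a1, by omega⟩, a3⟩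
  have hR1 : 1 ≤ R := by
    rw [hR]
    apply one_le_pr
    intro p hp
    simp only [Finset.mem_filter] at hp
    have h2 : (2 : ℝ) < p := by exact_mod_cast hp.1.2
    rw [le_div_iff₀ (by linarith)]
    linarith
  have hRE : R * E ^ 2 ≤ 1 := by
    rw [hR, hset, hE, ← Finset.prod_pow, ← Finset.prod_mul_distrib]
    apply Finset.prod_le_one
    · intro p hp
      have h2 : 2 < p := by
        have := (Finset.mem_filter.1 hp).2
        omega
      have h2 : (2 : ℝ) < p := by exact_mod_cast h2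
      have h8 : 0 < (p : ℝ) - 2 := by linarith
      have h9 : 0 < (p : ℝ) - 1 := by linarith
      positivity
    · intro p hp
      have h2 : 3 ≤ p := by
        have := (Finset.mem_filter.1 hp).2
        omega
      have h2 : (3 : ℝ) ≤ p := by exact_mod_cast h2
      have h8 : 0 < (p : ℝ) - 2 := by linarith
      have h9 : 0 < (p : ℝ) - 1 := by linarith
      have hp0 : 0 < (p : ℝ) := by linarith
      have e : ((p : ℝ) - 1) / ((p : ℝ) - 2) * (1 - 1 / (p : ℝ)) ^ 2 =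
          ((p : ℝ) - 1) ^ 3 / (((p : ℝ) - 2) * (p : ℝ) ^ 2) := by
        field_simp
      rw [e, div_le_one (by positivity)]
      nlinarith
  have hR2 : R ≤ 1 + ε / 4 := by
    have hE0 : 1 - ε / 16 ≤ E := h5.1
    have hE1 : (1 - ε / 16) ^ 2 ≤ E ^ 2 := pow_le_pow_left₀ (by linarith) hE0 2
    have h8 : R * (1 - ε / 16) ^ 2 ≤ 1 := (mul_le_mul_of_nonneg_left hE1 (by linarith)).trans hRE
    have h9 : 1 ≤ (1 + ε / 4) * (1 - ε / 16) ^ 2 := by
      have e : (1 + ε / 4) * (1 - ε / 16) ^ 2 = 1 + ε / 8 - 7 / 256 * (ε * ε) + 1 / 1024 * (ε * (ε * ε)) := by ring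
      have h10 : ε * ε ≤ ε := by
        calc ε * ε ≤ 1 * ε := mul_le_mul_of_nonneg_right hε1 hε.le
          _ = ε := one_mul _
      have h11 : 0 < ε * (ε * ε) := by positivity
      rw [e]
      linarith
    have h10 : 0 < (1 - ε / 16) ^ 2 := pow_pos (by linarith) 2
    by_contra hcon
    rw [not_le] at hcon
    have h11 : (1 + ε / 4) * (1 - ε / 16) ^ 2 < R * (1 - ε / 16) ^ 2 :=
      mul_lt_mul_of_pos_right hcon h10
    linarith
  have hSF : 0 < SF N := lt_of_lt_of_le one_pos (SF_ge N)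
  refine step (2 * H2 (z + 1) * (Vz z * Real.log N)) _ R (SF N) ε (2 * S * c) (by positivity) hSF hε hε1
    hR1 hR2 h3.le ?_
  calc GW N r * Real.log N * R = (GW N r * R) * Real.log N := by ring
    _ = (2 * H2 (z + 1) * Vz z * SF N) * Real.log N := by rw [h7]
    _ = _ := by ring

end Pool.Agent.Y879.PR
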