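import Pool.Agent.Y879.PR.Inst
import Pool.Agent.Y879.AP.Mean2

set_option autoImplicit false

/-!
# The Hardy-Littlewood constants for constellations modulo 30
-/

namespace Pool.Agent.Y879.PR

open Polynomial Finset Filter
open Pool.Agent.W123.RP Pool.Agent.H373R2.T7 Pool.Agent.W123.RU Pool.Agent.W123.RU.Poly
open Pool.Agent.TH464.PW Pool.Agent.TH464.PO Pool.Agent.Y879.AP Pool.Agent.Y879.GL

/-- the local factor `(1 - k / p) / (1 - 1 / p) ^ k` -/
noncomputable def hf (k p : ℕ) : ℝ := (1 - (k : ℝ) / p) / (1 - 1 / (p : ℝ)) ^ k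

/-- the product of the local factors over the primes `3 < p < N` -/
noncomputable def HF (k N : ℕ) : ℝ := ∏ p ∈ (range N).filter (fun p => p.Prime ∧ 3 < p), hf k p

lemma hf_pos (k p : ℕ) (hk : k ≤ 4) (hp : 5 ≤ p) : 0 < hf k p := by
  have h1 : (5 : ℝ) ≤ p := by exact_mod_cast hp
  have h2 : (k : ℝ) ≤ 4 := by exact_mod_cast hk
  unfold hf
  apply div_pos
  · rw [sub_pos, div_lt_one (by linarith)]
    linarith
  · apply pow_pos
    rw [sub_pos, div_lt_one (by linarith)]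
    linarith

lemma hf_bound (k p : ℕ) (hk : k = 3 ∨ k = 4) (hp : 5 ≤ p) : |hf k p - 1| ≤ 96 / (p : ℝ) ^ 2 := by
  have h1 : (5 : ℝ) ≤ p := by exact_mod_cast hp
  obtain ⟨x, hx⟩ : ∃ x : ℝ, x = 1 / p := ⟨_, rfl⟩
  have hx0 : 0 < x := by rw [hx]; positivity
  have hx5 : x ≤ 1 / 5 := by
    rw [hx]
    exact one_div_le_one_div_of_le (by norm_num) h1
  have hx2 : 96 / (p : ℝ) ^ 2 = 96 * x ^ 2 := by
    rw [hx]
    field_simp
  have hk1 : (k : ℝ) / p = k * x := by
    rw [hx]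
    ring
  unfold hf
  rw [hk1, ← hx, hx2]
  have hd0 : 0 < (1 - x) ^ k := pow_pos (by linarith) _
  rw [show (1 - (k : ℝ) * x) / (1 - x) ^ k - 1 = (1 - k * x - (1 - x) ^ k) / (1 - x) ^ k by
    field_simp, abs_div, abs_of_pos hd0, div_le_iff₀ hd0]
  have hd1 : (1 / 2 : ℝ) ^ 4 ≤ (1 - x) ^ k := by
    have h3 : (1 / 2 : ℝ) ^ 4 ≤ (1 / 2 : ℝ) ^ k :=
      pow_le_pow_of_le_one (by norm_num) (by norm_num) (by omega)
    exact h3.trans (pow_le_pow_left₀ (by norm_num) (by linarith) k)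
  have hnum : |1 - k * x - (1 - x) ^ k| ≤ 6 * x ^ 2 := by
    have hx3 : x ^ 3 ≤ x ^ 2 := pow_le_pow_of_le_one hx0.le (by linarith) (by norm_num)
    have hx4 : x ^ 4 ≤ x ^ 3 := pow_le_pow_of_le_one hx0.le (by linarith) (by norm_num)
    have hx30 : 0 < x ^ 3 := by positivity
    have hx40 : 0 < x ^ 4 := by positivity
    have hx20 : 0 < x ^ 2 := by positivity
    rcases hk with rfl | rfl
    · rw [show 1 - ((3 : ℕ) : ℝ) * x - (1 - x) ^ 3 = x ^ 3 - 3 * x ^ 2 by push_cast; ring, abs_le]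
      constructor <;> linarith
    · rw [show 1 - ((4 : ℕ) : ℝ) * x - (1 - x) ^ 4 = 4 * x ^ 3 - 6 * x ^ 2 - x ^ 4 by push_cast; ring,
        abs_le]
      constructor <;> linarith
  refine hnum.trans ?_
  have : 96 * x ^ 2 * ((1 / 2 : ℝ) ^ 4) ≤ 96 * x ^ 2 * (1 - x) ^ k :=
    mul_le_mul_of_nonneg_left hd1 (by positivity)
  norm_num at this
  linarith

/-- the product converges to a positive limit -/
theorem HF_lim (k : ℕ) (hk : k = 3 ∨ k = 4) : ∃ S : ℝ, 0 < S ∧ Tendsto (HF k) atTop (nhds S) := by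
  classical
  obtain ⟨g, hg⟩ : ∃ g : ℕ → ℝ, g = fun n => if n.Prime ∧ 3 < n then hf k n - 1 else 0 := ⟨_, rfl⟩
  have hgpos : ∀ n, 0 < 1 + g n := by
    intro n
    rw [hg]
    simp only
    split_ifs with h
    · have h5 : 5 ≤ n := by
        rcases h with ⟨h1, h2⟩
        by_contra hc
        have : n = 4 := by omega
        rw [this] at h1
        exact absurd h1 (by norm_num)
      have := hf_pos k n (by omega) h5
      linarith
    · norm_num
  have hgsum : Summable g := by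
    have h1 : Summable (fun n : ℕ => 96 / (n : ℝ) ^ 2) := by
      have := (Real.summable_one_div_nat_pow (p := 2)).2 (by norm_num)
      simpa [div_eq_mul_inv] using this.mul_left 96
    refine Summable.of_norm_bounded h1 ?_
    intro n
    rw [hg]
    simp only
    split_ifs with h
    · have h5 : 5 ≤ n := by
        rcases h with ⟨h1, h2⟩
        by_contra hc
        have : n = 4 := by omega
        rw [this] at h1
        exact absurd h1 (by norm_num)
      rw [Real.norm_eq_abs]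
      exact hf_bound k n hk h5
    · simp
      positivity
  have hlog : Summable (fun n => Real.log (1 + g n)) := Real.summable_log_one_add_of_summable hgsum
  refine ⟨Real.exp (∑' n, Real.log (1 + g n)), Real.exp_pos _, ?_⟩
  have h2 := (Real.continuous_exp.tendsto _).comp hlog.hasSum.tendsto_sum_nat
  refine h2.congr ?_
  intro N
  simp only [Function.comp]
  rw [Real.exp_sum]
  unfold HF
  rw [Finset.prod_filter]
  apply Finset.prod_congr rfl
  intro n _
  rw [Real.exp_log (hgpos n), hg]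
  simp only
  split_ifs with h <;> ring

lemma split_pz (z : ℕ) (hz : 5 ≤ z) : pz z =
    insert 2 (insert 3 (((range (z + 1)).filter (fun p => p.Prime ∧ 3 < p)))) := by
  ext p
  simp only [mem_pz, Finset.mem_insert, Finset.mem_filter, Finset.mem_range]
  constructor
  · rintro ⟨h1, h2⟩
    by_cases h3 : 3 < p
    · exact Or.inr (Or.inr ⟨by omega, h2, h3⟩)
    · have := h2.two_le
      omega
  · rintro (rfl | rfl | ⟨h1, h2, h3⟩)
    · exact ⟨by omega, Nat.prime_two⟩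
    · exact ⟨by omega, Nat.prime_three⟩
    · exact ⟨by omega, h2⟩

/-- the full singular product -/
lemma full_prod (k z : ℕ) (hk : k = 3 ∨ k = 4) (hz : 5 ≤ z) :
    ∏ p ∈ pz z, (1 - (pnu 30 k p : ℝ) / p) / (1 - 1 / (p : ℝ)) ^ k =
      3 ^ k * (5 / (5 - k)) * HF k (z + 1) := by
  have hk5 : (5 : ℝ) - k ≠ 0 := by
    rcases hk with rfl | rfl <;> norm_num
  rw [split_pz z hz, Finset.prod_insert (by simp), Finset.prod_insert (by simp)]
  have h5 : 5 ∈ (range (z + 1)).filter (fun p => p.Prime ∧ 3 < p) := by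
    simp only [Finset.mem_filter, Finset.mem_range]
    exact ⟨by omega, Nat.prime_five, by norm_num⟩
  unfold HF
  rw [← Finset.mul_prod_erase _ _ h5, ← Finset.mul_prod_erase _ (hf k) h5]
  have hrest : ∏ p ∈ ((range (z + 1)).filter (fun p => p.Prime ∧ 3 < p)).erase 5,
      (1 - (pnu 30 k p : ℝ) / p) / (1 - 1 / (p : ℝ)) ^ k =
      ∏ p ∈ ((range (z + 1)).filter (fun p => p.Prime ∧ 3 < p)).erase 5, hf k p := by
    apply Finset.prod_congr rfl
    intro p hp
    simp only [Finset.mem_erase, Finset.mem_filter, Finset.mem_range] at hp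
    obtain ⟨h1, h2, h3, h4⟩ := hp
    have hnd : ¬ p ∣ 30 := by
      intro hd
      have h6 : p ∣ 2 * (3 * 5) := by norm_num; exact hd
      rcases (h3.dvd_mul).1 h6 with h7 | h7
      · have := Nat.le_of_dvd (by norm_num) h7
        omega
      · rcases (h3.dvd_mul).1 h7 with h8 | h8
        · have := Nat.le_of_dvd (by norm_num) h8
          omega
        · exact h1 ((Nat.prime_dvd_prime_iff_eq h3 Nat.prime_five).1 h8)
    unfold pnu hf
    rw [if_neg hnd]
  rw [hrest]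
  unfold pnu hf
  rw [if_pos (by norm_num), if_pos (by norm_num), if_pos (by norm_num)]
  rcases hk with rfl | rfl
  · norm_num
    ring
  · norm_num
    ring

/-- `PW` and `PV` in terms of the constant -/
lemma PW_lim (k : ℕ) (hk : k = 3 ∨ k = 4) (S : ℝ) (hS : Tendsto (HF k) atTop (nhds S)) (r : ℕ) (hr : 2 ≤ r) :
    Tendsto (fun N : ℕ => PW 30 k N r * Real.log N ^ (k - 1)) atTop
      (nhds (3 ^ k * (5 / (5 - k)) * S * (r * Real.exp (-Real.eulerMascheroniConstant)) ^ (k - 1))) := by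
  have hrr : (2 : ℝ) ≤ r := by exact_mod_cast hr
  have hpowr : Tendsto (fun q : ℕ => (q : ℝ) ^ (1 / (r : ℝ))) atTop atTop :=
    (tendsto_rpow_atTop (by positivity)).comp tendsto_natCast_atTop_atTop
  have hfl : Tendsto (fun q : ℕ => ⌊(q : ℝ) ^ (1 / (r : ℝ))⌋₊) atTop atTop :=
    tendsto_nat_floor_atTop.comp hpowr
  have h1 : Tendsto (fun N : ℕ => 3 ^ k * (5 / (5 - k)) * HF k (⌊(N : ℝ) ^ (1 / (r : ℝ))⌋₊ + 1)) atTop
      (nhds (3 ^ k * (5 / (5 - k)) * S)) :=
    ((hS.comp ((tendsto_add_atTop_nat 1).comp hfl)).const_mul _)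
  have h2 := (Vz_asym r hr).pow (k - 1)
  refine (h1.mul h2).congr' ?_
  filter_upwards [hfl.eventually_ge_atTop 5] with N hN
  rw [← full_prod k _ hk hN, mul_pow, ← mul_assoc]
  congr 1
  unfold PW
  have hVz : Vz ⌊(N : ℝ) ^ (1 / (r : ℝ))⌋₊ = ∏ p ∈ pz ⌊(N : ℝ) ^ (1 / (r : ℝ))⌋₊, (1 - 1 / (p : ℝ)) := rfl
  rw [hVz, ← Finset.prod_pow, ← Finset.prod_mul_distrib]
  apply Finset.prod_congr rfl
  intro p hp
  have h2 : (2 : ℝ) ≤ p := by exact_mod_cast (mem_pz.1 hp).2.two_le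
  have h3 : 1 - 1 / (p : ℝ) ≠ 0 := by
    have : 1 / (p : ℝ) ≤ 1 / 2 := by gcongr
    linarith
  obtain ⟨k', hk'⟩ : ∃ k', k = k' + 1 := ⟨k - 1, by omega⟩
  subst hk'
  rw [Nat.add_sub_cancel, pow_succ]
  generalize 1 - 1 / (p : ℝ) = t at h3 ⊢
  field_simp

variable {k : ℕ} {h : Fin k → ℕ} {C : Finset ℕ}

lemma two_step (c m w W ε : ℝ) (hε : 0 < ε) (hε1 : ε ≤ 1) (hm : 0 ≤ m) (hW : 0 ≤ W)
    (h1 : |c - m * w| ≤ ε / 4 * (m * w)) (h2 : |w - W| ≤ ε / 4 * W) :
    |c - m * W| ≤ ε * (m * W) := by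
  obtain ⟨a1, a2⟩ := abs_le.1 h1
  obtain ⟨b1, b2⟩ := abs_le.1 h2
  have c1 : m * w ≤ m * ((1 + ε / 4) * W) := mul_le_mul_of_nonneg_left (by linarith) hm
  have c2 : m * ((1 - ε / 4) * W) ≤ m * w := mul_le_mul_of_nonneg_left (by linarith) hm
  have hmW : 0 ≤ m * W := mul_nonneg hm hW
  have hε2 : ε * (ε * (m * W)) ≤ ε * (m * W) := by
    calc ε * (ε * (m * W)) ≤ 1 * (ε * (m * W)) := mul_le_mul_of_nonneg_right hε1 (by positivity)
      _ = _ := one_mul _
  have hε0 : 0 ≤ ε * (ε * (m * W)) := by positivity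
  have d1 : (1 + ε / 4) * (m * w) ≤ (1 + ε / 4) * (m * ((1 + ε / 4) * W)) :=
    mul_le_mul_of_nonneg_left c1 (by linarith)
  have d2 : (1 - ε / 4) * (m * ((1 - ε / 4) * W)) ≤ (1 - ε / 4) * (m * w) :=
    mul_le_mul_of_nonneg_left c2 (by linarith)
  have e1 : (1 + ε / 4) * (m * ((1 + ε / 4) * W)) =
      m * W + ε * (m * W) / 2 + ε * (ε * (m * W)) / 16 := by ring
  have e2 : (1 - ε / 4) * (m * ((1 - ε / 4) * W)) =
      m * W - ε * (m * W) / 2 + ε * (ε * (m * W)) / 16 := by ring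
  rw [abs_le]
  constructor <;> linarith

open Classical in
/-- **The sieve form of the Hardy-Littlewood formula with the right constant.** -/
theorem hl_form (hP : Pat2 30 h C) (hC : C.Nonempty) (hk : k = 3 ∨ k = 4) (S : ℝ) (hS0 : 0 < S)
    (hS : Tendsto (HF k) atTop (nhds S)) (ε : ℝ) (hε : 0 < ε) (hε1 : ε ≤ 1) :
    ∃ r₀ : ℕ, 2 ≤ r₀ ∧ ∀ r : ℕ, r₀ ≤ r → ∀ᶠ N : ℕ in atTop, ∀ i : Fin k,
      |((PP h N r i 0 N).card : ℝ) * Real.log N ^ k / N -
        C.card / 30 * (3 ^ k * (5 / (5 - k)) * S * (r * Real.exp (-Real.eulerMascheroniConstant)) ^ (k - 1))| ≤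
      ε * (C.card / 30 * (3 ^ k * (5 / (5 - k)) * S *
        (r * Real.exp (-Real.eulerMascheroniConstant)) ^ (k - 1))) := by
  obtain ⟨r0, hr0, hlaw⟩ := pat_law hP hC 1 1 one_pos one_pos le_rfl 0 (ε / 4) (by positivity) (by linarith)
  refine ⟨r0, hr0, ?_⟩
  intro r hr
  have hr2 : 2 ≤ r := hr0.trans hr
  have hrr : (2 : ℝ) ≤ r := by exact_mod_cast hr2
  have hk5 : (0 : ℝ) < 5 - k := by
    rcases hk with rfl | rfl <;> norm_num
  obtain ⟨W, hW⟩ : ∃ W, W = 3 ^ k * (5 / (5 - k)) * S *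
    (r * Real.exp (-Real.eulerMascheroniConstant)) ^ (k - 1) := ⟨_, rfl⟩
  have hW0 : 0 < W := by
    rw [hW]
    have := Real.exp_pos (-Real.eulerMascheroniConstant)
    positivity
  have hlim := PW_lim k hk S hS r hr2
  rw [← hW] at hlim ⊢
  have hev := (Metric.tendsto_nhds.1 hlim) (ε / 4 * W) (by positivity)
  filter_upwards [hlaw r hr, hev, eventually_ge_atTop 3] with N h1 h2 h3
  intro i
  have hNr : (3 : ℝ) ≤ N := by exact_mod_cast h3
  have hN0 : (0 : ℝ) < N := by linarith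
  have h4 := (h1 i N (by rw [Real.rpow_one]) 0 N (by rw [one_mul]) (by omega)).1
  rw [Real.dist_eq] at h2
  have hlog : 0 < Real.log N := Real.log_pos (by linarith)
  obtain ⟨m, hm⟩ : ∃ m : ℝ, m = C.card / 30 := ⟨_, rfl⟩
  have hm0 : 0 ≤ m := by rw [hm]; positivity
  rw [← hm]
  refine two_step _ m (PW 30 k N r * Real.log N ^ (k - 1)) W ε hε hε1 hm0 hW0.le ?_ h2.le
  obtain ⟨k', hk'⟩ : ∃ k', k = k' + 1 := ⟨k - 1, by omega⟩
  have e1 : ((PP h N r i 0 N).card : ℝ) * Real.log N ^ k / N - m * (PW 30 k N r * Real.log N ^ (k - 1)) =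
      (((PP h N r i 0 N).card : ℝ) * Real.log N - C.card * ((N : ℝ) / 30 * PW 30 k N r)) *
        (Real.log N ^ (k - 1) / N) := by
    rw [hm, show Real.log N ^ k = Real.log N ^ (k - 1) * Real.log N by
      rw [← pow_succ]; congr 1; omega]
    field_simp
  have e2 : ε / 4 * (m * (PW 30 k N r * Real.log N ^ (k - 1))) =
      (ε / 4 * (C.card * ((N : ℝ) / 30 * PW 30 k N r))) * (Real.log N ^ (k - 1) / N) := by
    rw [hm]
    field_simp
  rw [e1, e2, abs_mul, abs_of_nonneg (by positivity : 0 ≤ Real.log N ^ (k - 1) / N)]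
  refine mul_le_mul_of_nonneg_right ?_ (by positivity)
  exact_mod_cast h4

end Pool.Agent.Y879.PR
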