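import Pool.Agent.Y879.PR.VBase
import Pool.Agent.Y879.GL.Two

set_option autoImplicit false

/-!
# The system `x`, `(h x) ^ 2 + c`
-/

namespace Pool.Agent.Y879.PR

open Polynomial Finset Filter
open Pool.Agent.W123.RP Pool.Agent.H373R2.T7 Pool.Agent.W123.RU Pool.Agent.W123.RU.Poly
open Pool.Agent.TH464.PW Pool.Agent.TH464.PO Pool.Agent.Y879.AP Pool.Agent.Y879.GL

/-- the system -/
noncomputable def hq (h c : ℕ) : Fin 2 → ℤ[X] := ![X, quad ((h : ℤ) ^ 2) 0 (c : ℤ)]

lemma hq_eval0 (h c : ℕ) (x : ℤ) : (hq h c 0).eval x = x := by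
  change (X : ℤ[X]).eval x = _
  rw [eval_X]

lemma hq_eval1 (h c : ℕ) (x : ℤ) : (hq h c 1).eval x = (h * x) ^ 2 + c := by
  change (quad ((h : ℤ) ^ 2) 0 (c : ℤ)).eval x = _
  rw [quad_eval]
  ring

lemma hq_Q (h c p x : ℕ) : Q (hq h c) p x ↔ p ∣ x ∨ p ∣ (h * x) ^ 2 + c := by
  unfold Q
  rw [Fin.exists_fin_two, hq_eval0, hq_eval1]
  constructor
  · rintro (h1 | h1)
    · exact Or.inl (by exact_mod_cast h1)
    · exact Or.inr (by exact_mod_cast h1)
  · rintro (h1 | h1)
    · exact Or.inl (by exact_mod_cast h1)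
    · exact Or.inr (by exact_mod_cast h1)

/-- the admissible pairs: `c = 1` and `h` even, or `c = 4` and `h` odd -/
def FamHC (h c : ℕ) : Prop := 0 < h ∧ ((Even h ∧ c = 1) ∨ (Odd h ∧ c = 4))

lemma hq_us (h c : ℕ) (hf : FamHC h c) (H U : ℝ) (hH : (h : ℝ) ^ 2 + 4 ≤ H) : US 2 2 H U (hq h c) := by
  obtain ⟨h0, hc⟩ := hf
  have hh0 : ((h : ℤ) ^ 2) ≠ 0 := by
    have : (h : ℤ) ≠ 0 := by exact_mod_cast h0.ne'
    positivity
  have hc4 : c ≤ 4 := by
    rcases hc with ⟨_, rfl⟩ | ⟨_, rfl⟩ <;> norm_num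
  have hc0 : 0 < c := by
    rcases hc with ⟨_, rfl⟩ | ⟨_, rfl⟩ <;> norm_num
  have hirr1 : Irreducible (quad ((h : ℤ) ^ 2) 0 (c : ℤ)) := by
    apply quad_irr _ _ _ hh0
    · rintro p hp ⟨h1, _, h3⟩
      have h4 : p ∣ h ^ 2 := by exact_mod_cast h1
      have h5 : p ∣ c := by exact_mod_cast h3
      have h6 : p ∣ h := hp.dvd_of_dvd_pow h4
      rcases hc with ⟨_, rfl⟩ | ⟨ho, rfl⟩
      · exact hp.one_lt.ne' (Nat.dvd_one.1 h5)
      · have h7 : p ∣ 2 := by
          have : (4 : ℕ) = 2 ^ 2 := by norm_num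
          rw [this] at h5
          exact hp.dvd_of_dvd_pow h5
        have h8 : p = 2 := (Nat.prime_dvd_prime_iff_eq hp Nat.prime_two).1 h7
        rw [h8] at h6
        exact (Nat.not_even_iff_odd.2 ho) (even_iff_two_dvd.2 h6)
    · rintro ⟨s, hs⟩
      have h1 : (0 : ℤ) < (h : ℤ) ^ 2 * c := by positivity
      have h2 : 0 ≤ s * s := mul_self_nonneg s
      nlinarith
  have d0 : (hq h c 0).natDegree = 1 := natDegree_X
  have d1 : (hq h c 1).natDegree = 2 := quad_deg _ _ _ hh0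
  have hhr : (0 : ℝ) ≤ (h : ℝ) ^ 2 := by positivity
  refine ⟨?_, ?_, ?_, ?_, ?_, ?_⟩
  · intro i
    fin_cases i
    · exact irreducible_X
    · exact hirr1
  · intro i
    fin_cases i
    · exact (by rw [d0]; norm_num : (hq h c 0).natDegree ≠ 0)
    · exact (by rw [d1]; norm_num : (hq h c 1).natDegree ≠ 0)
  · intro i
    fin_cases i
    · exact (by rw [d0]; norm_num : (hq h c 0).natDegree ≤ 2)
    · exact (by rw [d1] : (hq h c 1).natDegree ≤ 2)
  · intro i k
    fin_cases i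
    · change |(((X : ℤ[X]).coeff k : ℤ) : ℝ)| ≤ H
      rw [coeff_X]
      split_ifs
      · simp
        linarith
      · simp
        linarith
    · change |(((quad ((h : ℤ) ^ 2) 0 (c : ℤ)).coeff k : ℤ) : ℝ)| ≤ H
      have hcz : (c : ℤ) ≤ 4 := by exact_mod_cast hc4
      have h4 := quad_coeff ((h : ℤ) ^ 2) 0 (c : ℤ) k ((h : ℤ) ^ 2 + 4)
        (by rw [abs_of_nonneg (by positivity)]; linarith)
        (by rw [abs_zero]; positivity)
        (by
          rw [abs_of_nonneg (by positivity)]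
          have : (0 : ℤ) ≤ (h : ℤ) ^ 2 := by positivity
          linarith)
      have h5 : |(((quad ((h : ℤ) ^ 2) 0 (c : ℤ)).coeff k : ℤ) : ℝ)| ≤ (h : ℝ) ^ 2 + 4 := by exact_mod_cast h4
      linarith
  · intro p hp
    have hn : ∀ m : ℕ, ¬ p ∣ m → ¬ p ∣ (h * m) ^ 2 + c → ∃ m : ℕ, ∀ i, ¬ (p : ℤ) ∣ (hq h c i).eval (m : ℤ) := by
      intro m h1 h2
      refine ⟨m, fun i => ?_⟩
      fin_cases i
      · change ¬ (p : ℤ) ∣ (hq h c 0).eval (m : ℤ)
        rw [hq_eval0]
        exact fun h3 => h1 (by exact_mod_cast h3)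
      · change ¬ (p : ℤ) ∣ (hq h c 1).eval (m : ℤ)
        rw [hq_eval1]
        exact fun h3 => h2 (by exact_mod_cast h3)
    have hp2 := hp.two_le
    rcases Nat.lt_or_ge p 5 with h5 | h5
    · have hp23 : p = 2 ∨ p = 3 := by
        interval_cases p
        · left; rfl
        · right; rfl
        · exact absurd hp (by norm_num)
      refine hn 1 (fun h => hp.one_lt.ne' (Nat.dvd_one.1 h)) ?_
      rw [mul_one]
      rcases hp23 with rfl | rfl
      · rcases hc with ⟨he, rfl⟩ | ⟨ho, rfl⟩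
        · intro h1
          have h2 : Even (h ^ 2) := (Nat.even_pow.2 ⟨he, by norm_num⟩)
          obtain ⟨w, hw⟩ := h2
          omega
        · intro h1
          have h2 : Odd (h ^ 2) := ho.pow
          obtain ⟨w, hw⟩ := h2
          omega
      · have h3 : h ^ 2 % 3 = 0 ∨ h ^ 2 % 3 = 1 := by
          have : h % 3 < 3 := Nat.mod_lt _ (by norm_num)
          rw [Nat.pow_mod]
          interval_cases h % 3 <;> norm_num
        rcases hc with ⟨_, rfl⟩ | ⟨_, rfl⟩
        · omega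
        · omega
    · have hpc : ¬ p ∣ c := by
        intro h
        have := Nat.le_of_dvd hc0 h
        omega
      by_contra hcon
      have h1 : p ∣ (h * 1) ^ 2 + c := by
        by_contra h2
        exact hcon (hn 1 (fun h => hp.one_lt.ne' (Nat.dvd_one.1 h)) h2)
      have h2 : p ∣ (h * 2) ^ 2 + c := by
        by_contra h2
        exact hcon (hn 2 (fun h => by
          have := Nat.le_of_dvd (by norm_num) h
          omega) h2)
      have h3 : p ∣ 3 * h ^ 2 := by
        have h4 := (Nat.dvd_sub h2 h1)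
        rwa [show (h * 2) ^ 2 + c - ((h * 1) ^ 2 + c) = 3 * h ^ 2 by
          rw [mul_one, mul_pow]
          omega] at h4
      have h4 : p ∣ h ^ 2 := by
        rcases (hp.dvd_mul).1 h3 with h5' | h5'
        · have := Nat.le_of_dvd (by norm_num) h5'
          omega
        · exact h5'
      rw [mul_one] at h1
      exact hpc ((Nat.dvd_add_right h4).1 h1)
  · intro i j t ht htU
    have ht' : (t : ℤ) ≠ 0 := by exact_mod_cast (by omega : t ≠ 0)
    fin_cases i <;> fin_cases j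
    · exact no_self (hq h c 0) (by rw [d0]; norm_num) t ht'
    · exact (not_assoc_deg (by rw [deg_shift, d0, d1]; norm_num) :
        ¬ Associated (hq h c 0) ((hq h c 1).comp (X + C (t : ℤ))))
    · exact (not_assoc_deg (by rw [deg_shift, d0, d1]; norm_num) :
        ¬ Associated (hq h c 1) ((hq h c 0).comp (X + C (t : ℤ))))
    · exact no_self (hq h c 1) (by rw [d1]; norm_num) t ht'

lemma hq_nu (h c p : ℕ) (hp : p.Prime) : 1 ≤ nuB (Q (hq h c)) p := by
  refine nuB_pos_of _ p hp 0 (fun n => per (hq h c) p n) ?_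
  rw [hq_Q]
  exact Or.inl (dvd_zero _)

end Pool.Agent.Y879.PR
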