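import Pool.Agent.Y879.PR.Pat

set_option autoImplicit false

/-!
# The law after primes for constellations: complete form, and the triples and quadruples
-/

namespace Pool.Agent.Y879.PR

open Polynomial Finset Filter
open Pool.Agent.W123.RP Pool.Agent.H373R2.T7 Pool.Agent.W123.RU Pool.Agent.W123.RU.Poly
open Pool.Agent.TH464.PW Pool.Agent.TH464.PO Pool.Agent.Y879.AP Pool.Agent.Y879.GL

variable {k : ℕ}

/-- the Poisson weight of the set `B` -/
noncomputable def Poi (x : ℝ) (B : Finset ℕ) : ℝ := ∑ j ∈ B, Real.exp (-x) * x ^ j / j.factorial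

/-- the shifts of the quadruples `n, n + 2, n + 6, n + 8` -/
def qa : Fin 4 → ℕ := ![0, 2, 6, 8]

/-- the shifts of the quadruples `n, n + 4, n + 6, n + 10` -/
def qb : Fin 4 → ℕ := ![0, 4, 6, 10]

/-- the shifts of the triples `n, n + 2, n + 6` -/
def ta : Fin 3 → ℕ := ![0, 2, 6]

/-- the shifts of the triples `n, n + 4, n + 6` -/
def tb : Fin 3 → ℕ := ![0, 4, 6]

lemma sq30 : Squarefree 30 := by
  rw [Nat.squarefree_iff_minSqFac]
  decide +kernel

lemma pr30 (p : ℕ) (hp : p.Prime) (h : p ≤ 4) : p ∣ 30 := by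
  have := hp.two_le
  have h3 : p = 2 ∨ p = 3 ∨ p = 4 := by omega
  rcases h3 with rfl | rfl | rfl
  · norm_num
  · norm_num
  · exact absurd hp (by norm_num)

lemma dif30 (p : ℕ) (hp : p.Prime) (h : ¬ p ∣ 30) (d : ℤ) (hd : d ∣ 27000) : ¬ (p : ℤ) ∣ d := by
  intro h1
  have h2 : (p : ℤ) ∣ ((30 ^ 3 : ℕ) : ℤ) := by
    norm_num
    exact h1.trans hd
  have h3 : p ∣ 30 ^ 3 := by exact_mod_cast h2
  exact h (hp.dvd_of_dvd_pow h3)

lemma red (m h p : ℕ) (hp : p ∣ 30) (H : ¬ p ∣ m + h) : ¬ p ∣ m % 30 + h := by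
  intro h1
  apply H
  have h2 : m = 30 * (m / 30) + m % 30 := (Nat.div_add_mod m 30).symm
  rw [h2, add_assoc]
  exact dvd_add (Dvd.dvd.mul_right hp _) h1

lemma pat_qa : Pat2 30 qa {11} where
  tup := by
    intro c hc
    rw [Finset.mem_singleton] at hc
    subst hc
    exact ⟨sq30, by decide, fun p hp h => pr30 p hp h, by decide, by decide, by norm_num⟩
  one := by decide
  lt := by decide
  cls := by
    intro m hm
    have a1 := red m 0 2 (by norm_num) (hm 2 Nat.prime_two (by norm_num) 0)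
    have a2 := red m 0 3 (by norm_num) (hm 3 Nat.prime_three (by norm_num) 0)
    have a3 := red m 2 3 (by norm_num) (hm 3 Nat.prime_three (by norm_num) 1)
    have a4 := red m 0 5 (by norm_num) (hm 5 Nat.prime_five (by norm_num) 0)
    have a5 := red m 2 5 (by norm_num) (hm 5 Nat.prime_five (by norm_num) 1)
    have a6 := red m 6 5 (by norm_num) (hm 5 Nat.prime_five (by norm_num) 2)
    have a7 := red m 8 5 (by norm_num) (hm 5 Nat.prime_five (by norm_num) 3)
    have key : ∀ s ∈ Finset.range 30, (¬ 2 ∣ s + 0 ∧ ¬ 3 ∣ s + 0 ∧ ¬ 3 ∣ s + 2 ∧ ¬ 5 ∣ s + 0 ∧ ¬ 5 ∣ s + 2 ∧ ¬ 5 ∣ s + 6 ∧ ¬ 5 ∣ s + 8) → s ∈ ({11} : Finset ℕ) := by decide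
    exact key _ (Finset.mem_range.2 (Nat.mod_lt _ (by norm_num))) ⟨a1, a2, a3, a4, a5, a6, a7⟩
  dif := by
    intro p hp hM i j hij
    apply dif30 p hp hM
    revert i j
    decide
  zero := ⟨0, rfl⟩
  pos := by norm_num

lemma pat_qb : Pat2 30 qb {7, 13} where
  tup := by
    intro c hc
    rw [Finset.mem_insert, Finset.mem_singleton] at hc
    rcases hc with rfl | rfl
    · exact ⟨sq30, by decide, fun p hp h => pr30 p hp h, by decide, by decide, by norm_num⟩
    · exact ⟨sq30, by decide, fun p hp h => pr30 p hp h, by decide, by decide, by norm_num⟩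
  one := by decide
  lt := by decide
  cls := by
    intro m hm
    have a1 := red m 0 2 (by norm_num) (hm 2 Nat.prime_two (by norm_num) 0)
    have a2 := red m 0 3 (by norm_num) (hm 3 Nat.prime_three (by norm_num) 0)
    have a3 := red m 4 3 (by norm_num) (hm 3 Nat.prime_three (by norm_num) 1)
    have a4 := red m 0 5 (by norm_num) (hm 5 Nat.prime_five (by norm_num) 0)
    have a5 := red m 4 5 (by norm_num) (hm 5 Nat.prime_five (by norm_num) 1)
    have a6 := red m 6 5 (by norm_num) (hm 5 Nat.prime_five (by norm_num) 2)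
    have key : ∀ s ∈ Finset.range 30, (¬ 2 ∣ s + 0 ∧ ¬ 3 ∣ s + 0 ∧ ¬ 3 ∣ s + 4 ∧ ¬ 5 ∣ s + 0 ∧ ¬ 5 ∣ s + 4 ∧ ¬ 5 ∣ s + 6) → s ∈ ({7, 13} : Finset ℕ) := by decide
    exact key _ (Finset.mem_range.2 (Nat.mod_lt _ (by norm_num))) ⟨a1, a2, a3, a4, a5, a6⟩
  dif := by
    intro p hp hM i j hij
    apply dif30 p hp hM
    revert i j
    decide
  zero := ⟨0, rfl⟩
  pos := by norm_num

lemma pat_ta : Pat2 30 ta {11, 17} where
  tup := by
    intro c hc
    rw [Finset.mem_insert, Finset.mem_singleton] at hc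
    rcases hc with rfl | rfl
    · exact ⟨sq30, by decide, fun p hp h => pr30 p hp (by omega), by decide, by decide, by norm_num⟩
    · exact ⟨sq30, by decide, fun p hp h => pr30 p hp (by omega), by decide, by decide, by norm_num⟩
  one := by decide
  lt := by decide
  cls := by
    intro m hm
    have a1 := red m 0 2 (by norm_num) (hm 2 Nat.prime_two (by norm_num) 0)
    have a2 := red m 0 3 (by norm_num) (hm 3 Nat.prime_three (by norm_num) 0)
    have a3 := red m 2 3 (by norm_num) (hm 3 Nat.prime_three (by norm_num) 1)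
    have a4 := red m 0 5 (by norm_num) (hm 5 Nat.prime_five (by norm_num) 0)
    have a5 := red m 2 5 (by norm_num) (hm 5 Nat.prime_five (by norm_num) 1)
    have a6 := red m 6 5 (by norm_num) (hm 5 Nat.prime_five (by norm_num) 2)
    have key : ∀ s ∈ Finset.range 30, (¬ 2 ∣ s + 0 ∧ ¬ 3 ∣ s + 0 ∧ ¬ 3 ∣ s + 2 ∧ ¬ 5 ∣ s + 0 ∧ ¬ 5 ∣ s + 2 ∧ ¬ 5 ∣ s + 6) → s ∈ ({11, 17} : Finset ℕ) := by decide
    exact key _ (Finset.mem_range.2 (Nat.mod_lt _ (by norm_num))) ⟨a1, a2, a3, a4, a5, a6⟩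
  dif := by
    intro p hp hM i j hij
    apply dif30 p hp hM
    revert i j
    decide
  zero := ⟨0, rfl⟩
  pos := by norm_num

lemma pat_tb : Pat2 30 tb {7, 13} where
  tup := by
    intro c hc
    rw [Finset.mem_insert, Finset.mem_singleton] at hc
    rcases hc with rfl | rfl
    · exact ⟨sq30, by decide, fun p hp h => pr30 p hp (by omega), by decide, by decide, by norm_num⟩
    · exact ⟨sq30, by decide, fun p hp h => pr30 p hp (by omega), by decide, by decide, by norm_num⟩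
  one := by decide
  lt := by decide
  cls := by
    intro m hm
    have a1 := red m 0 2 (by norm_num) (hm 2 Nat.prime_two (by norm_num) 0)
    have a2 := red m 0 3 (by norm_num) (hm 3 Nat.prime_three (by norm_num) 0)
    have a3 := red m 4 3 (by norm_num) (hm 3 Nat.prime_three (by norm_num) 1)
    have a4 := red m 0 5 (by norm_num) (hm 5 Nat.prime_five (by norm_num) 0)
    have a5 := red m 4 5 (by norm_num) (hm 5 Nat.prime_five (by norm_num) 1)
    have a6 := red m 6 5 (by norm_num) (hm 5 Nat.prime_five (by norm_num) 2)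
    have key : ∀ s ∈ Finset.range 30, (¬ 2 ∣ s + 0 ∧ ¬ 3 ∣ s + 0 ∧ ¬ 3 ∣ s + 4 ∧ ¬ 5 ∣ s + 0 ∧ ¬ 5 ∣ s + 4 ∧ ¬ 5 ∣ s + 6) → s ∈ ({7, 13} : Finset ℕ) := by decide
    exact key _ (Finset.mem_range.2 (Nat.mod_lt _ (by norm_num))) ⟨a1, a2, a3, a4, a5, a6⟩
  dif := by
    intro p hp hM i j hij
    apply dif30 p hp hM
    revert i j
    decide
  zero := ⟨0, rfl⟩
  pos := by norm_num

variable {M : ℕ} {h : Fin k → ℕ} {C : Finset ℕ}

open Classical in
/-- **The law after primes for a constellation, complete form.** -/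
theorem pat_main (hP : Pat2 M h C) (hC : C.Nonempty) (θ δ : ℝ) (hθ : 0 < θ) (hδ : 0 < δ) (hδ1 : δ ≤ 1)
    (x₀ ε : ℝ) (hε : 0 < ε) (hε1 : ε ≤ 1) :
    ∃ r₀ : ℕ, 2 ≤ r₀ ∧ ∀ r : ℕ, r₀ ≤ r → ∃ N₀ : ℕ, ∀ N : ℕ, N₀ ≤ N →
      (∀ n : ℕ, n ≤ N → PG h N r n → ∀ i, (n + h i).primeFactorsList.length ≤ r) ∧
      (∀ n : ℕ, (N : ℝ) ^ (1 / (r : ℝ)) < n → (∀ i, (n + h i).Prime) → PG h N r n) ∧
      0 < PW M k N r ∧ (∀ n : ℕ, PG h N r n → n % M ∈ C) ∧ (30 : ℝ) < (N : ℝ) ^ (1 / (r : ℝ)) ∧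
      ∀ (i : Fin k) (X : ℕ), (N : ℝ) ^ θ ≤ X → ∀ A L : ℕ, δ * X ≤ L → A + L ≤ X →
        |((PP h N r i A L).card : ℝ) * Real.log X - C.card * (L / M * PW M k N r)| ≤
          ε * (C.card * (L / M * PW M k N r)) ∧
        ∀ T : ℕ, T * PV M k N r ≤ x₀ → ∀ B : Finset ℕ,
        |(((PP h N r i A L).filter (fun m => PNext h M N r T m ∈ B)).card : ℝ) -
          (PP h N r i A L).card * Poi (T * PV M k N r) B| ≤ ε * (PP h N r i A L).card := by
  obtain ⟨r0, hr0, hlaw⟩ := pat_law hP hC θ δ hθ hδ hδ1 x₀ ε hε hε1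
  refine ⟨r0, hr0, ?_⟩
  intro r hr
  have hr2 : 2 ≤ r := hr0.trans hr
  have hrr : (2 : ℝ) ≤ r := by exact_mod_cast hr2
  have hz : ∀ᶠ N : ℕ in atTop, max 31 ((M : ℝ) + ∑ i, ((h i : ℕ) : ℝ) + 1) ≤ (N : ℝ) ^ (1 / (r : ℝ)) :=
    ((tendsto_rpow_atTop (by positivity)).comp tendsto_natCast_atTop_atTop).eventually_ge_atTop _
  obtain ⟨N0, hN0⟩ := eventually_atTop.1 ((hlaw r hr).and hz)
  refine ⟨max N0 1000, ?_⟩
  intro N hN
  have hNN0 : N0 ≤ N := (le_max_left _ _).trans hN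
  have hN1000 : 1000 ≤ N := (le_max_right _ _).trans hN
  obtain ⟨h1, h2'⟩ := hN0 N hNN0
  have h2 : (M : ℝ) + ∑ i, ((h i : ℕ) : ℝ) + 1 ≤ (N : ℝ) ^ (1 / (r : ℝ)) := (le_max_right _ _).trans h2'
  have h30 : (31 : ℝ) ≤ (N : ℝ) ^ (1 / (r : ℝ)) := (le_max_left _ _).trans h2'
  have hNr : (1000 : ℝ) ≤ N := by exact_mod_cast hN1000
  have hpow : ((N : ℝ) ^ (1 / (r : ℝ))) ^ r = N := by
    rw [← Real.rpow_natCast, ← Real.rpow_mul (by linarith), one_div, inv_mul_cancel₀ (by linarith),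
      Real.rpow_one]
  have hsum0 : (0 : ℝ) ≤ ∑ i, ((h i : ℕ) : ℝ) := Finset.sum_nonneg fun _ _ => Nat.cast_nonneg _
  have hM0 : (0 : ℝ) ≤ M := Nat.cast_nonneg _
  refine ⟨?_, ?_, hP.W_pos hC N r, ?_, by linarith, ?_⟩
  · intro n hn hg i
    have hhi : ((h i : ℕ) : ℝ) ≤ ∑ i, ((h i : ℕ) : ℝ) :=
      Finset.single_le_sum (f := fun i => ((h i : ℕ) : ℝ)) (fun _ _ => Nat.cast_nonneg _) (mem_univ i)
    by_cases h0 : n + h i = 0
    · rw [h0]
      simp
    · -- all prime factors exceed z, and n + h i ≤ N + z < z ^ (r + 1)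
      have hz1 : (1 : ℝ) < (N : ℝ) ^ (1 / (r : ℝ)) := by linarith
      have hlt : ((n + h i : ℕ) : ℝ) < ((N : ℝ) ^ (1 / (r : ℝ))) ^ (r + 1) := by
        rw [pow_succ, hpow]
        push_cast
        have hn' : (n : ℝ) ≤ N := by exact_mod_cast hn
        have h4 : (N : ℝ) * 2 ≤ N * (N : ℝ) ^ (1 / (r : ℝ)) :=
          mul_le_mul_of_nonneg_left (by linarith) (by linarith)
        have h5 : (N : ℝ) ^ (1 / (r : ℝ)) ≤ N := by
          calc (N : ℝ) ^ (1 / (r : ℝ)) ≤ (N : ℝ) ^ (1 : ℝ) := by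
                apply Real.rpow_le_rpow_of_exponent_le (by linarith)
                rw [div_le_one (by linarith)]
                linarith
            _ = N := Real.rpow_one _
        linarith
      by_contra hcon
      rw [not_le] at hcon
      have hrough : ∀ p ∈ (n + h i).primeFactorsList, (N : ℝ) ^ (1 / (r : ℝ)) ≤ p := by
        intro p hp
        by_contra hc
        rw [not_le] at hc
        exact hg p (Nat.prime_of_mem_primeFactorsList hp) hc.le i (Nat.dvd_of_mem_primeFactorsList hp)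
      have hprod : ∀ l : List ℕ, (∀ p ∈ l, (N : ℝ) ^ (1 / (r : ℝ)) ≤ p) →
          ((N : ℝ) ^ (1 / (r : ℝ))) ^ l.length ≤ ((l.prod : ℕ) : ℝ) := by
        intro l
        induction l with
        | nil => intro _; simp
        | cons a t ih =>
          intro hl
          rw [List.length_cons, pow_succ, List.prod_cons, Nat.cast_mul, mul_comm]
          exact mul_le_mul (hl a (by simp)) (ih (fun p hp => hl p (by simp [hp]))) (by positivity)
            (Nat.cast_nonneg _)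
      have h6 := hprod _ hrough
      rw [Nat.prod_primeFactorsList h0] at h6
      have h7 : ((N : ℝ) ^ (1 / (r : ℝ))) ^ (r + 1) ≤
          ((N : ℝ) ^ (1 / (r : ℝ))) ^ (n + h i).primeFactorsList.length :=
        pow_le_pow_right₀ hz1.le hcon
      linarith
  · intro n hn hpr p hp hpz i hd
    rw [(Nat.prime_dvd_prime_iff_eq hp (hpr i)).1 hd] at hpz
    push_cast at hpz
    have : (0 : ℝ) ≤ h i := Nat.cast_nonneg _
    linarith
  · intro n hn
    refine hP.mem N r (Nat.le_floor ?_) n hn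
    linarith
  · intro i X hX A L hL hAL
    exact h1 i X hX A L hL hAL

end Pool.Agent.Y879.PR
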