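import Pool.Agent.Y879.PR.Count

set_option autoImplicit false

/-!
# The Poisson law for sifted integers after primes
-/

namespace Pool.Agent.Y879.PR

open Finset Filter
open Pool.Agent.W123.RP Pool.Agent.H373R2.T7 Pool.Agent.W123.RU Pool.Agent.TH464.PO

lemma Base.QH {a b c : ℕ} {Q : ℕ → ℕ → Prop} (h : Base a b c Q) (H : Finset ℕ) (h0 : 0 ∉ H) :
    Base a b ((H.card + 1) * c) (QH Q (insert 0 H)) := by
  classical
  refine ⟨?_, ?_, ?_⟩
  · have h1 := perB_QH Q c h.per (insert 0 H)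
    rwa [card_insert_of_notMem h0] at h1
  · rintro p n hp hpa ⟨g, _, hg⟩
    exact h.non p (n + g) hp hpa hg
  · intro p n hp hpa hn
    exact ⟨0, mem_insert_self _ _, by rw [add_zero]; exact h.base p n hp hpa hn⟩

open Classical in
lemma om_QH (a b : ℕ) (Q : ℕ → ℕ → Prop) (y u Y : ℕ) (H : Finset ℕ) :
    Om a b (QH Q (insert 0 H)) y u Y = (Om a b Q y u Y).filter (fun n => ∀ h ∈ H, Sf Q y (n + h)) := by
  ext n
  unfold Om
  rw [mem_filter, mem_filter, mem_filter, sf_QH]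
  constructor
  · rintro ⟨h1, h2, h3⟩
    exact ⟨⟨h1, h2, by simpa using h3 0 (mem_insert_self _ _)⟩,
      fun h hh => h3 h (mem_insert_of_mem hh)⟩
  · rintro ⟨⟨h1, h2, h3⟩, h4⟩
    refine ⟨h1, h2, fun h hh => ?_⟩
    rcases mem_insert.1 hh with rfl | h5
    · simpa using h3
    · exact h4 h h5

open Classical in
lemma Wc_eq (Q : ℕ → ℕ → Prop) (y T n : ℕ) : Wc (Sf Q y) n T = Nw Q y T n := by
  unfold Nw Wc
  symm
  apply Finset.card_bij (fun h _ => n + h)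
  · intro h hh
    rw [mem_filter, mem_Icc] at hh
    rw [mem_filter, mem_Ioc]
    exact ⟨by omega, hh.2⟩
  · intro a _ b _ hab
    omega
  · intro m hm
    rw [mem_filter, mem_Ioc] at hm
    refine ⟨m - n, ?_, by omega⟩
    rw [mem_filter, mem_Icc, show n + (m - n) = m by omega]
    exact ⟨by omega, hm.2⟩

open Classical in
/-- binomial moments as sums over sets of shifts -/
lemma mom_eq (a b : ℕ) (Q : ℕ → ℕ → Prop) (y u Y k T : ℕ) :
    ∑ n ∈ Om a b Q y u Y, ((Wc (Sf Q y) n T).choose k : ℝ) =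
      ∑ H ∈ powersetCard k (Icc 1 T), ((Om a b (QH Q (insert 0 H)) y u Y).card : ℝ) := by
  have h1 : ∀ H ∈ powersetCard k (Icc 1 T), ((Om a b (QH Q (insert 0 H)) y u Y).card : ℝ) =
      ∑ n ∈ Om a b Q y u Y, if (∀ h ∈ H, Sf Q y (n + h)) then (1 : ℝ) else 0 := by
    intro H _
    rw [om_QH, Finset.sum_ite, Finset.sum_const_zero, add_zero, Finset.sum_const, nsmul_eq_mul, mul_one]
  rw [Finset.sum_congr rfl h1, Finset.sum_comm]
  apply Finset.sum_congr rfl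
  intro m _
  rw [Finset.sum_ite, Finset.sum_const_zero, add_zero, Finset.sum_const, nsmul_eq_mul, mul_one, Wc_eq]
  unfold Nw
  rw [← Finset.card_powersetCard]
  congr 2
  ext H
  rw [mem_filter, mem_powersetCard, mem_powersetCard]
  constructor
  · rintro ⟨a1, a2⟩
    exact ⟨⟨fun h hh => (mem_filter.1 (a1 hh)).1, a2⟩, fun h hh => (mem_filter.1 (a1 hh)).2⟩
  · rintro ⟨⟨a1, a2⟩, a3⟩
    exact ⟨fun h hh => mem_filter.2 ⟨a1 hh, a3 h hh⟩, a2⟩

open Classical in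
/-- **Binomial moments.** -/
theorem moment (a c k : ℕ) (ha : Squarefree a) (η δ : ℝ) (hη : 0 < η) (hη1 : η ≤ 1)
    (hδ : 0 < δ) (hδ1 : δ ≤ 1) :
    ∃ (K T0 : ℕ) (η' : ℝ), 0 < η' ∧ ∀ U : ℕ, ∃ x0 : ℕ, ∀ X y T : ℕ, x0 ≤ y → y ^ K ≤ X → T0 ≤ T →
      ∀ b : ℕ, b ≤ X → Nat.Coprime a b → ∀ Q : ℕ → ℕ → Prop, Base a b c Q →
      (∀ p : ℕ, p.Prime → nuB Q p < p) →
      (∀ T' : ℕ, T ≤ 2 * T' → T' ≤ 2 * T →
        ∀ t ∈ Icc 1 T', ((((pz y).filter (fun p : ℕ => T' < p ∧ CoG Q p t)).card : ℕ) : ℝ) ≤ η' * T') →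
      ∀ u Y : ℕ, δ * X ≤ u → δ * X ≤ Y → u + Y ≤ X →
      |(∑ n ∈ Om a b Q y u Y, ((Wc (Sf Q y) n T).choose k : ℝ)) * Real.log X -
        Y / Vz y * (Vq Q y * ((T * Vq Q y) ^ k / k.factorial))| ≤
        η * (Y / Vz y * (Vq Q y * ((T * Vq Q y) ^ k / k.factorial))) +
          (T : ℝ) ^ k * (X / Real.log X ^ U) := by
  obtain ⟨K, hK, hcount⟩ := prime_count a ((k + 1) * c) ha (η / 4) δ (by positivity) (by linarith) hδ hδ1
  obtain ⟨w, η', T0, hη', hpalm⟩ := palm_avg c k (η / 4) (by positivity) (by linarith)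
  refine ⟨K, T0, η', hη', ?_⟩
  intro U
  obtain ⟨x0, hx0⟩ := hcount U
  refine ⟨max x0 (max w 3), ?_⟩
  intro X y T hy hyX hT b hbX hab Q hQ hadm hlarge u Y hu hY huY
  have hy0 : x0 ≤ y := (le_max_left _ _).trans hy
  have hyw : w ≤ y := ((le_max_left _ _).trans (le_max_right _ _)).trans hy
  have hy3 : 3 ≤ y := ((le_max_right _ _).trans (le_max_right _ _)).trans hy
  have hyX' : y ≤ X := (Nat.le_self_pow (by omega) y).trans hyX
  have hX1 : (1 : ℝ) ≤ X := by exact_mod_cast (by omega : 1 ≤ X)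
  have hl0 : 0 ≤ Real.log X := Real.log_nonneg hX1
  have hp := hpalm T hT Q hQ.per hadm y hyw hlarge
  have hVz := Vz_pos y
  obtain ⟨G, hG⟩ : ∃ G : ℝ, G = Y / Vz y := ⟨_, rfl⟩
  have hG0 : 0 ≤ G := by rw [hG]; exact div_nonneg (Nat.cast_nonneg _) hVz.le
  obtain ⟨m, hm⟩ : ∃ m : ℝ, m = Vq Q y * ((T * Vq Q y) ^ k / k.factorial) := ⟨_, rfl⟩
  have hm0 : 0 ≤ m := by
    rw [hm]
    have := Vq_nonneg Q y
    positivity
  obtain ⟨E, hE⟩ : ∃ E : ℝ, E = X / Real.log X ^ U := ⟨_, rfl⟩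
  have hE0 : 0 ≤ E := by rw [hE]; positivity
  rw [← hm] at hp ⊢
  rw [← hG, ← hE]
  rw [mom_eq, Finset.sum_mul]
  have h1 : |∑ H ∈ powersetCard k (Icc 1 T), ((Om a b (QH Q (insert 0 H)) y u Y).card : ℝ) * Real.log X -
      G * Ps Q y k T| ≤ η / 4 * (G * Ps Q y k T) + (T : ℝ) ^ k * E := by
    have e : G * Ps Q y k T = ∑ H ∈ powersetCard k (Icc 1 T),
        (Y : ℝ) * (Vq (QH Q (insert 0 H)) y / Vz y) := by
      unfold Ps
      rw [hG, Finset.mul_sum]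
      apply Finset.sum_congr rfl
      intros
      ring
    rw [e, ← Finset.sum_sub_distrib]
    refine (Finset.abs_sum_le_sum_abs _ _).trans ?_
    have h2 : ∀ H ∈ powersetCard k (Icc 1 T),
        |((Om a b (QH Q (insert 0 H)) y u Y).card : ℝ) * Real.log X -
          (Y : ℝ) * (Vq (QH Q (insert 0 H)) y / Vz y)| ≤
        η / 4 * (Y * (Vq (QH Q (insert 0 H)) y / Vz y)) + E := by
      intro H hH
      rw [mem_powersetCard] at hH
      have h0 : 0 ∉ H := fun h => by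
        have := mem_Icc.1 (hH.1 h)
        omega
      have hb := hQ.QH H h0
      rw [hH.2] at hb
      rw [hE]
      exact hx0 X y hy0 hyX b hbX hab (QH Q (insert 0 H)) hb u Y hu hY huY
    refine (Finset.sum_le_sum h2).trans ?_
    rw [Finset.sum_add_distrib, ← Finset.mul_sum, Finset.sum_const, nsmul_eq_mul]
    have h3 : ((powersetCard k (Icc 1 T)).card : ℝ) ≤ (T : ℝ) ^ k := by
      rw [card_powersetCard, Nat.card_Icc, Nat.add_sub_cancel]
      exact_mod_cast Nat.choose_le_pow T k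
    have h4 := mul_le_mul_of_nonneg_right h3 hE0
    linarith
  have h5 : |G * Ps Q y k T - G * m| ≤ η / 4 * (G * m) := by
    rw [← mul_sub, abs_mul, abs_of_nonneg hG0]
    calc G * |Ps Q y k T - m| ≤ G * (η / 4 * m) := mul_le_mul_of_nonneg_left hp hG0
      _ = _ := by ring
  have hGm : 0 ≤ G * m := mul_nonneg hG0 hm0
  have h6 : G * Ps Q y k T ≤ 2 * (G * m) := by
    have h7 := (abs_le.1 h5).2
    nlinarith
  have h9 := abs_sub_le (∑ H ∈ powersetCard k (Icc 1 T),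
      ((Om a b (QH Q (insert 0 H)) y u Y).card : ℝ) * Real.log X) (G * Ps Q y k T) (G * m)
  have h10 : η / 4 * (G * Ps Q y k T) ≤ η / 4 * (2 * (G * m)) :=
    mul_le_mul_of_nonneg_left h6 (by positivity)
  have h11 : 0 ≤ η * (G * m) := by positivity
  linarith

open Classical in
/-- **The Poisson law after primes.** -/
theorem prime_law (a c C : ℕ) (ha : Squarefree a) (x0 ε δ : ℝ) (hx0 : 0 ≤ x0) (hε : 0 < ε)
    (hε1 : ε ≤ 1) (hδ : 0 < δ) (hδ1 : δ ≤ 1) :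
    ∃ (K y0 T0 : ℕ) (η' : ℝ), 0 < η' ∧ ∀ X y T : ℕ, y0 ≤ y → y ^ K ≤ X → T0 ≤ T →
      ∀ b : ℕ, b ≤ X → Nat.Coprime a b → ∀ Q : ℕ → ℕ → Prop, Base a b c Q →
      (∀ p : ℕ, p.Prime → nuB Q p < p) → 1 / Real.log X ^ C ≤ Vq Q y → T * Vq Q y ≤ x0 →
      (∀ T' : ℕ, T ≤ 2 * T' → T' ≤ 2 * T →
        ∀ t ∈ Icc 1 T', ((((pz y).filter (fun p : ℕ => T' < p ∧ CoG Q p t)).card : ℕ) : ℝ) ≤ η' * T') →
      ∀ u Y : ℕ, δ * X ≤ u → δ * X ≤ Y → u + Y ≤ X →
      |((Om a b Q y u Y).card : ℝ) * Real.log X - Y * (Vq Q y / Vz y)| ≤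
        ε * (Y * (Vq Q y / Vz y)) ∧
      ∀ A : Finset ℕ, |(((Om a b Q y u Y).filter (fun n => Wc (Sf Q y) n T ∈ A)).card : ℝ) -
        (Om a b Q y u Y).card * ∑ j ∈ A, Real.exp (-(T * Vq Q y)) * (T * Vq Q y) ^ j / j.factorial| ≤
        ε * (Om a b Q y u Y).card := by
  obtain ⟨R, η, hη, htv⟩ := law_tv x0 ε hx0 hε
  obtain ⟨X1, hX1⟩ : ∃ X1 : ℝ, X1 = (1 + x0) ^ R := ⟨_, rfl⟩
  have hX1pos : 1 ≤ X1 := by rw [hX1]; exact one_le_pow₀ (by linarith)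
  obtain ⟨η1, hη1⟩ : ∃ η1 : ℝ, η1 = min (ε / 4) (η / (8 * X1)) := ⟨_, rfl⟩
  have hη10 : 0 < η1 := by rw [hη1]; positivity
  have hη11 : η1 ≤ ε / 4 := by rw [hη1]; exact min_le_left _ _
  have hη12 : 8 * (η1 * X1) ≤ η := by
    have : η1 ≤ η / (8 * X1) := by rw [hη1]; exact min_le_right _ _
    rw [le_div_iff₀ (by positivity)] at this
    linarith
  choose K T0 η' hη' hmom using fun k => moment a c k ha η1 δ hη10 (by linarith) hδ hδ1
  obtain ⟨U, hU⟩ : ∃ U : ℕ, U = C * R + C + 1 := ⟨_, rfl⟩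
  choose y0 hy0 using fun k => hmom k U
  obtain ⟨η0, hη00, hη0⟩ := exists_lower η' hη' (R + 1)
  have hlogX : Tendsto (fun X : ℕ => Real.log (X : ℝ)) atTop atTop :=
    Real.tendsto_log_atTop.comp tendsto_natCast_atTop_atTop
  obtain ⟨Z1, hZ1⟩ := eventually_atTop.1 ((hlogX.eventually_ge_atTop ((x0 + 1) ^ R / (η1 * δ))).and
    (hlogX.eventually_ge_atTop 1))
  refine ⟨(∑ k ∈ range (R + 1), K k) + 1, (∑ k ∈ range (R + 1), y0 k) + Z1 + 3,
    (∑ k ∈ range (R + 1), T0 k) + 1, η0, hη00, ?_⟩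
  intro X y T hy hyX hT b hbX hab Q hQ hadm hVlow hx hlarge u Y hu hY huY
  have hy3 : 3 ≤ y := by omega
  have hyX' : y ≤ X := (Nat.le_self_pow (by omega) y).trans hyX
  obtain ⟨z1, z2⟩ := hZ1 X (by omega)
  obtain ⟨l, hl⟩ : ∃ l, l = Real.log X := ⟨_, rfl⟩
  rw [← hl] at z1 z2 hVlow ⊢
  have hl0 : 0 < l := by linarith
  obtain ⟨V, hV⟩ : ∃ V, V = Vq Q y := ⟨_, rfl⟩
  have hV0 : 0 < V := by rw [hV]; exact Vq_pos Q hadm y
  rw [← hV] at hVlow hx ⊢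
  have hVz := Vz_pos y
  have hVz1 := Vz_le_one y
  obtain ⟨M, hM⟩ : ∃ M : ℝ, M = Y * (V / Vz y) := ⟨_, rfl⟩
  have hXr : (1 : ℝ) ≤ X := by exact_mod_cast (by omega : 1 ≤ X)
  have hYr : 0 < (Y : ℝ) := lt_of_lt_of_le (by positivity) hY
  have hM0 : 0 < M := by rw [hM]; positivity
  have hMlow : δ * X * (1 / l ^ C) ≤ M := by
    rw [hM]
    apply mul_le_mul hY _ (by positivity) hYr.le
    refine hVlow.trans ?_
    rw [le_div_iff₀ hVz]
    nlinarith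
  obtain ⟨x, hxdef⟩ : ∃ x, x = T * V := ⟨_, rfl⟩
  rw [← hxdef] at hx ⊢
  have hx00 : 0 ≤ x := by
    rw [hxdef]
    positivity
  have hT0r : (0 : ℝ) ≤ T := Nat.cast_nonneg _
  have hTup : (T : ℝ) ≤ (x0 + 1) * l ^ C := by
    have h1 : (T : ℝ) * (1 / l ^ C) ≤ x0 := (mul_le_mul_of_nonneg_left hVlow hT0r).trans (by
      rw [hxdef] at hx
      exact hx)
    rw [mul_one_div, div_le_iff₀ (by positivity)] at h1
    have : 0 ≤ l ^ C := by positivity
    nlinarith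
  -- the error terms
  have hEk : ∀ k ≤ R, (T : ℝ) ^ k * (X / l ^ U) ≤ η1 * M := by
    intro k hk
    have h1 : (T : ℝ) ^ k ≤ ((x0 + 1) * l ^ C) ^ R := by
      calc (T : ℝ) ^ k ≤ ((x0 + 1) * l ^ C) ^ k := pow_le_pow_left₀ hT0r hTup _
        _ ≤ ((x0 + 1) * l ^ C) ^ R := by
          apply pow_le_pow_right₀ _ hk
          have : 1 ≤ l ^ C := one_le_pow₀ z2
          nlinarith
    have h2 : (x0 + 1) ^ R ≤ l * (η1 * δ) := by
      rwa [div_le_iff₀ (by positivity)] at z1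
    calc (T : ℝ) ^ k * (X / l ^ U) ≤ ((x0 + 1) * l ^ C) ^ R * (X / l ^ U) := by gcongr
      _ = (x0 + 1) ^ R * (l ^ (C * R) * X / l ^ U) := by rw [mul_pow, ← pow_mul]; ring
      _ ≤ (l * (η1 * δ)) * (l ^ (C * R) * X / l ^ U) := by gcongr
      _ = η1 * (δ * X * (1 / l ^ C)) := by
          rw [hU, pow_add, pow_add, pow_one]
          field_simp
      _ ≤ η1 * M := by gcongr
  have hmk : ∀ k ≤ R, x ^ k / (k.factorial : ℝ) ≤ X1 := by
    intro k hk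
    have hf1 : (1 : ℝ) ≤ k.factorial := by exact_mod_cast Nat.factorial_pos k
    calc x ^ k / (k.factorial : ℝ) ≤ x ^ k := div_le_self (by positivity) hf1
      _ ≤ (1 + x0) ^ k := pow_le_pow_left₀ hx00 (by linarith) _
      _ ≤ (1 + x0) ^ R := pow_le_pow_right₀ (by linarith) hk
      _ = X1 := hX1.symm
  have hmain : ∀ k ≤ R, |(∑ n ∈ Om a b Q y u Y, ((Wc (Sf Q y) n T).choose k : ℝ)) * l -
      M * (x ^ k / k.factorial)| ≤ η1 * (M * (x ^ k / k.factorial)) + η1 * M := by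
    intro k hk
    have hkR : k ∈ range (R + 1) := mem_range.2 (by omega)
    have hKk : K k ≤ ∑ k ∈ range (R + 1), K k := Finset.single_le_sum (fun _ _ => Nat.zero_le _) hkR
    have hyk : y0 k ≤ ∑ k ∈ range (R + 1), y0 k := Finset.single_le_sum (fun _ _ => Nat.zero_le _) hkR
    have hTk : T0 k ≤ ∑ k ∈ range (R + 1), T0 k := Finset.single_le_sum (fun _ _ => Nat.zero_le _) hkR
    have h1 := hy0 k X y T (by omega)
      ((Nat.pow_le_pow_right (by omega) (by omega)).trans hyX) (by omega) b hbX hab Q hQ hadm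
      (fun T' g1 g2 t ht => (hlarge T' g1 g2 t ht).trans
        (mul_le_mul_of_nonneg_right (hη0 k (by omega)) (Nat.cast_nonneg _))) u Y hu hY huY
    rw [← hl, ← hV, ← hxdef] at h1
    have e : (Y : ℝ) / Vz y * (V * (x ^ k / k.factorial)) = M * (x ^ k / k.factorial) := by
      rw [hM]; ring
    rw [e] at h1
    have h2 := hEk k hk
    linarith
  obtain ⟨Nn, hN⟩ : ∃ Nn : ℝ, Nn = (Om a b Q y u Y).card := ⟨_, rfl⟩
  have hzero := hmain 0 (Nat.zero_le _)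
  have e0 : ∑ n ∈ Om a b Q y u Y, ((Wc (Sf Q y) n T).choose 0 : ℝ) = Nn := by
    rw [hN]
    simp
  rw [e0] at hzero
  simp only [pow_zero, Nat.factorial_zero, Nat.cast_one, div_one, mul_one] at hzero
  rw [← hN, ← hM]
  have hz := abs_le.1 hzero
  have hfirst : |Nn * l - M| ≤ ε * M := by
    refine hzero.trans ?_
    nlinarith
  refine ⟨hfirst, ?_⟩
  have hMN : M ≤ 2 * (Nn * l) := by nlinarith
  intro A
  have hN0 : 0 ≤ Nn := by rw [hN]; exact Nat.cast_nonneg _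
  have hfin := htv (Om a b Q y u Y) (fun n => Wc (Sf Q y) n T) x hx00 hx (by
    intro k hk
    rw [← hN]
    have h1 := hmain k hk
    have h2 := hmk k hk
    obtain ⟨mk, hmkdef⟩ : ∃ mk : ℝ, mk = x ^ k / (k.factorial : ℝ) := ⟨_, rfl⟩
    obtain ⟨S, hS⟩ : ∃ S : ℝ, S = ∑ n ∈ Om a b Q y u Y, ((Wc (Sf Q y) n T).choose k : ℝ) := ⟨_, rfl⟩
    rw [← hmkdef] at h1 h2 ⊢
    rw [← hS] at h1 ⊢
    have hmk0 : 0 ≤ mk := by rw [hmkdef]; positivity
    have h3 : |(S - Nn * mk) * l| ≤ η * Nn * l := by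
      have e : (S - Nn * mk) * l = (S * l - M * mk) + mk * (M - Nn * l) := by ring
      rw [e]
      refine (abs_add_le _ _).trans ?_
      have h4 : |mk * (M - Nn * l)| ≤ X1 * (2 * (η1 * M)) := by
        rw [abs_mul, abs_of_nonneg hmk0]
        apply mul_le_mul h2 _ (abs_nonneg _) (by linarith)
        rw [abs_sub_comm]
        linarith
      have h5 : η1 * (M * mk) ≤ η1 * (M * X1) := by gcongr
      have h6 : η1 * M ≤ η1 * (M * X1) := by
        apply mul_le_mul_of_nonneg_left _ hη10.le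
        nlinarith
      have h7 : 4 * (η1 * X1) * M ≤ 4 * (η1 * X1) * (2 * (Nn * l)) := by gcongr
      have h8 : 8 * (η1 * X1) * (Nn * l) ≤ η * (Nn * l) := by gcongr
      linarith
    rw [abs_mul, abs_of_pos hl0] at h3
    exact le_of_mul_le_mul_right h3 hl0) A
  rw [← hN] at hfin
  exact hfin

open Classical in
/-- **The Poisson law after primes**, all windows of bounded mean. -/
theorem prime_law_all (a c C : ℕ) (ha : Squarefree a) (x0 ε δ : ℝ) (hε : 0 < ε)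
    (hε1 : ε ≤ 1) (hδ : 0 < δ) (hδ1 : δ ≤ 1) :
    ∃ (K y0 T0 : ℕ) (η' κ x1 : ℝ), 0 < η' ∧ 0 < κ ∧ 0 < x1 ∧ ∀ X y : ℕ, y0 ≤ y → y ^ K ≤ X →
      ∀ b : ℕ, b ≤ X → Nat.Coprime a b → ∀ Q : ℕ → ℕ → Prop, Base a b c Q →
      (∀ p : ℕ, p.Prime → nuB Q p < p) → 1 / Real.log X ^ C ≤ Vq Q y → Vq Q y ≤ κ →
      (∀ T : ℕ, κ ≤ T * Vq Q y → T * Vq Q y ≤ x1 → T0 ≤ T ∧ ∀ t ∈ Icc 1 T,
        ((((pz y).filter (fun p : ℕ => T < p ∧ CoG Q p t)).card : ℕ) : ℝ) ≤ η' * T) →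
      ∀ u Y : ℕ, δ * X ≤ u → δ * X ≤ Y → u + Y ≤ X →
      |((Om a b Q y u Y).card : ℝ) * Real.log X - Y * (Vq Q y / Vz y)| ≤
        ε * (Y * (Vq Q y / Vz y)) ∧
      ∀ T : ℕ, T * Vq Q y ≤ x0 →
      ∀ A : Finset ℕ, |(((Om a b Q y u Y).filter (fun n => Wc (Sf Q y) n T ∈ A)).card : ℝ) -
        (Om a b Q y u Y).card * ∑ j ∈ A, Real.exp (-(T * Vq Q y)) * (T * Vq Q y) ^ j / j.factorial| ≤
        ε * (Om a b Q y u Y).card := by
  obtain ⟨κ, hκ⟩ : ∃ κ, κ = ε / 16 := ⟨_, rfl⟩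
  have hκ0 : 0 < κ := by rw [hκ]; positivity
  obtain ⟨z, hz⟩ : ∃ z : ℝ, z = max x0 1 := ⟨_, rfl⟩
  have hz1 : 1 ≤ z := by rw [hz]; exact le_max_right _ _
  have hzx : x0 ≤ z := by rw [hz]; exact le_max_left _ _
  obtain ⟨K, y0, T0, η', hη', hlaw⟩ := prime_law a c C ha z (ε / 4) δ (by linarith) (by positivity)
    (by linarith) hδ hδ1
  refine ⟨K, y0, T0, η', κ, 2 * z, hη', hκ0, by positivity, ?_⟩
  intro X y hy hyX b hbX hab Q hQ hadm hVlow hVκ hT u Y hu hY huY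
  have hV0 : 0 < Vq Q y := Vq_pos Q hadm y
  have hVz := Vz_pos y
  have hmain : ∀ T : ℕ, 2 * κ ≤ T * Vq Q y → T * Vq Q y ≤ z →
      |((Om a b Q y u Y).card : ℝ) * Real.log X - Y * (Vq Q y / Vz y)| ≤
        ε / 4 * (Y * (Vq Q y / Vz y)) ∧
      ∀ A : Finset ℕ, |(((Om a b Q y u Y).filter (fun n => Wc (Sf Q y) n T ∈ A)).card : ℝ) -
        (Om a b Q y u Y).card * ∑ j ∈ A, Real.exp (-(T * Vq Q y)) * (T * Vq Q y) ^ j / j.factorial| ≤
        ε / 4 * (Om a b Q y u Y).card := by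
    intro T h1 h2
    have hTt := hT T (by linarith) (by linarith)
    refine hlaw X y T hy hyX hTt.1 b hbX hab Q hQ hadm hVlow h2 ?_ u Y hu hY huY
    intro T' g1 g2
    have g1r : (T : ℝ) ≤ 2 * T' := by exact_mod_cast g1
    have g2r : (T' : ℝ) ≤ 2 * T := by exact_mod_cast g2
    refine (hT T' ?_ ?_).2
    · have := mul_le_mul_of_nonneg_right g1r hV0.le
      linarith
    · have := mul_le_mul_of_nonneg_right g2r hV0.le
      linarith
  obtain ⟨T'', w1, w2, w3⟩ := exists_window (Vq Q y) (2 * κ) hV0 (by linarith)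
  have hκz : 2 * (2 * κ) ≤ z := by
    have : κ ≤ 1 / 16 := by rw [hκ]; linarith
    linarith
  obtain ⟨m1, m2⟩ := hmain T'' w1 (w2.trans hκz)
  have hYV : 0 ≤ (Y : ℝ) * (Vq Q y / Vz y) := by positivity
  refine ⟨m1.trans (mul_le_mul_of_nonneg_right (by linarith) hYV), ?_⟩
  intro T hTx A
  have hOm : (0 : ℝ) ≤ ((Om a b Q y u Y).card : ℝ) := Nat.cast_nonneg _
  by_cases hκT : 2 * κ ≤ T * Vq Q y
  · refine ((hmain T hκT (hTx.trans hzx)).2 A).trans ?_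
    apply mul_le_mul_of_nonneg_right (by linarith) hOm
  · rw [not_le] at hκT
    have h5 := extend (Om a b Q y u Y) (fun n => Wc (Sf Q y) n T) (fun n => Wc (Sf Q y) n T'')
      (fun n => Wc_mono (Sf Q y) n T T'' (w3 T hκT)) (T * Vq Q y) (T'' * Vq Q y) (ε / 4)
      (by positivity) (by linarith) (m2 {0}) A
    refine h5.trans ?_
    apply mul_le_mul_of_nonneg_right _ hOm
    rw [hκ] at w2
    linarith

end Pool.Agent.Y879.PR
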