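import Pool.Agent.TH464.PO.Gen

set_option autoImplicit false

/-!
# Averages of the singular series with one fixed point
-/

namespace Pool.Agent.Y879.PR

open Finset Filter
open Pool.Agent.W123.RP Pool.Agent.H373R2.T7 Pool.Agent.W123.RU Pool.Agent.TH464.PO

/-- the sum over the sets of shifts in `[1, T]` -/
noncomputable def Ss (Q : ℕ → ℕ → Prop) (y k T : ℕ) : ℝ :=
  ∑ H ∈ powersetCard k (Icc 1 T), Vq (QH Q H) y

/-- the sum with the shift `0` added -/
noncomputable def Ps (Q : ℕ → ℕ → Prop) (y k T : ℕ) : ℝ :=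
  ∑ H ∈ powersetCard k (Icc 1 T), Vq (QH Q (insert 0 H)) y

lemma Ps_nonneg (Q : ℕ → ℕ → Prop) (y k T : ℕ) : 0 ≤ Ps Q y k T :=
  Finset.sum_nonneg fun _ _ => Vq_nonneg _ _

lemma Ps_mono (Q : ℕ → ℕ → Prop) (y k T T' : ℕ) (h : T ≤ T') : Ps Q y k T ≤ Ps Q y k T' := by
  unfold Ps
  apply Finset.sum_le_sum_of_subset_of_nonneg
  · exact powersetCard_mono (Icc_subset_Icc_right h)
  · intro _ _ _
    exact Vq_nonneg _ _

lemma Vq_shift (Q : ℕ → ℕ → Prop) (c : ℕ) (hQ : PerB Q c) (H : Finset ℕ) (y : ℕ) :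
    Vq (QH Q (H.image (· + 1))) y = Vq (QH Q H) y := by
  classical
  have hper := perB_QH Q c hQ H
  unfold Vq
  apply Finset.prod_congr rfl
  intro p _
  have h1 : nuB (QH Q (H.image (· + 1))) p = nuB (QH Q H) p := by
    rw [← nuB_shift (QH Q H) _ hper 1 p]
    unfold nuB
    congr 1
    apply Finset.filter_congr
    intro r _
    unfold QH
    constructor
    · rintro ⟨h, hh, hq⟩
      obtain ⟨g, hg, rfl⟩ := Finset.mem_image.1 hh
      exact ⟨g, hg, by rwa [show r + 1 + g = r + (g + 1) by ring]⟩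
    · rintro ⟨h, hh, hq⟩
      exact ⟨h + 1, Finset.mem_image.2 ⟨h, hh, rfl⟩, by rwa [show r + (h + 1) = r + 1 + h by ring]⟩
  rw [h1]

lemma Ss_shift (Q : ℕ → ℕ → Prop) (c : ℕ) (hQ : PerB Q c) (y k T : ℕ) :
    ∑ H ∈ powersetCard k (Icc 0 T), Vq (QH Q H) y = Ss Q y k (T + 1) := by
  classical
  unfold Ss
  have hinj : Function.Injective (fun x : ℕ => x + 1) := fun a b h => by
    simpa using h
  apply Finset.sum_bij (fun (H : Finset ℕ) _ => H.image (· + 1))
  · intro H hH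
    rw [mem_powersetCard] at hH ⊢
    refine ⟨?_, ?_⟩
    · intro x hx
      obtain ⟨g, hg, rfl⟩ := Finset.mem_image.1 hx
      have := mem_Icc.1 (hH.1 hg)
      exact mem_Icc.2 ⟨by omega, by omega⟩
    · rw [card_image_of_injective _ hinj, hH.2]
  · intro H1 _ H2 _ h
    exact Finset.image_injective hinj h
  · intro H hH
    rw [mem_powersetCard] at hH
    have hpos : ∀ x ∈ H, 1 ≤ x := fun x hx => (mem_Icc.1 (hH.1 hx)).1
    refine ⟨H.image (· - 1), ?_, ?_⟩
    · rw [mem_powersetCard]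
      refine ⟨?_, ?_⟩
      · intro x hx
        obtain ⟨g, hg, rfl⟩ := Finset.mem_image.1 hx
        have := mem_Icc.1 (hH.1 hg)
        exact mem_Icc.2 ⟨by omega, by omega⟩
      · rw [card_image_of_injOn, hH.2]
        intro a ha b hb hab
        have h1 := hpos a ha
        have h2 := hpos b hb
        simp only at hab
        omega
    · rw [Finset.image_image]
      have : H.image ((· + 1) ∘ (· - 1)) = H.image id := by
        apply Finset.image_congr
        intro x hx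
        have := hpos x hx
        simp only [Function.comp_apply, id]
        omega
      rw [this, Finset.image_id]
  · intro H _
    rw [Vq_shift Q c hQ]

lemma Ss_succ (Q : ℕ → ℕ → Prop) (c : ℕ) (hQ : PerB Q c) (y k T : ℕ) :
    Ss Q y (k + 1) (T + 1) = Ss Q y (k + 1) T + Ps Q y k T := by
  classical
  rw [← Ss_shift Q c hQ]
  have h0 : Icc 0 T = insert 0 (Icc 1 T) := by
    ext x
    simp only [mem_insert, mem_Icc]
    omega
  have hn : (0 : ℕ) ∉ Icc 1 T := by simp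
  rw [h0, Finset.powersetCard_succ_insert hn, Finset.sum_union, Finset.sum_image]
  · rfl
  · intro H1 h1 H2 h2 h
    have g1 : 0 ∉ H1 := fun h => hn ((mem_powersetCard.1 h1).1 h)
    have g2 : 0 ∉ H2 := fun h => hn ((mem_powersetCard.1 h2).1 h)
    rw [← Finset.erase_insert g1, ← Finset.erase_insert g2, h]
  · rw [Finset.disjoint_left]
    intro H h1 h2
    obtain ⟨G, _, rfl⟩ := Finset.mem_image.1 h2
    exact hn ((mem_powersetCard.1 h1).1 (mem_insert_self _ _))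

lemma Ss_add (Q : ℕ → ℕ → Prop) (c : ℕ) (hQ : PerB Q c) (y k T D : ℕ) :
    D * Ps Q y k T ≤ Ss Q y (k + 1) (T + D) - Ss Q y (k + 1) T ∧
      Ss Q y (k + 1) (T + D) - Ss Q y (k + 1) T ≤ D * Ps Q y k (T + D) := by
  induction D with
  | zero => simp
  | succ D ih =>
    rw [← add_assoc, Ss_succ Q c hQ]
    have h1 := Ps_mono Q y k T (T + D) (by omega)
    have h2 := Ps_mono Q y k (T + D) (T + D + 1) (by omega)
    have hD : (0 : ℝ) ≤ D := Nat.cast_nonneg D
    have h3 := mul_le_mul_of_nonneg_left h2 hD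
    push_cast
    constructor
    · linarith [ih.1]
    · linarith [ih.2]

lemma pow_diff_up (k : ℕ) (x y : ℝ) (hy : 0 ≤ y) (hxy : y ≤ x) :
    x ^ (k + 1) - y ^ (k + 1) ≤ (k + 1) * (x - y) * x ^ k := by
  induction k with
  | zero => simp
  | succ k ih =>
    have hx : 0 ≤ x := hy.trans hxy
    have h1 : y ^ (k + 1) ≤ x ^ (k + 1) := pow_le_pow_left₀ hy hxy _
    have h2 : x ^ (k + 1 + 1) - y ^ (k + 1 + 1) =
        x * (x ^ (k + 1) - y ^ (k + 1)) + (x - y) * y ^ (k + 1) := by ring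
    rw [h2]
    have h3 := mul_le_mul_of_nonneg_left ih hx
    have h4 := mul_le_mul_of_nonneg_left h1 (sub_nonneg.2 hxy)
    push_cast
    calc x * (x ^ (k + 1) - y ^ (k + 1)) + (x - y) * y ^ (k + 1) ≤
        x * ((k + 1) * (x - y) * x ^ k) + (x - y) * x ^ (k + 1) := by linarith
      _ = _ := by ring

lemma pow_diff_lo (k : ℕ) (x y : ℝ) (hy : 0 ≤ y) (hxy : y ≤ x) :
    (k + 1) * (x - y) * y ^ k ≤ x ^ (k + 1) - y ^ (k + 1) := by
  induction k with
  | zero => simp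
  | succ k ih =>
    have hx : 0 ≤ x := hy.trans hxy
    have h2 : x ^ (k + 1 + 1) - y ^ (k + 1 + 1) =
        x * (x ^ (k + 1) - y ^ (k + 1)) + (x - y) * y ^ (k + 1) := by ring
    rw [h2]
    have h5 : 0 ≤ x ^ (k + 1) - y ^ (k + 1) := sub_nonneg.2 (pow_le_pow_left₀ hy hxy _)
    have h3 := mul_le_mul_of_nonneg_left ih hy
    have h4 := mul_le_mul_of_nonneg_right hxy h5
    push_cast
    calc ((k : ℝ) + 1 + 1) * (x - y) * y ^ (k + 1) =
        y * ((k + 1) * (x - y) * y ^ k) + (x - y) * y ^ (k + 1) := by ring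
      _ ≤ _ := by linarith

open Classical in
/-- **The average of the singular series with one fixed point.** -/
theorem palm_avg (c k : ℕ) (η : ℝ) (hη : 0 < η) (hη1 : η ≤ 1) :
    ∃ (w : ℕ) (η' : ℝ) (T0 : ℕ), 0 < η' ∧ ∀ T : ℕ, T0 ≤ T → ∀ Q : ℕ → ℕ → Prop, PerB Q c →
      (∀ p : ℕ, p.Prime → nuB Q p < p) → ∀ y : ℕ, w ≤ y →
      (∀ T' : ℕ, T ≤ 2 * T' → T' ≤ 2 * T →
        ∀ t ∈ Icc 1 T', ((((pz y).filter (fun p : ℕ => T' < p ∧ CoG Q p t)).card : ℕ) : ℝ) ≤ η' * T') →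
      |Ps Q y k T - Vq Q y * ((T * Vq Q y) ^ k / k.factorial)| ≤
        η * (Vq Q y * ((T * Vq Q y) ^ k / k.factorial)) := by
  obtain ⟨δ, hδ⟩ : ∃ δ : ℝ, δ = η / (8 * 2 ^ k) := ⟨_, rfl⟩
  have h2k : (1 : ℝ) ≤ 2 ^ k := one_le_pow₀ (by norm_num)
  have hδ0 : 0 < δ := by rw [hδ]; positivity
  have hδη : δ * (8 * 2 ^ k) = η := by rw [hδ]; field_simp
  have hδ1 : δ ≤ 1 / 8 := by nlinarith
  obtain ⟨η1, hη1def⟩ : ∃ η1 : ℝ, η1 = η * δ / (16 * 2 ^ k) := ⟨_, rfl⟩
  have hη10 : 0 < η1 := by rw [hη1def]; positivity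
  have hη1η : η1 * (16 * 2 ^ k) = η * δ := by rw [hη1def]; field_simp
  have hη11 : η1 ≤ 1 := by nlinarith
  obtain ⟨w, η', T0, hη', hsing⟩ := sing_avg c k η1 hη10 hη11
  obtain ⟨T1, hT1⟩ : ∃ T1 : ℕ, 1 / δ ≤ T1 := exists_nat_ge _
  refine ⟨w, η', 2 * T0 + T1 + 2, hη', ?_⟩
  intro T hT Q hQ hadm y hwy hlarge
  have hTr : (0 : ℝ) < T := by exact_mod_cast (by omega : 0 < T)
  have hδT : 1 ≤ δ * T := by
    have h1 : 1 / δ ≤ T := hT1.trans (by exact_mod_cast (by omega : T1 ≤ T))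
    rw [div_le_iff₀ hδ0] at h1
    linarith
  obtain ⟨D, hD⟩ : ∃ D : ℕ, D = ⌈δ * T⌉₊ := ⟨_, rfl⟩
  have hD1 : δ * T ≤ D := by rw [hD]; exact Nat.le_ceil _
  have hD2 : (D : ℝ) ≤ 2 * (δ * T) := by
    have := Nat.ceil_lt_add_one (show 0 ≤ δ * T by positivity)
    rw [← hD] at this
    linarith
  have hDpos : (0 : ℝ) < D := by linarith
  have hDT : (D : ℝ) ≤ T / 4 := by nlinarith
  have hDT' : 4 * D ≤ T := by
    have : (4 : ℝ) * D ≤ T := by linarith
    exact_mod_cast this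
  obtain ⟨V, hV⟩ : ∃ V, V = Vq Q y := ⟨_, rfl⟩
  have hV0 : 0 < V := by rw [hV]; exact Vq_pos Q hadm y
  have hfac : (0 : ℝ) < k.factorial := by exact_mod_cast Nat.factorial_pos k
  obtain ⟨a, ha⟩ : ∃ a : ℝ, a = V ^ (k + 1) / (k + 1).factorial := ⟨_, rfl⟩
  have ha0 : 0 < a := by
    rw [ha]
    have : (0 : ℝ) < (k + 1).factorial := by exact_mod_cast Nat.factorial_pos (k + 1)
    positivity
  have hak : a * (k + 1) = V ^ (k + 1) / k.factorial := by
    rw [ha, Nat.factorial_succ]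
    push_cast
    field_simp
  have hS : ∀ T' : ℕ, T ≤ 2 * T' → T' ≤ 2 * T → (1 - η1) * (a * (T' : ℝ) ^ (k + 1)) ≤ Ss Q y (k + 1) T' ∧
      Ss Q y (k + 1) T' ≤ (1 + η1) * (a * (T' : ℝ) ^ (k + 1)) := by
    intro T' h1 h2
    obtain ⟨s1, s2⟩ := hsing T' (by omega) Q hQ hadm y hwy (hlarge T' h1 h2)
    have e : ((T' : ℝ) * Vq Q y) ^ (k + 1) / ((k + 1).factorial : ℝ) = a * (T' : ℝ) ^ (k + 1) := by
      rw [ha, hV, mul_pow]
      ring
    rw [e] at s1 s2
    exact ⟨s1, s2⟩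
  obtain ⟨m, hm⟩ : ∃ m : ℝ, m = V * ((T * V) ^ k / k.factorial) := ⟨_, rfl⟩
  have hm0 : 0 < m := by rw [hm]; positivity
  have hm2 : m = a * (k + 1) * (T : ℝ) ^ k := by
    rw [hm, hak, mul_pow, pow_succ]
    ring
  rw [← hV, ← hm]
  have hkr : (0 : ℝ) ≤ k := Nat.cast_nonneg k
  -- upper bound
  have hup : Ps Q y k T ≤ (1 + η) * m := by
    have h1 := (Ss_add Q c hQ y k T D).1
    have h2 := (hS (T + D) (by omega) (by omega)).2
    have h3 := (hS T (by omega) (by omega)).1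
    push_cast at h2
    have h4 := pow_diff_up k ((T : ℝ) + D) T hTr.le (by linarith)
    have h5 : (T : ℝ) ^ (k + 1) ≤ ((T : ℝ) + D) ^ (k + 1) := pow_le_pow_left₀ hTr.le (by linarith) _
    have h6 : D * Ps Q y k T ≤ a * ((k + 1) * D * ((T : ℝ) + D) ^ k) +
        2 * η1 * (a * ((T : ℝ) + D) ^ (k + 1)) := by
      have h7 : a * (((T : ℝ) + D) ^ (k + 1) - (T : ℝ) ^ (k + 1)) ≤
          a * ((k + 1) * D * ((T : ℝ) + D) ^ k) := by
        apply mul_le_mul_of_nonneg_left _ ha0.le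
        refine h4.trans (le_of_eq ?_)
        ring
      have h8 : η1 * (a * (T : ℝ) ^ (k + 1)) ≤ η1 * (a * ((T : ℝ) + D) ^ (k + 1)) := by gcongr
      nlinarith
    have hTD : (T : ℝ) + D ≤ T * (1 + 2 * δ) := by nlinarith
    have h9 : ((T : ℝ) + D) ^ k ≤ (T : ℝ) ^ k * (1 + η / 2) := by
      have h10 := one_add_pow_le k (2 * δ) (by linarith) (by linarith)
      calc ((T : ℝ) + D) ^ k ≤ (T * (1 + 2 * δ)) ^ k := pow_le_pow_left₀ (by linarith) hTD _
        _ = (T : ℝ) ^ k * (1 + 2 * δ) ^ k := mul_pow _ _ _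
        _ ≤ (T : ℝ) ^ k * (1 + η / 2) := by
          apply mul_le_mul_of_nonneg_left _ (by positivity)
          refine h10.trans ?_
          nlinarith
    have h11 : 2 * η1 * (a * ((T : ℝ) + D) ^ (k + 1)) ≤ D * (η / 2 * m) := by
      have h12 : ((T : ℝ) + D) ^ (k + 1) ≤ (T : ℝ) ^ k * T * 2 ^ (k + 1) := by
        calc ((T : ℝ) + D) ^ (k + 1) ≤ (T * 2) ^ (k + 1) :=
              pow_le_pow_left₀ (by linarith) (by linarith) _
          _ = (T : ℝ) ^ k * T * 2 ^ (k + 1) := by rw [mul_pow, pow_succ (T : ℝ)]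
      calc 2 * η1 * (a * ((T : ℝ) + D) ^ (k + 1)) ≤ 2 * η1 * (a * ((T : ℝ) ^ k * T * 2 ^ (k + 1))) := by
            gcongr
        _ = (η1 * (16 * 2 ^ k)) / 4 * (a * (T : ℝ) ^ k) * T := by rw [pow_succ]; ring
        _ = (δ * T) * (η / 4 * (a * (T : ℝ) ^ k)) := by rw [hη1η]; ring
        _ ≤ D * (η / 2 * (a * (T : ℝ) ^ k)) := by
            apply mul_le_mul hD1 _ (by positivity) hDpos.le
            apply mul_le_mul_of_nonneg_right (by linarith) (by positivity)
        _ ≤ D * (η / 2 * m) := by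
            apply mul_le_mul_of_nonneg_left _ hDpos.le
            apply mul_le_mul_of_nonneg_left _ (by linarith)
            rw [hm2]
            have : 0 ≤ a * (T : ℝ) ^ k := by positivity
            nlinarith
    have h12 : a * ((k + 1) * D * ((T : ℝ) + D) ^ k) ≤ D * ((1 + η / 2) * m) := by
      calc a * ((k + 1) * D * ((T : ℝ) + D) ^ k) = D * (a * (k + 1) * ((T : ℝ) + D) ^ k) := by ring
        _ ≤ D * (a * (k + 1) * ((T : ℝ) ^ k * (1 + η / 2))) := by
            apply mul_le_mul_of_nonneg_left _ hDpos.le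
            exact mul_le_mul_of_nonneg_left h9 (by positivity)
        _ = D * ((1 + η / 2) * m) := by rw [hm2]; ring
    have h13 : D * Ps Q y k T ≤ D * ((1 + η) * m) := by
      calc D * Ps Q y k T ≤ D * ((1 + η / 2) * m) + D * (η / 2 * m) := by linarith
        _ = _ := by ring
    exact le_of_mul_le_mul_left h13 hDpos
  -- lower bound
  have hlo : (1 - η) * m ≤ Ps Q y k T := by
    obtain ⟨T2, hT2⟩ : ∃ T2, T = T2 + D := ⟨T - D, by omega⟩
    have h1 := (Ss_add Q c hQ y k T2 D).2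
    rw [← hT2] at h1
    have h2 := (hS T2 (by omega) (by omega)).2
    have h3 := (hS T (by omega) (by omega)).1
    have hT2r : (T : ℝ) = T2 + D := by
      rw [hT2]
      push_cast
      ring
    have hT20 : (0 : ℝ) ≤ T2 := Nat.cast_nonneg _
    have h4 := pow_diff_lo k (T : ℝ) T2 hT20 (by linarith)
    have h5 : (T2 : ℝ) ^ (k + 1) ≤ (T : ℝ) ^ (k + 1) := pow_le_pow_left₀ hT20 (by linarith) _
    have h6 : a * ((k + 1) * D * (T2 : ℝ) ^ k) - 2 * η1 * (a * (T : ℝ) ^ (k + 1)) ≤ D * Ps Q y k T := by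
      have h7 : a * ((k + 1) * D * (T2 : ℝ) ^ k) ≤ a * ((T : ℝ) ^ (k + 1) - (T2 : ℝ) ^ (k + 1)) := by
        apply mul_le_mul_of_nonneg_left _ ha0.le
        refine le_trans (le_of_eq ?_) h4
        rw [hT2r]
        ring
      have h8 : η1 * (a * (T2 : ℝ) ^ (k + 1)) ≤ η1 * (a * (T : ℝ) ^ (k + 1)) := by gcongr
      nlinarith
    have hTD : (T : ℝ) * (1 - 2 * δ) ≤ T2 := by nlinarith
    have h9 : (T : ℝ) ^ k * (1 - η / 2) ≤ (T2 : ℝ) ^ k := by
      have h10 := one_add_mul_le_pow (show (-2 : ℝ) ≤ -(2 * δ) by linarith) k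
      have hk2 : (k : ℝ) ≤ 2 ^ k := by exact_mod_cast (Nat.lt_two_pow_self).le
      have h11 : (k : ℝ) * (2 * δ) ≤ η / 2 := by nlinarith
      calc (T : ℝ) ^ k * (1 - η / 2) ≤ (T : ℝ) ^ k * (1 + -(2 * δ)) ^ k := by
            apply mul_le_mul_of_nonneg_left _ (by positivity)
            refine le_trans ?_ h10
            linarith
        _ = (T * (1 - 2 * δ)) ^ k := by rw [mul_pow]; ring
        _ ≤ (T2 : ℝ) ^ k := pow_le_pow_left₀ (mul_nonneg hTr.le (by linarith)) hTD _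
    have h11 : 2 * η1 * (a * (T : ℝ) ^ (k + 1)) ≤ D * (η / 2 * m) := by
      calc 2 * η1 * (a * (T : ℝ) ^ (k + 1)) ≤ 2 * η1 * (a * ((T : ℝ) ^ k * T * 2 ^ (k + 1))) := by
            have h0 : (1 : ℝ) ≤ 2 ^ (k + 1) := one_le_pow₀ (by norm_num)
            have h00 : 0 ≤ (T : ℝ) ^ k * T := by positivity
            rw [pow_succ (T : ℝ)]
            have : (T : ℝ) ^ k * T ≤ (T : ℝ) ^ k * T * 2 ^ (k + 1) := by nlinarith
            gcongr
        _ = (η1 * (16 * 2 ^ k)) / 4 * (a * (T : ℝ) ^ k) * T := by rw [pow_succ]; ring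
        _ = (δ * T) * (η / 4 * (a * (T : ℝ) ^ k)) := by rw [hη1η]; ring
        _ ≤ D * (η / 2 * (a * (T : ℝ) ^ k)) := by
            apply mul_le_mul hD1 _ (by positivity) hDpos.le
            apply mul_le_mul_of_nonneg_right (by linarith) (by positivity)
        _ ≤ D * (η / 2 * m) := by
            apply mul_le_mul_of_nonneg_left _ hDpos.le
            apply mul_le_mul_of_nonneg_left _ (by linarith)
            rw [hm2]
            have : 0 ≤ a * (T : ℝ) ^ k := by positivity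
            nlinarith
    have h12 : D * ((1 - η / 2) * m) ≤ a * ((k + 1) * D * (T2 : ℝ) ^ k) := by
      calc D * ((1 - η / 2) * m) = D * (a * (k + 1) * ((T : ℝ) ^ k * (1 - η / 2))) := by rw [hm2]; ring
        _ ≤ D * (a * (k + 1) * (T2 : ℝ) ^ k) := by
            apply mul_le_mul_of_nonneg_left _ hDpos.le
            exact mul_le_mul_of_nonneg_left h9 (by positivity)
        _ = _ := by ring
    have h13 : D * ((1 - η) * m) ≤ D * Ps Q y k T := by
      calc D * ((1 - η) * m) = D * ((1 - η / 2) * m) - D * (η / 2 * m) := by ring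
        _ ≤ D * Ps Q y k T := by linarith
    exact le_of_mul_le_mul_left h13 hDpos
  rw [abs_le]
  constructor <;> linarith

end Pool.Agent.Y879.PR
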