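import Pool.Agent.Y879.PR.Tup
import Pool.Agent.Y879.GL.Pattern

set_option autoImplicit false

/-!
# Constellations `m + h i`: the law after primes
-/

namespace Pool.Agent.Y879.PR

open Polynomial Finset Filter
open Pool.Agent.W123.RP Pool.Agent.H373R2.T7 Pool.Agent.W123.RU Pool.Agent.W123.RU.Poly
open Pool.Agent.TH464.PW Pool.Agent.TH464.PO Pool.Agent.Y879.AP Pool.Agent.Y879.GL

variable {k : ℕ}

/-- no `m + h i` has a prime factor `p ≤ N ^ (1 / r)` -/
def PG (h : Fin k → ℕ) (N r m : ℕ) : Prop :=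
  ∀ p : ℕ, p.Prime → (p : ℝ) ≤ (N : ℝ) ^ (1 / (r : ℝ)) → ∀ i, ¬ p ∣ m + h i

/-- `0` for the prime factors of `M`, otherwise `k` -/
def pnu (M k p : ℕ) : ℕ := if p ∣ M then 0 else k

/-- the product of `1 - k / p` over the primes `p ≤ N ^ (1 / r)` not dividing `M` -/
noncomputable def PV (M k N r : ℕ) : ℝ :=
  ∏ p ∈ (Icc 1 ⌊(N : ℝ) ^ (1 / (r : ℝ))⌋₊).filter Nat.Prime, (1 - (pnu M k p : ℝ) / p)

/-- the same, divided by the product of `1 - 1 / p` over all primes `p ≤ N ^ (1 / r)` -/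
noncomputable def PW (M k N r : ℕ) : ℝ :=
  ∏ p ∈ (Icc 1 ⌊(N : ℝ) ^ (1 / (r : ℝ))⌋₊).filter Nat.Prime, (1 - (pnu M k p : ℝ) / p) / (1 - 1 / (p : ℝ))

open Classical in
/-- the good `m` in `(A, A + L]` for which `m + h i` is PRIME -/
noncomputable def PP (h : Fin k → ℕ) (N r : ℕ) (i : Fin k) (A L : ℕ) : Finset ℕ :=
  (Ioc A (A + L)).filter (fun m => (m + h i).Prime ∧ PG h N r m)

open Classical in
/-- the number of the good `l` in `(m, m + M T]` in the residue class of `m` modulo `M` -/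
noncomputable def PNext (h : Fin k → ℕ) (M N r T m : ℕ) : ℕ :=
  ((Ioc m (m + M * T)).filter (fun l => l % M = m % M ∧ PG h N r l)).card

/-- a constellation with the admissible classes `C` modulo `M` -/
structure Pat2 (M : ℕ) (h : Fin k → ℕ) (C : Finset ℕ) : Prop where
  tup : ∀ c ∈ C, Tup M (fun i => c + h i)
  one : ∀ c ∈ C, 1 < c
  lt : ∀ c ∈ C, c < M
  cls : ∀ m : ℕ, (∀ p : ℕ, p.Prime → p ∣ M → ∀ i, ¬ p ∣ m + h i) → m % M ∈ C
  dif : ∀ p : ℕ, p.Prime → ¬ p ∣ M → ∀ i j, i ≠ j → ¬ (p : ℤ) ∣ (h i : ℤ) - h j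
  zero : ∃ i, h i = 0
  pos : 0 < M

variable {M : ℕ} {h : Fin k → ℕ} {C : Finset ℕ}

lemma pg_iff (c x N r : ℕ) : PG h N r (M * x + c) ↔
    Sf (Q (tf M (fun i => c + h i))) ⌊(N : ℝ) ^ (1 / (r : ℝ))⌋₊ x := by
  have key : ∀ p : ℕ, (¬ Q (tf M (fun i => c + h i)) p x ↔ ∀ i, ¬ p ∣ M * x + c + h i) := by
    intro p
    rw [tf_Q]
    push Not
    simp only [add_assoc]
  unfold PG Sf
  constructor
  · intro h p hp
    obtain ⟨hp1, hp2⟩ := mem_pz.1 hp
    exact (key p).2 (h p hp2 ((Nat.le_floor_iff (by positivity)).1 hp1))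
  · intro h p hp hpr
    exact (key p).1 (h p (mem_pz.2 ⟨Nat.le_floor hpr, hp⟩))

lemma Pat2.V_eq (hP : Pat2 M h C) (c : ℕ) (hc : c ∈ C) (N r : ℕ) :
    PV M k N r = Vq (Q (tf M (fun i => c + h i))) ⌊(N : ℝ) ^ (1 / (r : ℝ))⌋₊ := by
  unfold PV Vq
  apply Finset.prod_congr rfl
  intro p hp
  have hpp := (mem_pz.1 hp).2
  unfold pnu
  by_cases hpM : p ∣ M
  · rw [if_pos hpM, (hP.tup c hc).nu_zero p hpp hpM]
  · rw [if_neg hpM, (hP.tup c hc).nu_eq p hpp hpM]
    intro i j hij hd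
    apply hP.dif p hpp hpM i j hij
    push_cast at hd
    rwa [add_sub_add_left_eq_sub] at hd

lemma PW_eq (M k N r : ℕ) : PW M k N r = PV M k N r / Vz ⌊(N : ℝ) ^ (1 / (r : ℝ))⌋₊ := by
  unfold PW PV Vz
  rw [Finset.prod_div_distrib]
  rfl

lemma Pat2.mem (hP : Pat2 M h C) (N r : ℕ) (hMN : M ≤ ⌊(N : ℝ) ^ (1 / (r : ℝ))⌋₊) (m : ℕ)
    (hm : PG h N r m) : m % M ∈ C := by
  apply hP.cls
  intro p hp hpM i
  have hpM' : p ≤ M := Nat.le_of_dvd hP.pos hpM
  exact hm p hp ((Nat.le_floor_iff (by positivity)).1 (hpM'.trans hMN)) i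

lemma Pat2.count (hP : Pat2 M h C) (N r : ℕ) (hMN : M ≤ ⌊(N : ℝ) ^ (1 / (r : ℝ))⌋₊) (i : Fin k) (A L : ℕ)
    (R : ℕ → Prop) [DecidablePred R] :
    ((PP h N r i A L).filter R).card = ∑ c ∈ C,
      ((Om M (c + h i) (Q (tf M (fun i => c + h i))) ⌊(N : ℝ) ^ (1 / (r : ℝ))⌋₊ ((A - c) / M)
        ((A + L - c) / M - (A - c) / M)).filter (fun x => R (M * x + c))).card := by
  have hM := hP.pos
  rw [Finset.card_eq_sum_card_fiberwise (f := fun m => m % M) (t := C) (by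
    intro m hm
    simp only [Finset.mem_coe, Finset.mem_filter, PP] at hm
    exact hP.mem N r hMN m hm.1.2.2)]
  apply Finset.sum_congr rfl
  intro c hc
  have hcM := hP.lt c hc
  have hc1 := hP.one c hc
  have hle : (A - c) / M ≤ (A + L - c) / M := Nat.div_le_div_right (by omega)
  have hne : ¬ Sf (Q (tf M (fun i => c + h i))) ⌊(N : ℝ) ^ (1 / (r : ℝ))⌋₊ 0 := by
    intro hs
    have hg := (pg_iff (h := h) c 0 N r).2 hs
    rw [mul_zero, zero_add] at hg
    obtain ⟨j, hj⟩ := hP.zero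
    have hq := Nat.minFac_prime (show c ≠ 1 by omega)
    have hqc : c.minFac ≤ c := Nat.minFac_le (by omega)
    refine hg c.minFac hq ((Nat.le_floor_iff (by positivity)).1 (by omega)) j ?_
    rw [hj, add_zero]
    exact Nat.minFac_dvd c
  have hinj : Function.Injective (fun x => M * x + c) := by
    intro a b hab
    simp only at hab
    have : M * a = M * b := by omega
    exact Nat.eq_of_mul_eq_mul_left hM this
  refine Eq.trans (congrArg Finset.card ?_) (Finset.card_image_of_injective _ hinj)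
  ext m
  simp only [Finset.mem_filter, PP, Om, Finset.mem_image, Finset.mem_Ioc]
  rw [Nat.add_sub_cancel' hle]
  constructor
  · rintro ⟨⟨⟨⟨h1, h2⟩, h3, h4⟩, h5⟩, h6⟩
    have hm : M * (m / M) + c = m := by
      rw [← h6]
      exact Nat.div_add_mod m M
    have hs : Sf (Q (tf M (fun i => c + h i))) ⌊(N : ℝ) ^ (1 / (r : ℝ))⌋₊ (m / M) := by
      rw [← pg_iff, hm]
      exact h4
    have hx0 : m / M ≠ 0 := fun h0 => hne (by rwa [h0] at hs)
    refine ⟨m / M, ⟨⟨⟨?_, ?_⟩, ?_, hs⟩, ?_⟩, hm⟩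
    · by_cases hA : c ≤ A
      · rw [Nat.div_lt_iff_lt_mul hM]
        have : A - c < M * (m / M) := by omega
        rwa [mul_comm] at this
      · rw [show A - c = 0 by omega, Nat.zero_div]
        exact Nat.pos_of_ne_zero hx0
    · rw [Nat.le_div_iff_mul_le hM]
      have : M * (m / M) ≤ A + L - c := by omega
      rwa [mul_comm] at this
    · rwa [← add_assoc, hm]
    · rwa [hm]
  · rintro ⟨x, ⟨⟨⟨h1, h2⟩, h3, h4⟩, h5⟩, rfl⟩
    have hx0 : 0 < x := by
      rcases Nat.eq_zero_or_pos x with h0 | h0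
      · rw [h0] at h4
        exact absurd h4 hne
      · exact h0
    refine ⟨⟨⟨⟨?_, ?_⟩, ?_, ?_⟩, h5⟩, ?_⟩
    · rw [Nat.div_lt_iff_lt_mul hM, mul_comm] at h1
      omega
    · rw [Nat.le_div_iff_mul_le hM, mul_comm] at h2
      have : M ≤ M * x := Nat.le_mul_of_pos_right _ hx0
      omega
    · rwa [add_assoc]
    · exact (pg_iff c x N r).2 h4
    · rw [Nat.mul_add_mod, Nat.mod_eq_of_lt hcM]

open Classical in
lemma Pat2.next (hP : Pat2 M h C) (c : ℕ) (hc : c ∈ C) (N r T x : ℕ) :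
    PNext h M N r T (M * x + c) =
      Wc (Sf (Q (tf M (fun i => c + h i))) ⌊(N : ℝ) ^ (1 / (r : ℝ))⌋₊) x T := by
  have hM := hP.pos
  have hcM := hP.lt c hc
  unfold PNext Wc
  have hinj : Function.Injective (fun x => M * x + c) := by
    intro a b hab
    simp only at hab
    have : M * a = M * b := by omega
    exact Nat.eq_of_mul_eq_mul_left hM this
  refine Eq.trans (congrArg Finset.card ?_) (Finset.card_image_of_injective _ hinj)
  ext m
  simp only [Finset.mem_filter, Finset.mem_image, Finset.mem_Ioc]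
  rw [Nat.mul_add_mod, Nat.mod_eq_of_lt hcM]
  constructor
  · rintro ⟨⟨h1, h2⟩, h3, h4⟩
    have hm : M * (m / M) + c = m := by
      rw [← h3]
      exact Nat.div_add_mod m M
    refine ⟨m / M, ⟨⟨?_, ?_⟩, ?_⟩, hm⟩
    · have : M * x < M * (m / M) := by omega
      exact lt_of_mul_lt_mul_left this (Nat.zero_le _)
    · have : M * (m / M) ≤ M * (x + T) := by
        rw [mul_add]
        omega
      exact le_of_mul_le_mul_left this hM
    · rw [← pg_iff, hm]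
      exact h4
  · rintro ⟨x', ⟨⟨h1, h2⟩, h4⟩, rfl⟩
    refine ⟨⟨?_, ?_⟩, ?_, (pg_iff c x' N r).2 h4⟩
    · have : M * x < M * x' := (Nat.mul_lt_mul_left hM).2 h1
      omega
    · have : M * x' ≤ M * (x + T) := Nat.mul_le_mul_left _ h2
      rw [mul_add] at this
      omega
    · rw [Nat.mul_add_mod, Nat.mod_eq_of_lt hcM]

lemma Pat2.W_pos (hP : Pat2 M h C) (hC : C.Nonempty) (N r : ℕ) : 0 < PW M k N r := by
  obtain ⟨c, hc⟩ := hC
  rw [PW_eq, hP.V_eq c hc]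
  refine div_pos ?_ (Pool.Agent.Y879.PR.Vz_pos _)
  exact Vq_pos _ (us_adm ((hP.tup c hc).us ((M : ℝ) + ∑ i, ((c + h i : ℕ) : ℝ)) 0 (by
    have : (0 : ℝ) ≤ ∑ i, ((c + h i : ℕ) : ℝ) := Finset.sum_nonneg fun _ _ => Nat.cast_nonneg _
    linarith) (fun i => by
      have h1 : ((c + h i : ℕ) : ℝ) ≤ ∑ i, ((c + h i : ℕ) : ℝ) :=
        Finset.single_le_sum (f := fun i => ((c + h i : ℕ) : ℝ)) (fun _ _ => Nat.cast_nonneg _) (mem_univ i)
      have h2 : (0 : ℝ) ≤ M := Nat.cast_nonneg _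
      linarith))) _

lemma sum_abs {ι : Type} (C : Finset ι) (a b : ι → ℝ) (ε : ℝ) (h : ∀ c ∈ C, |a c - b c| ≤ ε * b c) :
    |∑ c ∈ C, a c - ∑ c ∈ C, b c| ≤ ε * ∑ c ∈ C, b c := by
  rw [← Finset.sum_sub_distrib, Finset.mul_sum]
  exact (Finset.abs_sum_le_sum_abs _ _).trans (Finset.sum_le_sum h)

open Classical in
/-- **The law after primes for a constellation.** -/
theorem pat_law (hP : Pat2 M h C) (hC : C.Nonempty) (θ δ : ℝ) (hθ : 0 < θ) (hδ : 0 < δ) (hδ1 : δ ≤ 1)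
    (x0 ε : ℝ) (hε : 0 < ε) (hε1 : ε ≤ 1) :
    ∃ r0 : ℕ, 2 ≤ r0 ∧ ∀ r : ℕ, r0 ≤ r → ∀ᶠ N : ℕ in atTop, ∀ i : Fin k, ∀ X : ℕ, (N : ℝ) ^ θ ≤ X →
      ∀ A L : ℕ, δ * X ≤ L → A + L ≤ X →
      |((PP h N r i A L).card : ℝ) * Real.log X - C.card * (L / M * PW M k N r)| ≤
        ε * (C.card * (L / M * PW M k N r)) ∧
      ∀ T : ℕ, T * PV M k N r ≤ x0 → ∀ B : Finset ℕ,
      |(((PP h N r i A L).filter (fun m => PNext h M N r T m ∈ B)).card : ℝ) -
        (PP h N r i A L).card *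
          ∑ j ∈ B, Real.exp (-(T * PV M k N r)) * (T * PV M k N r) ^ j / j.factorial| ≤
        ε * (PP h N r i A L).card := by
  choose! r1 hr1 hlaw using fun c (hc : c ∈ C) => tup_prime (hP.tup c hc) (θ / 2) (δ / 2) (by positivity)
    (by positivity) (by linarith) x0 (ε / 4) (by positivity) (by linarith)
  obtain ⟨c0, hc0⟩ := hC
  refine ⟨∑ c ∈ C, r1 c, (hr1 c0 hc0).trans (Finset.single_le_sum (fun _ _ => Nat.zero_le _) hc0), ?_⟩
  intro r hr
  have hr' : ∀ c ∈ C, r1 c ≤ r := fun c hc =>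
    (Finset.single_le_sum (f := r1) (fun _ _ => Nat.zero_le _) hc).trans hr
  have hr2 : 2 ≤ r := (hr1 c0 hc0).trans (hr' c0 hc0)
  have hM := hP.pos
  have hMr : (1 : ℝ) ≤ M := by exact_mod_cast hM
  have hall := (Filter.eventually_all_finset C).2 (fun c hc => hlaw c hc r (hr' c hc))
  have hz : ∀ᶠ N : ℕ in atTop, (M : ℝ) ≤ (N : ℝ) ^ (1 / (r : ℝ)) :=
    ((tendsto_rpow_atTop (by positivity)).comp tendsto_natCast_atTop_atTop).eventually_ge_atTop _
  have hNθ : ∀ᶠ N : ℕ in atTop, 200 * (M : ℝ) / (ε * δ) ≤ (N : ℝ) ^ (θ / 2) :=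
    ((tendsto_rpow_atTop (by positivity)).comp tendsto_natCast_atTop_atTop).eventually_ge_atTop _
  have hlog : ∀ᶠ N : ℕ in atTop, 16 * Real.log (2 * M) / ε / θ ≤ Real.log N :=
    (Real.tendsto_log_atTop.comp tendsto_natCast_atTop_atTop).eventually_ge_atTop _
  filter_upwards [hall, hz, hNθ, hlog, eventually_ge_atTop 2] with N hN hzN hNθN hlogN hN2
  intro i X hX A L hL hAL
  have hN2r : (2 : ℝ) ≤ N := by exact_mod_cast hN2
  have hN0 : (0 : ℝ) < N := by linarith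
  have hN1 : (1 : ℝ) ≤ N := by linarith
  have hMN : M ≤ ⌊(N : ℝ) ^ (1 / (r : ℝ))⌋₊ := Nat.le_floor hzN
  have hεδ : 0 < ε * δ := by positivity
  have hεδ1 : ε * δ ≤ 1 := mul_le_one₀ hε1 hδ.le hδ1
  have hq : 200 * (M : ℝ) ≤ ε * δ * (N : ℝ) ^ (θ / 2) := by
    rw [div_le_iff₀ hεδ] at hNθN
    linarith
  have hpow : (N : ℝ) ^ θ = (N : ℝ) ^ (θ / 2) * (N : ℝ) ^ (θ / 2) := by
    rw [← Real.rpow_add hN0]
    congr 1
    ring
  have hhalf : 1 ≤ (N : ℝ) ^ (θ / 2) := Real.one_le_rpow hN1 (by positivity)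
  have hX0 : (0 : ℝ) < X := lt_of_lt_of_le (Real.rpow_pos_of_pos hN0 _) hX
  have hXq : 200 * (M : ℝ) * (N : ℝ) ^ (θ / 2) ≤ ε * δ * X := by
    calc 200 * (M : ℝ) * (N : ℝ) ^ (θ / 2) ≤ ε * δ * (N : ℝ) ^ (θ / 2) * (N : ℝ) ^ (θ / 2) :=
          mul_le_mul_of_nonneg_right hq (by positivity)
      _ = ε * δ * (N : ℝ) ^ θ := by rw [hpow]; ring
      _ ≤ ε * δ * X := mul_le_mul_of_nonneg_left hX hεδ.le
  have hXM : 200 * (M : ℝ) ≤ ε * δ * X := by
    refine le_trans ?_ hXq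
    exact le_mul_of_one_le_right (by positivity) hhalf
  have hLM : 200 * (M : ℝ) ≤ ε * L := by
    calc 200 * (M : ℝ) ≤ ε * (δ * X) := by rw [← mul_assoc]; exact hXM
      _ ≤ ε * L := mul_le_mul_of_nonneg_left hL hε.le
  have hεδX : ε * δ * X ≤ X := by
    calc ε * δ * X ≤ 1 * X := mul_le_mul_of_nonneg_right hεδ1 hX0.le
      _ = X := one_mul _
  have hX200 : 200 * (M : ℝ) * (N : ℝ) ^ (θ / 2) ≤ X := hXq.trans hεδX
  have hX200' : 200 * (M : ℝ) ≤ X := hXM.trans hεδX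
  have hL0 : (0 : ℝ) ≤ L := Nat.cast_nonneg _
  have hL200 : 200 * (M : ℝ) ≤ L := hLM.trans (mul_le_of_le_one_left hL0 hε1)
  have hL200n : 200 * M ≤ L := by exact_mod_cast hL200
  obtain ⟨X', hX'⟩ : ∃ X' : ℕ, X' = X / M := ⟨_, rfl⟩
  have hX'1 : (X : ℝ) ≤ 2 * M * X' := by
    have h1 : M * (X / M) + X % M = X := Nat.div_add_mod X M
    have h2 : X % M < M := Nat.mod_lt _ hM
    have h3 : 200 * M ≤ X := by exact_mod_cast hX200'
    have h4 : X ≤ 2 * (M * X') := by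
      rw [hX']
      omega
    have h5 : (X : ℝ) ≤ 2 * (M * X') := by exact_mod_cast h4
    linarith
  have hX'2 : (X' : ℝ) ≤ X / M := by rw [hX']; exact Nat.cast_div_le
  have hX'θ : (N : ℝ) ^ (θ / 2) ≤ X' := by
    have h1 : 200 * (M : ℝ) * (N : ℝ) ^ (θ / 2) ≤ 2 * M * X' := hX200.trans hX'1
    have h2 : (2 * (M : ℝ)) * (100 * (N : ℝ) ^ (θ / 2)) ≤ (2 * (M : ℝ)) * X' := by linarith
    have h3 := le_of_mul_le_mul_left h2 (by positivity)
    linarith
  have hX'0 : (0 : ℝ) < X' := by linarith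
  have hMV : ∀ c ∈ C, Vq (Q (tf M (fun i => c + h i))) ⌊(N : ℝ) ^ (1 / (r : ℝ))⌋₊ = PV M k N r :=
    fun c hc => (hP.V_eq c hc N r).symm
  have hWpos := hP.W_pos ⟨c0, hc0⟩ N r
  have hlX : Real.log X' ≤ Real.log X := Real.log_le_log hX'0 (hX'2.trans (div_le_self hX0.le hMr))
  have hlX2 : Real.log X ≤ Real.log (2 * M) + Real.log X' := by
    rw [← Real.log_mul (by positivity) hX'0.ne']
    exact Real.log_le_log hX0 hX'1
  have hlogNX : θ * Real.log N ≤ Real.log X := by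
    rw [← Real.log_rpow hN0]
    exact Real.log_le_log (by positivity) hX
  have hlog2M : Real.log (2 * M) ≤ ε / 16 * Real.log X := by
    rw [div_le_iff₀ hθ, div_le_iff₀ hε] at hlogN
    have h1 : ε * (θ * Real.log N) ≤ ε * Real.log X := mul_le_mul_of_nonneg_left hlogNX hε.le
    linarith
  have hlog2M0 : 0 ≤ Real.log (2 * M) := Real.log_nonneg (by linarith)
  have hlX0 : 0 ≤ Real.log X := Real.log_nonneg (by linarith)
  -- one class
  have hone : ∀ c ∈ C, |((Om M (c + h i) (Q (tf M (fun i => c + h i))) ⌊(N : ℝ) ^ (1 / (r : ℝ))⌋₊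
        ((A - c) / M) ((A + L - c) / M - (A - c) / M)).card : ℝ) * Real.log X - L / M * PW M k N r| ≤
        ε * (L / M * PW M k N r) ∧ ∀ T : ℕ, T * PV M k N r ≤ x0 → ∀ B : Finset ℕ,
      |(((Om M (c + h i) (Q (tf M (fun i => c + h i))) ⌊(N : ℝ) ^ (1 / (r : ℝ))⌋₊
        ((A - c) / M) ((A + L - c) / M - (A - c) / M)).filter (fun n =>
          Wc (Sf (Q (tf M (fun i => c + h i))) ⌊(N : ℝ) ^ (1 / (r : ℝ))⌋₊) n T ∈ B)).card : ℝ) -
        (Om M (c + h i) (Q (tf M (fun i => c + h i))) ⌊(N : ℝ) ^ (1 / (r : ℝ))⌋₊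
        ((A - c) / M) ((A + L - c) / M - (A - c) / M)).card *
          ∑ j ∈ B, Real.exp (-(T * PV M k N r)) * (T * PV M k N r) ^ j / j.factorial| ≤
        ε / 4 * (Om M (c + h i) (Q (tf M (fun i => c + h i))) ⌊(N : ℝ) ^ (1 / (r : ℝ))⌋₊
        ((A - c) / M) ((A + L - c) / M - (A - c) / M)).card := by
    intro c hc
    have hcM := hP.lt c hc
    obtain ⟨u, hu⟩ : ∃ u, u = (A - c) / M := ⟨_, rfl⟩
    obtain ⟨v, hv⟩ : ∃ v, v = (A + L - c) / M := ⟨_, rfl⟩
    rw [← hu, ← hv]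
    have u1 : M * u + (A - c) % M = A - c := by rw [hu]; exact Nat.div_add_mod _ _
    have u2 : (A - c) % M < M := Nat.mod_lt _ hM
    have v1 : M * v + (A + L - c) % M = A + L - c := by rw [hv]; exact Nat.div_add_mod _ _
    have v2 : (A + L - c) % M < M := Nat.mod_lt _ hM
    have huv : u ≤ v := by
      rw [hu, hv]
      exact Nat.div_le_div_right (by omega)
    obtain ⟨Y, hY⟩ : ∃ Y, v = u + Y := ⟨v - u, by omega⟩
    rw [hY, Nat.add_sub_cancel_left]
    have hMY : M * v = M * u + M * Y := by rw [hY]; ring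
    have y1 : L ≤ M * Y + 3 * M := by omega
    have y2 : M * Y ≤ L + 3 * M := by omega
    have y1r : (L : ℝ) ≤ M * Y + 3 * M := by exact_mod_cast y1
    have y2r : (M : ℝ) * Y ≤ L + 3 * M := by exact_mod_cast y2
    have hvX : v ≤ X' := by
      rw [hv, hX']
      exact Nat.div_le_div_right (by omega)
    have hYδ : δ / 2 * X' ≤ Y := by
      have h1 : (M : ℝ) * X' ≤ X := by
        rw [le_div_iff₀ (by linarith)] at hX'2
        linarith
      have h2 : (M : ℝ) * (δ / 2 * X') ≤ M * Y := by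
        calc (M : ℝ) * (δ / 2 * X') = δ / 2 * (M * X') := by ring
          _ ≤ δ / 2 * X := mul_le_mul_of_nonneg_left h1 (by positivity)
          _ ≤ L / 2 := by linarith
          _ ≤ M * Y := by linarith
      exact le_of_mul_le_mul_left h2 (by linarith)
    have h3 := (hN c hc).2 i X' hX'θ u Y hYδ (by omega)
    rw [hMV c hc, ← PW_eq] at h3
    refine ⟨?_, h3.2⟩
    have hYL : |(Y : ℝ) - L / M| ≤ ε / 16 * (L / M) := by
      have e1 : (Y : ℝ) - L / M = (M * Y - L) / M := by field_simp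
      rw [e1, abs_div, abs_of_pos (by linarith : (0 : ℝ) < M), div_le_iff₀ (by linarith)]
      have e2 : ε / 16 * (L / M) * M = ε / 16 * L := by field_simp
      rw [e2, abs_le]
      constructor <;> linarith
    exact conv _ (Real.log X') (Real.log X) Y (L / M) (PW M k N r) ε hε hε1 (Nat.cast_nonneg _) hlX0
      (by positivity) hWpos.le h3.1 (by
        rw [abs_le]
        constructor <;> linarith) hYL
  have hcnt := hP.count N r hMN i A L (fun _ => True)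
  simp only [Finset.filter_true] at hcnt
  constructor
  · rw [hcnt]
    push_cast
    rw [Finset.sum_mul]
    have h5 := sum_abs C _ (fun _ => L / M * PW M k N r) ε (fun c hc => (hone c hc).1)
    rw [Finset.sum_const, nsmul_eq_mul] at h5
    exact h5
  · intro T hT B
    rw [hP.count N r hMN i A L (fun m => PNext h M N r T m ∈ B), hcnt]
    push_cast
    rw [Finset.sum_mul, ← Finset.sum_sub_distrib, Finset.mul_sum]
    refine (Finset.abs_sum_le_sum_abs _ _).trans (Finset.sum_le_sum ?_)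
    intro c hc
    have h6 := (hone c hc).2 T hT B
    have h7 : (Om M (c + h i) (Q (tf M (fun i => c + h i))) ⌊(N : ℝ) ^ (1 / (r : ℝ))⌋₊ ((A - c) / M)
        ((A + L - c) / M - (A - c) / M)).filter (fun x => PNext h M N r T (M * x + c) ∈ B) =
        (Om M (c + h i) (Q (tf M (fun i => c + h i))) ⌊(N : ℝ) ^ (1 / (r : ℝ))⌋₊ ((A - c) / M)
        ((A + L - c) / M - (A - c) / M)).filter (fun n =>
          Wc (Sf (Q (tf M (fun i => c + h i))) ⌊(N : ℝ) ^ (1 / (r : ℝ))⌋₊) n T ∈ B) := by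
      apply Finset.filter_congr
      intro x _
      rw [hP.next c hc]
    rw [h7]
    refine h6.trans ?_
    exact mul_le_mul_of_nonneg_right (by linarith) (Nat.cast_nonneg _)

end Pool.Agent.Y879.PR
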