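import Pool.Agent.Y879.PR.Law
import Pool.Agent.Y879.GL.UnifPoly

set_option autoImplicit false

/-!
# The law after primes, uniformly in the sieve conditions
-/

namespace Pool.Agent.Y879.PR

open Polynomial Finset Filter
open Pool.Agent.W123.RP Pool.Agent.H373R2.T7 Pool.Agent.W123.RU Pool.Agent.W123.RU.Poly
open Pool.Agent.TH464.PW Pool.Agent.TH464.PO Pool.Agent.Y879.GL

open Classical in
theorem prime_unif (a c : ℕ) (ha : Squarefree a) (A δ' θ δ : ℝ) (hA : 0 < A) (hδ' : 0 < δ')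
    (hθ : 0 < θ) (hδ : 0 < δ) (hδ1 : δ ≤ 1) (x0 ε : ℝ) (hε : 0 < ε) (hε1 : ε ≤ 1) :
    ∃ r0 : ℕ, 2 ≤ r0 ∧ ∀ r : ℕ, r0 ≤ r → ∀ Cv : ℝ, ∀ᶠ N : ℕ in atTop,
      ∀ (Q : ℕ → ℕ → Prop) (b : ℕ), Base a b c Q → Nat.Coprime a b →
      (∀ p : ℕ, p.Prime → nuB Q p < p) →
      Vq Q ⌊(N : ℝ) ^ (1 / (r : ℝ))⌋₊ ≤ Cv / Real.log N →
      (∀ t : ℕ, 1 ≤ t → (t : ℝ) ≤ (N : ℝ) ^ δ' → ∃ R : ℕ, 0 < R ∧ (R : ℝ) ≤ (N : ℝ) ^ A ∧
        ∀ p : ℕ, p.Prime → t < p → CoG Q p t → p ∣ R) →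
      ∀ X : ℕ, (N : ℝ) ^ θ ≤ X → b ≤ X → ∀ u Y : ℕ, δ * X ≤ u → δ * X ≤ Y → u + Y ≤ X →
      |((Om a b Q ⌊(N : ℝ) ^ (1 / (r : ℝ))⌋₊ u Y).card : ℝ) * Real.log X -
        Y * (Vq Q ⌊(N : ℝ) ^ (1 / (r : ℝ))⌋₊ / Vz ⌊(N : ℝ) ^ (1 / (r : ℝ))⌋₊)| ≤
        ε * (Y * (Vq Q ⌊(N : ℝ) ^ (1 / (r : ℝ))⌋₊ / Vz ⌊(N : ℝ) ^ (1 / (r : ℝ))⌋₊)) ∧
      ∀ T : ℕ, T * Vq Q ⌊(N : ℝ) ^ (1 / (r : ℝ))⌋₊ ≤ x0 → ∀ B : Finset ℕ,
      |(((Om a b Q ⌊(N : ℝ) ^ (1 / (r : ℝ))⌋₊ u Y).filter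
          (fun n => Wc (Sf Q ⌊(N : ℝ) ^ (1 / (r : ℝ))⌋₊) n T ∈ B)).card : ℝ) -
        (Om a b Q ⌊(N : ℝ) ^ (1 / (r : ℝ))⌋₊ u Y).card *
          ∑ j ∈ B, Real.exp (-(T * Vq Q ⌊(N : ℝ) ^ (1 / (r : ℝ))⌋₊)) *
            (T * Vq Q ⌊(N : ℝ) ^ (1 / (r : ℝ))⌋₊) ^ j / j.factorial| ≤
        ε * (Om a b Q ⌊(N : ℝ) ^ (1 / (r : ℝ))⌋₊ u Y).card := by
  obtain ⟨K0, y0, T0, η', κ, x1, hη', hκ, hx1, hlaw⟩ := prime_law_all a c (c + 1) ha x0 ε δ hε hε1 hδ hδ1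
  obtain ⟨v, hv, hV⟩ := V_lower_unif c
  obtain ⟨R1, hR1⟩ : ∃ R1 : ℕ, (K0 : ℝ) / θ ≤ R1 := exists_nat_ge _
  refine ⟨max R1 2, le_max_right _ _, ?_⟩
  intro r hr Cv0
  have hr2 : 2 ≤ r := (le_max_right _ _).trans hr
  have hrr : (2 : ℝ) ≤ r := by exact_mod_cast hr2
  have hrpos : (0 : ℝ) < r := by linarith
  have hrK : (K0 : ℝ) ≤ θ * r := by
    have h1 : (K0 : ℝ) / θ ≤ r := hR1.trans (by exact_mod_cast (le_max_left _ _).trans hr)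
    rw [div_le_iff₀ hθ] at h1
    linarith
  obtain ⟨Cv, hCv⟩ : ∃ Cv, Cv = max Cv0 1 := ⟨_, rfl⟩
  have hCv1 : 1 ≤ Cv := by rw [hCv]; exact le_max_right _ _
  have hCv0 : Cv0 ≤ Cv := by rw [hCv]; exact le_max_left _ _
  have hpow2 : Tendsto (fun X : ℕ => (X : ℝ) ^ (1 / (2 * r : ℝ))) atTop atTop :=
    (tendsto_rpow_atTop (by positivity)).comp tendsto_natCast_atTop_atTop
  have hlogX : Tendsto (fun X : ℕ => Real.log (X : ℝ)) atTop atTop :=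
    Real.tendsto_log_atTop.comp tendsto_natCast_atTop_atTop
  obtain ⟨E, hE⟩ : ∃ E : ℝ, E = Real.exp (A * Cv / (η' * κ)) := ⟨_, rfl⟩
  have hE0 : 0 < E := by rw [hE]; exact Real.exp_pos _
  have hq2 : (0 : ℝ) < x1 / v + 1 := by positivity
  filter_upwards [hpow2.eventually_ge_atTop ((y0 : ℝ) + 3), eventually_ge_atTop 16,
    hlogX.eventually_ge_atTop (Cv / κ), hlogX.eventually_ge_atTop (Cv / κ * (T0 + 2 + E)),
    logpow_rpow c (x1 / v + 1) δ' hq2 hδ',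
    hlogX.eventually_ge_atTop (1 / (θ * (v * θ ^ c)))] with N hX1 hX16 hX3 hX4 hX6 hX8
  intro Q b hQ hab hadm hVup0 hres X hNX hbX u Y hu hY huY
  have hX16r : (16 : ℝ) ≤ N := by exact_mod_cast hX16
  have hNpos : (0 : ℝ) < N := by linarith
  have hXone : (1 : ℝ) ≤ N := by linarith
  have hlX0 : 0 < Real.log N := Real.log_pos (by linarith)
  have hy0r : (0 : ℝ) ≤ y0 := Nat.cast_nonneg _
  obtain ⟨hy1, hy2, hy3, hy4⟩ := level_low r hr2 N (by omega) (by linarith)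
  obtain ⟨y, hy⟩ : ∃ y, y = ⌊(N : ℝ) ^ (1 / (r : ℝ))⌋₊ := ⟨_, rfl⟩
  rw [← hy] at hy1 hy2 hy3 hy4 hVup0 ⊢
  have hyr : (y0 : ℝ) + 3 ≤ y := hX1.trans hy1
  have hyy0 : y0 ≤ y := by
    have : (y0 : ℝ) ≤ y := by linarith
    exact_mod_cast this
  have hy3' : 3 ≤ y := by
    have : (3 : ℝ) ≤ y := by linarith
    exact_mod_cast this
  have hlogy : 0 < Real.log y := lt_of_lt_of_le (by positivity) hy2
  have hVlow0 := hV Q hQ.per hadm y (by omega)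
  have hVlow : v / Real.log N ^ c ≤ Vq Q y := by
    refine le_trans ?_ hVlow0
    apply div_le_div_of_nonneg_left hv.le (by positivity)
    exact pow_le_pow_left₀ hlogy.le hy3 c
  have hVup : Vq Q y ≤ Cv / Real.log N := hVup0.trans (by gcongr)
  obtain ⟨V, hVdef⟩ : ∃ V, V = Vq Q y := ⟨_, rfl⟩
  have hVκ : Vq Q y ≤ κ := by
    refine hVup.trans ?_
    rw [div_le_iff₀ hlX0]
    rw [div_le_iff₀ hκ] at hX3
    linarith
  have hyK : y ^ K0 ≤ X := by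
    have h3 : ((y ^ K0 : ℕ) : ℝ) ≤ X := by
      push_cast
      calc (y : ℝ) ^ K0 ≤ ((N : ℝ) ^ (1 / (r : ℝ))) ^ K0 := by
            apply pow_le_pow_left₀ (Nat.cast_nonneg _)
            rw [hy]
            exact Nat.floor_le (by positivity)
        _ = (N : ℝ) ^ (1 / (r : ℝ) * K0) := by
            rw [Real.rpow_mul hNpos.le, Real.rpow_natCast]
        _ ≤ (N : ℝ) ^ θ := by
            apply Real.rpow_le_rpow_of_exponent_le hXone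
            rw [one_div, inv_mul_eq_div, div_le_iff₀ hrpos]
            exact hrK
        _ ≤ X := hNX
    exact_mod_cast h3
  have hlogXN : θ * Real.log N ≤ Real.log X := by
    rw [← Real.log_rpow hNpos]
    exact Real.log_le_log (by positivity) hNX
  have hVlow2 : 1 / Real.log X ^ (c + 1) ≤ Vq Q y := by
    refine le_trans ?_ hVlow
    have h1 : 0 < θ * Real.log N := by positivity
    have h2 : 1 / Real.log X ^ (c + 1) ≤ 1 / (θ * Real.log N) ^ (c + 1) := by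
      apply one_div_le_one_div_of_le (by positivity)
      exact pow_le_pow_left₀ h1.le hlogXN _
    refine h2.trans ?_
    rw [div_le_div_iff₀ (by positivity) (by positivity), one_mul]
    rw [div_le_iff₀ (by positivity)] at hX8
    calc Real.log N ^ c = Real.log N ^ c * 1 := (mul_one _).symm
      _ ≤ Real.log N ^ c * (Real.log N * (θ * (v * θ ^ c))) := by gcongr
      _ = v * (θ * Real.log N) ^ (c + 1) := by rw [mul_pow]; ring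
  refine hlaw X y hyy0 hyK b hbX hab Q hQ hadm hVlow2 hVκ ?_ u Y hu hY huY
  intro T' h1 h2
  rw [← hVdef] at h1 h2 hVlow hVup
  have hVpos : 0 < V := lt_of_lt_of_le (by positivity) hVlow
  have hTr0 : (0 : ℝ) ≤ T' := Nat.cast_nonneg _
  -- T' is large
  have hTlo : κ * Real.log N / Cv ≤ T' := by
    rw [div_le_iff₀ (by linarith)]
    have h3 : κ ≤ T' * (Cv / Real.log N) := h1.trans (mul_le_mul_of_nonneg_left hVup hTr0)
    calc κ * Real.log N ≤ T' * (Cv / Real.log N) * Real.log N :=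
          mul_le_mul_of_nonneg_right h3 hlX0.le
      _ = T' * Cv := by field_simp
  have hbig : (T0 : ℝ) + 2 + E ≤ T' := by
    refine le_trans ?_ hTlo
    rw [le_div_iff₀ (by linarith)]
    have h4 : Cv / κ * (T0 + 2 + E) * κ ≤ Real.log N * κ :=
      mul_le_mul_of_nonneg_right hX4 hκ.le
    have h5 : Cv / κ * (T0 + 2 + E) * κ = ((T0 : ℝ) + 2 + E) * Cv := by field_simp
    linarith
  have hT0r : (0 : ℝ) ≤ T0 := Nat.cast_nonneg _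
  have hT2 : 2 ≤ T' := by
    have : (2 : ℝ) ≤ T' := by linarith
    exact_mod_cast this
  have hT2r : (2 : ℝ) ≤ T' := by exact_mod_cast hT2
  -- T' is small
  have hTup : (T' : ℝ) ≤ x1 / v * Real.log N ^ c := by
    have h3 : (T' : ℝ) * (v / Real.log N ^ c) ≤ x1 := (mul_le_mul_of_nonneg_left hVlow hTr0).trans h2
    rw [div_mul_eq_mul_div, le_div_iff₀ hv]
    have h4 := mul_le_mul_of_nonneg_right h3 (show 0 ≤ Real.log N ^ c by positivity)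
    have h5 : (T' : ℝ) * (v / Real.log N ^ c) * Real.log N ^ c = T' * v := by field_simp
    linarith
  refine ⟨?_, ?_⟩
  · have : (T0 : ℝ) ≤ T' := by linarith
    exact_mod_cast this
  · intro t ht
    rw [mem_Icc] at ht
    have htX : (t : ℝ) ≤ (N : ℝ) ^ δ' := by
      calc (t : ℝ) ≤ T' := by exact_mod_cast ht.2
        _ ≤ x1 / v * Real.log N ^ c := hTup
        _ ≤ (x1 / v + 1) * Real.log N ^ c := by gcongr; linarith
        _ ≤ (N : ℝ) ^ δ' := hX6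
    obtain ⟨R, hR0, hRA, hRd⟩ := hres t ht.1 htX
    have h3 := card_primes_le ((pz y).filter (fun p : ℕ => T' < p ∧ CoG Q p t)) T' R hT2 hR0
      ((N : ℝ) ^ A) hRA (fun p hp => by
        rw [mem_filter] at hp
        have hpp := (mem_pz.1 hp.1).2
        exact ⟨hpp, hp.2.1, hRd p hpp (by omega) hp.2.2⟩)
    rw [Real.log_rpow hNpos] at h3
    have hlT : A * Cv / (η' * κ) ≤ Real.log T' := by
      have h4 : E ≤ T' := by linarith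
      have h5 := Real.log_le_log hE0 h4
      rwa [hE, Real.log_exp] at h5
    have hq : 0 < A * Cv / (η' * κ) := by positivity
    have hlT0 : 0 < Real.log T' := lt_of_lt_of_le hq hlT
    -- `A log N ≤ η' T' log T'`
    have h6 : A * Real.log N ≤ η' * T' * Real.log T' := by
      calc A * Real.log N = η' * (κ * Real.log N / Cv) * (A * Cv / (η' * κ)) := by
            field_simp
        _ ≤ η' * T' * Real.log T' := by
            apply mul_le_mul _ hlT hq.le (by positivity)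
            exact mul_le_mul_of_nonneg_left hTlo hη'.le
    have h7 : ((((pz y).filter (fun p : ℕ => T' < p ∧ CoG Q p t)).card : ℕ) : ℝ) * Real.log T' ≤
        η' * T' * Real.log T' := h3.trans h6
    exact le_of_mul_le_mul_right h7 hlT0

open Classical in
/-- **The law after primes for systems of polynomials**, uniformly in the systems. The form `a n + b`
is one of the polynomials, and no polynomial has a root modulo a prime factor of `a`. -/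
theorem prime_polys (a k D : ℕ) (ha : Squarefree a) (E δ' θ δ : ℝ) (hE : 0 < E) (hδ' : 0 < δ')
    (hθ : 0 < θ) (hδ : 0 < δ) (hδ1 : δ ≤ 1) (x0 ε : ℝ) (hε : 0 < ε) (hε1 : ε ≤ 1) :
    ∃ r0 : ℕ, 2 ≤ r0 ∧ ∀ r : ℕ, r0 ≤ r → ∀ Cv : ℝ, ∀ᶠ N : ℕ in atTop,
      ∀ (f : Fin k → ℤ[X]) (b : ℕ), US k D ((N : ℝ) ^ E) ((N : ℝ) ^ δ') f → Nat.Coprime a b →
      (∀ p n : ℕ, p.Prime → p ∣ a → ¬ Q f p n) →
      (∃ i, ∀ n : ℕ, (f i).eval (n : ℤ) = a * n + b) →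
      Vq (Q f) ⌊(N : ℝ) ^ (1 / (r : ℝ))⌋₊ ≤ Cv / Real.log N →
      ∀ X : ℕ, (N : ℝ) ^ θ ≤ X → b ≤ X → ∀ u Y : ℕ, δ * X ≤ u → δ * X ≤ Y → u + Y ≤ X →
      |((Om a b (Q f) ⌊(N : ℝ) ^ (1 / (r : ℝ))⌋₊ u Y).card : ℝ) * Real.log X -
        Y * (Vq (Q f) ⌊(N : ℝ) ^ (1 / (r : ℝ))⌋₊ / Vz ⌊(N : ℝ) ^ (1 / (r : ℝ))⌋₊)| ≤
        ε * (Y * (Vq (Q f) ⌊(N : ℝ) ^ (1 / (r : ℝ))⌋₊ / Vz ⌊(N : ℝ) ^ (1 / (r : ℝ))⌋₊)) ∧
      ∀ T : ℕ, T * Vq (Q f) ⌊(N : ℝ) ^ (1 / (r : ℝ))⌋₊ ≤ x0 → ∀ B : Finset ℕ,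
      |(((Om a b (Q f) ⌊(N : ℝ) ^ (1 / (r : ℝ))⌋₊ u Y).filter
          (fun n => Wc (Sf (Q f) ⌊(N : ℝ) ^ (1 / (r : ℝ))⌋₊) n T ∈ B)).card : ℝ) -
        (Om a b (Q f) ⌊(N : ℝ) ^ (1 / (r : ℝ))⌋₊ u Y).card *
          ∑ j ∈ B, Real.exp (-(T * Vq (Q f) ⌊(N : ℝ) ^ (1 / (r : ℝ))⌋₊)) *
            (T * Vq (Q f) ⌊(N : ℝ) ^ (1 / (r : ℝ))⌋₊) ^ j / j.factorial| ≤
        ε * (Om a b (Q f) ⌊(N : ℝ) ^ (1 / (r : ℝ))⌋₊ u Y).card := by
  obtain ⟨A1, hA1⟩ : ∃ A1 : ℝ, A1 = 1 + 2 * D * (E + δ' * D + 1) := ⟨_, rfl⟩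
  have hA10 : 0 < A1 := by rw [hA1]; positivity
  obtain ⟨A, hA⟩ : ∃ A : ℝ, A = A1 * (k * k) + 1 := ⟨_, rfl⟩
  have hA0 : 0 < A := by rw [hA]; positivity
  obtain ⟨r0, hr0, h0⟩ := prime_unif a (k * D + 1) ha A δ' θ δ hA0 hδ' hθ hδ hδ1 x0 ε hε hε1
  refine ⟨r0, hr0, ?_⟩
  intro r hr Cv
  filter_upwards [h0 r hr Cv, eventually_ge_atTop (((2 * D).factorial + (D + 1) * 2 ^ D + 1))] with N hX hXb
  intro f b hf hab hnon hbase hV X hNX hbX u Y hu hY huY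
  have hXr : (((2 * D).factorial + (D + 1) * 2 ^ D + 1 : ℕ) : ℝ) ≤ N := by exact_mod_cast hXb
  push_cast at hXr
  have hf0 : (0 : ℝ) ≤ ((2 * D).factorial : ℝ) := Nat.cast_nonneg _
  have hd0 : (0 : ℝ) ≤ ((D : ℝ) + 1) * 2 ^ D := by positivity
  have hX1 : (1 : ℝ) ≤ N := by linarith
  have hX0 : (0 : ℝ) < N := by linarith
  obtain ⟨i0, hi0⟩ := hbase
  have hB : Base a b (k * D + 1) (Q f) := ⟨us_perB hf, hnon, fun p n _ _ hn => ⟨i0, by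
    rw [hi0 n]
    exact_mod_cast hn⟩⟩
  refine hX (Q f) b hB hab (us_adm hf) hV ?_ X hNX hbX u Y hu hY huY
  intro t ht htU
  refine ⟨RR f t, RR_pos hf t ht htU, ?_, fun p _ _ hc => RR_dvd hf t p hc⟩
  refine (RR_le hf (Real.one_le_rpow hX1 hE.le) t ht htU).trans ?_
  have h1 : ((D : ℝ) + 1) * ((N : ℝ) ^ E * (((N : ℝ) ^ δ') ^ D * 2 ^ D)) ≤ (N : ℝ) ^ (E + δ' * D + 1) := by
    calc ((D : ℝ) + 1) * ((N : ℝ) ^ E * (((N : ℝ) ^ δ') ^ D * 2 ^ D)) =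
          (((D : ℝ) + 1) * 2 ^ D) * ((N : ℝ) ^ E * ((N : ℝ) ^ δ') ^ D) := by ring
      _ ≤ N * ((N : ℝ) ^ E * ((N : ℝ) ^ δ') ^ D) := by
          apply mul_le_mul_of_nonneg_right (by linarith) (by positivity)
      _ = (N : ℝ) ^ (E + δ' * D + 1) := by
          rw [← Real.rpow_natCast ((N : ℝ) ^ δ'), ← Real.rpow_mul hX0.le, ← Real.rpow_add hX0,
            Real.rpow_add hX0 (E + δ' * D) 1, Real.rpow_one]
          ring
  have h2 : ((2 * D).factorial : ℝ) * (((D : ℝ) + 1) * ((N : ℝ) ^ E * (((N : ℝ) ^ δ') ^ D * 2 ^ D))) ^ (2 * D) ≤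
      (N : ℝ) ^ A1 := by
    calc ((2 * D).factorial : ℝ) * (((D : ℝ) + 1) * ((N : ℝ) ^ E * (((N : ℝ) ^ δ') ^ D * 2 ^ D))) ^ (2 * D)
        ≤ N * ((N : ℝ) ^ (E + δ' * D + 1)) ^ (2 * D) := by
          apply mul_le_mul (by linarith) _ (by positivity) hX0.le
          exact pow_le_pow_left₀ (by positivity) h1 _
      _ = (N : ℝ) ^ A1 := by
          rw [← Real.rpow_natCast, ← Real.rpow_mul hX0.le, hA1]
          nth_rewrite 1 [← Real.rpow_one (N : ℝ)]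
          rw [← Real.rpow_add hX0]
          congr 1
          push_cast
          ring
  calc _ ≤ ((N : ℝ) ^ A1) ^ (k * k) := pow_le_pow_left₀ (by positivity) h2 _
    _ = (N : ℝ) ^ (A1 * (k * k)) := by
        rw [← Real.rpow_natCast, ← Real.rpow_mul hX0.le]
        push_cast
        rfl
    _ ≤ (N : ℝ) ^ A := Real.rpow_le_rpow_of_exponent_le hX1 (by rw [hA]; linarith)

end Pool.Agent.Y879.PR
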